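import Pool.Agent.Helper79.HG.StatEq

/-!
# HI: the Mumford-Tate conjecture at a point of a family, and the connected monodromy group: definitions
-/

namespace Pool.Agent.Helper79.HI

open Matrix Pool.Agent.Helper79.BB Pool.Agent.Helper79.HH Pool.Agent.Helper79.HG Pool.Agent.Helper64.Per
  Pool.Agent.Helper88.MT Pool.Agent.Helper79.DD

section

variable {r : ℕ}

/-- The points with coordinates in the `F`-algebra `R` of the Zariski closure over the field `F` of the set `S` of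
points of `GL r`. -/
def zar {F : Type} [Field F] (R : Type) [CommRing R] [Algebra F R] (S : Set (GL (Fin r) F)) :
    Set (GL (Fin r) R) :=
  {g | ∀ f ∈ vanGL F S, evGL g f = 0}

/-- The group `Γ` of integral matrices as a group of rational matrices. -/
def qp (Γ : Subgroup (GL (Fin r) ℤ)) : Subgroup (GL (Fin r) ℚ) :=
  Γ.map (Matrix.GeneralLinearGroup.map (Int.castRingHom ℚ))

/-- The map `σ` acts on the points `y k v`, `v ∈ (ℤ / ℓ^k)^r`, with algebraic coordinates as the matrix `g`: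
`σ (y_v) = y_(g v)`. -/
def IsGalElt {ℓ : ℕ} [Fact ℓ.Prime] (σ : Qbar → Qbar) {n : ℕ → ℕ}
    (y : ∀ k, (Fin r → ZMod (ℓ ^ k)) → Fin (n k) → ℂ) (g : GL (Fin r) ℤ_[ℓ]) : Prop :=
  ∀ k v i (z : Qbar), (z : ℂ) = y k v i → ((σ z : Qbar) : ℂ) = y k (actP g v) i

/-- The base change to `ℤ_ℓ` of the Zariski closure over `ℤ` of the Mumford-Tate group of the Hodge structure on `ℤ^r`
with period matrix `P` is the Zariski closure over `ℤ_ℓ` of the group `R`, in `GL r` over `ℤ_ℓ`. -/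
def IsEq {ℓ : ℕ} [Fact ℓ.Prime] (lev : Fin r → ℤ) (P : Matrix (Fin r) (Fin r) ℂ)
    (R : Subgroup (GL (Fin r) ℤ_[ℓ])) : Prop :=
  (vanGL ℤ (MTat lev P : Set (GL (Fin r) ℂ))).map (MvPolynomial.map (Int.castRingHom ℤ_[ℓ])) =
    vanGL ℤ_[ℓ] (R : Set (GL (Fin r) ℤ_[ℓ]))

/-- The equality of the Mumford-Tate conjecture at the prime `ℓ`, for a group `G` acting on `Qbar` (the Galois
group of a number field), the `G`-sets `{y k v : v ∈ (ℤ / ℓ^k)^r}`, and the Hodge structure on `ℤ^r` with period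
matrix `P`: let `ρ` be the action of `G` on the `ℓ`-adic lattice; for every subgroup `G'` of finite index of `G` such
that the Zariski closure over `ℚ_ℓ` of `ρ(G')` is connected, the base change to `ℤ_ℓ` of the Zariski closure over
`ℤ` of the Mumford-Tate group is the Zariski closure over `ℤ_ℓ` of `ρ(G')`, in `GL r` over `ℤ_ℓ`. -/
def Q1At {ℓ : ℕ} [Fact ℓ.Prime] {G : Type} [Group G] (act : G → Qbar → Qbar) {n : ℕ → ℕ}
    (y : ∀ k, (Fin r → ZMod (ℓ ^ k)) → Fin (n k) → ℂ) (lev : Fin r → ℤ)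
    (P : Matrix (Fin r) (Fin r) ℂ) : Prop :=
  ∀ ρ : G →* GL (Fin r) ℤ_[ℓ], IsGalRep act y ρ → ∀ G' : Subgroup G, G'.FiniteIndex →
    IsConn (toQl '' (G'.map ρ : Set (GL (Fin r) ℤ_[ℓ]))) → IsEq lev P (G'.map ρ)

end

section

variable {κ : Type} [Field κ] [Algebra κ ℂ] {m r ℓ : ℕ} [Fact ℓ.Prime] {U : Set (Fin m → ℂ)}
  {w : (Fin m → ℂ) → ℂ}

/-- The points over `t` of the covers `Y k`. -/
def pts (Y : ∀ k : ℕ, CoverData κ (Fin r → ZMod (ℓ ^ k)) U w) (t : Fin m → ℂ) :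
    ∀ k, (Fin r → ZMod (ℓ ^ k)) → Fin (Y k).N → ℂ := fun k v i => (Y k).y v i t

/-- `Γ` is a group of monodromy matrices of the local system `ℤ^r` whose Zariski closure is connected and has a perfect
Lie algebra, and modulo which the Hodge structures and the Galois representations at the points `t` of `V` are
those at the point `t₀`.

For the cohomology of the fibres of a smooth projective family, all this holds if `Γ` is the group of the monodromy
matrices in the identity component of the Zariski closure of the monodromy group: `perfect` since this component is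
semisimple (Deligne); `hodge` is the theorem of the fixed part; `galois` holds since the geometric fundamental
group is a normal subgroup of the fundamental group of `S`, and the quotient is the Galois group of `κ` (`G₁`
is the Galois group of a number field, which contains the coordinates of `t` and `t₀`). -/
structure IsConnMono (Y : ∀ k : ℕ, CoverData κ (Fin r → ZMod (ℓ ^ k)) U w) (lev : Fin r → ℤ)
    (ψ : Matrix (Fin r) (Fin r) ℤ) (P : (Fin m → ℂ) → Matrix (Fin r) (Fin r) ℂ)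
    (V : Set (Fin m → ℂ)) (t₀ : Fin m → ℂ) (Γ : Subgroup (GL (Fin r) ℤ)) : Prop where
  mono : ∀ γ ∈ Γ, (γ : Matrix (Fin r) (Fin r) ℤ) ∈ MonoL ψ P Y
  conn : IsConn (qp Γ : Set (GL (Fin r) ℚ))
  perfect : ∀ W : Submodule ℚ (Matrix (Fin r) (Fin r) ℚ),
    (∀ x ∈ lieGL (qp Γ : Set (GL (Fin r) ℚ)), ∀ y ∈ lieGL (qp Γ : Set (GL (Fin r) ℚ)),
      x * y - y * x ∈ W) → lieGL (qp Γ : Set (GL (Fin r) ℚ)) ⊆ W
  hodge : ∀ t ∈ V, ∀ (u : ℂ) (a a₀ : GL (Fin r) ℂ), IsHodgeElt lev (P t) u a →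
    IsHodgeElt lev (P t₀) u a₀ → a * a₀⁻¹ ∈ zar ℂ (qp Γ : Set (GL (Fin r) ℚ))
  galois : ∀ t ∈ V, (∀ i, IsAlgebraic ℚ (t i)) → ∃ G₁ : Subgroup (Qbar ≃ₐ[ℚ] Qbar),
    G₁.FiniteIndex ∧ ∀ σ ∈ G₁, ∀ g g₀ : GL (Fin r) ℤ_[ℓ],
      IsGalElt σ (pts Y t) g → IsGalElt σ (pts Y t₀) g₀ →
        toQl (g * g₀⁻¹) ∈ zar ℚ_[ℓ] (qp Γ : Set (GL (Fin r) ℚ)) ∧
        ∀ a ∈ zar ℚ_[ℓ] (qp Γ : Set (GL (Fin r) ℚ)),
          toQl g * a * (toQl g)⁻¹ ∈ zar ℚ_[ℓ] (qp Γ : Set (GL (Fin r) ℚ))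

end

end Pool.Agent.Helper79.HI
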