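import Pool.Agent.Helper88.MT.Final

/-!
# HI-02: translations and the inverse on the polynomials on `GL r`

`GLPoly r R = MvPolynomial (Option (Fin r × Fin r)) R`; `evGL x f` is the value at the entries of `x` (variables `some (i, j)`) and at the inverse of
the determinant (variable `none`).

* `exists_left`: `f' = MvPolynomial.bind₁ s f` (or `MvPolynomial.aeval s f`) with `s (some (i, j)) = ∑ k, C (y i k) * X (some (k, j))` and
  `s none = C (det y⁻¹) * X none` (`((Matrix.GeneralLinearGroup.det y)⁻¹ : Rˣ)`). Value: `evGL x (aeval s f) = aeval (fun o => evGL x (s o)) f`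
  (`MvPolynomial.comp_aeval_apply`), then compare the points (`funext o; cases o`): entries of a product, `det (y x)⁻¹ = det y⁻¹ * det x⁻¹` (`map_mul`,
  `mul_inv`), and `det (map y)⁻¹ = algebraMap (det y⁻¹)`.
* `exists_right`: the same with `∑ k, X (some (i, k)) * C (y k j)`.
* `exists_inv`: `s (some (i, j)) = X none * (entry (i, j) of the adjugate of the matrix of the variables X (some (i, j)))`, `s none = determinant of the
  matrix of the variables`. Value at `x`: `x⁻¹ = det x⁻¹ • adjugate x` (`Matrix.inv_def`, `Matrix.coe_units_inv`,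
  or `Matrix.GeneralLinearGroup` lemmas), `RingHom.map_adjugate`, `RingHom.map_det`.
-/

set_option linter.unusedSectionVars false

namespace Pool.Agent.Helper79.HI

open Matrix Pool.Agent.Helper88.MT

variable {r : ℕ} {R : Type} [CommRing R]

private theorem evGL_X {A : Type} [CommRing A] [Algebra R A] (x : GL (Fin r) A)
    (o : Option (Fin r × Fin r)) : evGL (R := R) x (MvPolynomial.X o) =
      o.elim (((Matrix.GeneralLinearGroup.det x)⁻¹ : Aˣ) : A) (fun p ↦ x p.1 p.2) :=
  MvPolynomial.aeval_X _ o

private theorem evGL_C {A : Type} [CommRing A] [Algebra R A] (x : GL (Fin r) A) (c : R) :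
    evGL x (MvPolynomial.C c) = algebraMap R A c :=
  MvPolynomial.aeval_C _ c

private theorem evGL_sub {A : Type} [CommRing A] [Algebra R A] (x z : GL (Fin r) A)
    (s : Option (Fin r × Fin r) → GLPoly r R) (f : GLPoly r R)
    (h0 : evGL x (s none) = (((Matrix.GeneralLinearGroup.det z)⁻¹ : Aˣ) : A))
    (h1 : ∀ i j, evGL x (s (some (i, j))) = z i j) :
    evGL x (MvPolynomial.aeval s f) = evGL z f := by
  rw [MvPolynomial.comp_aeval_apply]
  unfold evGL at h0 h1 ⊢
  congr 2
  funext o
  cases o with
  | none => exact h0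
  | some p => exact h1 p.1 p.2

private theorem det_map {A B : Type} [CommRing A] [CommRing B] (θ : A →+* B)
    (x : GL (Fin r) A) :
    Matrix.GeneralLinearGroup.det (Matrix.GeneralLinearGroup.map θ x) =
      Units.map (θ : A →* B) (Matrix.GeneralLinearGroup.det x) := by
  ext
  exact (θ.map_det (x : Matrix (Fin r) (Fin r) A)).symm

private theorem det_map_inv {A B : Type} [CommRing A] [CommRing B] (θ : A →+* B)
    (x : GL (Fin r) A) :
    (((Matrix.GeneralLinearGroup.det (Matrix.GeneralLinearGroup.map θ x))⁻¹ : Bˣ) : B) =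
      θ (((Matrix.GeneralLinearGroup.det x)⁻¹ : Aˣ) : A) := by
  rw [det_map, ← map_inv]
  rfl

/-- Left translation. -/
theorem exists_left (y : GL (Fin r) R) (f : GLPoly r R) : ∃ f' : GLPoly r R,
    ∀ {A : Type} [CommRing A] [Algebra R A] (x : GL (Fin r) A),
      evGL x f' = evGL (Matrix.GeneralLinearGroup.map (algebraMap R A) y * x) f := by
  refine ⟨MvPolynomial.aeval (fun o : Option (Fin r × Fin r) => o.elim
    (MvPolynomial.C (((Matrix.GeneralLinearGroup.det y)⁻¹ : Rˣ) : R) * MvPolynomial.X none)
    (fun p => ∑ k, MvPolynomial.C (y p.1 k) * MvPolynomial.X (some (k, p.2)))) f, ?_⟩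
  intro A _ _ x
  refine evGL_sub x _ _ f ?_ fun i j => ?_
  · rw [Option.elim_none, map_mul, evGL_C, evGL_X, Option.elim_none, map_mul, mul_inv,
      Units.val_mul, det_map_inv]
  · rw [Option.elim_some, map_sum]
    rw [Matrix.GeneralLinearGroup.coe_mul, Matrix.mul_apply]
    refine Finset.sum_congr rfl fun k _ => ?_
    rw [map_mul, evGL_C, evGL_X]
    rfl

/-- Right translation. -/
theorem exists_right (y : GL (Fin r) R) (f : GLPoly r R) : ∃ f' : GLPoly r R,
    ∀ {A : Type} [CommRing A] [Algebra R A] (x : GL (Fin r) A),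
      evGL x f' = evGL (x * Matrix.GeneralLinearGroup.map (algebraMap R A) y) f := by
  refine ⟨MvPolynomial.aeval (fun o : Option (Fin r × Fin r) => o.elim
    (MvPolynomial.X none * MvPolynomial.C (((Matrix.GeneralLinearGroup.det y)⁻¹ : Rˣ) : R))
    (fun p => ∑ k, MvPolynomial.X (some (p.1, k)) * MvPolynomial.C (y k p.2))) f, ?_⟩
  intro A _ _ x
  refine evGL_sub x _ _ f ?_ fun i j => ?_
  · rw [Option.elim_none, map_mul, evGL_C, evGL_X, Option.elim_none, map_mul, mul_inv,
      Units.val_mul, det_map_inv]
  · rw [Option.elim_some, map_sum]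
    rw [Matrix.GeneralLinearGroup.coe_mul, Matrix.mul_apply]
    refine Finset.sum_congr rfl fun k _ => ?_
    rw [map_mul, evGL_C, evGL_X]
    rfl

/-- Inverse. -/
theorem exists_inv (f : GLPoly r R) : ∃ f' : GLPoly r R,
    ∀ {A : Type} [CommRing A] [Algebra R A] (x : GL (Fin r) A), evGL x f' = evGL x⁻¹ f := by
  set M : Matrix (Fin r) (Fin r) (GLPoly r R) := Matrix.of fun i j => MvPolynomial.X (some (i, j))
    with hM
  refine ⟨MvPolynomial.aeval (fun o : Option (Fin r × Fin r) => o.elim M.det
    (fun p => MvPolynomial.X none * M.adjugate p.1 p.2)) f, ?_⟩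
  intro A _ _ x
  have hMx : (evGL (R := R) x).toRingHom.mapMatrix M = (x : Matrix (Fin r) (Fin r) A) := by
    ext i j
    rw [RingHom.mapMatrix_apply, Matrix.map_apply, hM, Matrix.of_apply]
    exact evGL_X x (some (i, j))
  refine evGL_sub x _ _ f ?_ fun i j => ?_
  · rw [Option.elim_none, map_inv, inv_inv]
    have h := (evGL (R := R) x).toRingHom.map_det M
    rw [hMx] at h
    exact h
  · rw [Option.elim_some, map_mul, evGL_X, Option.elim_none]
    have h := (evGL (R := R) x).toRingHom.map_adjugate M
    rw [hMx] at h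
    have h2 : evGL x (M.adjugate i j) = (x : Matrix (Fin r) (Fin r) A).adjugate i j := by
      rw [← h]
      rfl
    rw [h2, Matrix.coe_units_inv, Matrix.inv_def, Matrix.smul_apply, smul_eq_mul]
    congr 1
    exact (Ring.inverse_unit (Matrix.GeneralLinearGroup.det x)).symm

/-- The value at the image of a point. -/
theorem evGL_map {A B : Type} [CommRing A] [CommRing B] [Algebra R A] [Algebra R B] (θ : A →ₐ[R] B)
    (x : GL (Fin r) A) (f : GLPoly r R) :
    evGL (Matrix.GeneralLinearGroup.map (θ : A →+* B) x) f = θ (evGL x f) := by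
  have h : θ (evGL x f) = MvPolynomial.aeval (fun o : Option (Fin r × Fin r) =>
      θ (o.elim (((Matrix.GeneralLinearGroup.det x)⁻¹ : Aˣ) : A) (fun p ↦ x p.1 p.2))) f :=
    MvPolynomial.comp_aeval_apply _ θ f
  rw [h]
  unfold evGL
  congr 2
  funext o
  cases o with
  | none => exact det_map_inv (θ : A →+* B) x
  | some p => rfl

/-- The value of a polynomial over `R` at a point with coordinates in an algebra over an algebra. -/
theorem evGL_mapPoly {A B : Type} [CommRing A] [CommRing B] [Algebra R A] [Algebra A B] [Algebra R B]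
    [IsScalarTower R A B] (x : GL (Fin r) B) (f : GLPoly r R) :
    evGL x (MvPolynomial.map (algebraMap R A) f) = evGL x f := by
  unfold evGL
  exact MvPolynomial.aeval_map_algebraMap A _ f

end Pool.Agent.Helper79.HI
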