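import Pool.Agent.Helper79.HI.Pc
import Pool.Agent.Helper79.HG.StatEq
import Pool.Agent.Helper79.HI.Trans

/-!
# HI-18: equality of ideals over `ℤ_ℓ` and over `ℚ_ℓ`

`exists_integral_poly` (`Pool/Agent/Helper88/MT/Final.lean`) clears denominators of polynomials; `sat_descent` is the
descent of membership from `ℚ_ℓ` to `ℤ_ℓ` for ideals generated by saturated ideals over `ℤ`.
(helper79)
-/

set_option linter.unusedSectionVars false

namespace Pool.Agent.Helper79.HI

open Matrix Module Pool.Agent.Helper88.MT Pool.Agent.Helper79.HG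

private lemma sat_pc {σ F ι : Type*} [Field F] [Algebra ℚ F] (φ : F →ₗ[ℚ] ℚ) (s : Finset ι)
    (c : ι → F) (P : ι → MvPolynomial σ ℚ) :
    pc φ (∑ i ∈ s, MvPolynomial.C (c i) * MvPolynomial.map (algebraMap ℚ F) (P i)) =
      ∑ i ∈ s, MvPolynomial.C (φ (c i)) * P i := by
  classical
  refine MvPolynomial.ext _ _ fun m => ?_
  rw [coeff_pc, MvPolynomial.coeff_sum, MvPolynomial.coeff_sum, map_sum]
  refine Finset.sum_congr rfl fun i _ => ?_
  rw [MvPolynomial.coeff_C_mul, MvPolynomial.coeff_C_mul, MvPolynomial.coeff_map, mul_comm,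
    ← Algebra.smul_def, map_smul, smul_eq_mul, mul_comm]

/-- Membership in ideals generated by saturated ideals over `ℤ`. -/
private theorem sat_descent {σ R F : Type*} [CommRing R] [Field F] [CharZero F] [Algebra R F]
    (hRF : Function.Injective (algebraMap R F)) {I : Ideal (MvPolynomial σ ℤ)}
    {J : Ideal (MvPolynomial σ ℚ)}
    (hI : ∀ q : MvPolynomial σ ℤ, MvPolynomial.map (Int.castRingHom ℚ) q ∈ J → q ∈ I)
    {f : MvPolynomial σ R}
    (hf : MvPolynomial.map (algebraMap R F) f ∈ J.map (MvPolynomial.map (algebraMap ℚ F))) :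
    f ∈ I.map (MvPolynomial.map (Int.castRingHom R)) := by
  classical
  let pol : (f.support → ℤ) →ₗ[ℤ] MvPolynomial σ ℤ :=
    { toFun := fun c ↦ ∑ m : f.support, MvPolynomial.monomial m.1 (c m)
      map_add' := by
        intro c d
        simp only [Pi.add_apply, map_add, Finset.sum_add_distrib]
      map_smul' := by
        intro a c
        simp only [Pi.smul_apply, Finset.smul_sum, RingHom.id_apply, MvPolynomial.smul_monomial] }
  let mQ : MvPolynomial σ ℤ →+* MvPolynomial σ ℚ ⧸ J :=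
    (Ideal.Quotient.mk J).comp (MvPolynomial.map (Int.castRingHom ℚ))
  let ev : (f.support → ℤ) →ₗ[ℤ] (MvPolynomial σ ℚ ⧸ J) :=
    (mQ.toAddMonoidHom.toIntLinearMap).comp pol
  have hev : ∀ c, ev c = Ideal.Quotient.mk J (MvPolynomial.map (Int.castRingHom ℚ) (pol c)) :=
    fun c ↦ rfl
  let M := LinearMap.range ev
  have hfin : Module.Finite ℤ M := inferInstance
  have htf0 : Module.IsTorsionFree ℤ (MvPolynomial σ ℚ ⧸ J) := by
    have h1 : CharZero ℚ := inferInstance
    exact Module.IsTorsionFree.trans_faithfulSMul ℤ ℚ _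
  have htf : Module.IsTorsionFree ℤ M := inferInstance
  have hfree : Module.Free ℤ M := inferInstance
  let b := Module.finBasis ℤ M
  have hq : ∀ i, ∃ c : f.support → ℤ, ev c = (b i : MvPolynomial σ ℚ ⧸ J) := fun i ↦ (b i).2
  choose q hq using hq
  let a : f.support → Fin (finrank ℤ M) → ℤ := fun m i ↦
    b.repr ⟨ev (Pi.single m 1), LinearMap.mem_range_self _ _⟩ i
  have ha : ∀ m, ev (Pi.single m 1 - ∑ i, a m i • q i) = 0 := by
    intro m
    have h1 := b.sum_repr ⟨ev (Pi.single m 1), LinearMap.mem_range_self _ _⟩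
    have h2 := congrArg (Submodule.subtype M) h1
    rw [map_sum] at h2
    simp only [map_smul, Submodule.subtype_apply] at h2
    rw [map_sub, map_sum, ← h2, sub_eq_zero]
    refine Finset.sum_congr rfl fun i _ ↦ ?_
    rw [map_smul, hq]
  have hpolI : ∀ m, pol (Pi.single m 1 - ∑ i, a m i • q i) ∈ I := by
    intro m
    apply hI
    rw [← Ideal.Quotient.eq_zero_iff_mem, ← hev]
    exact ha m
  let polR : (f.support → R) →ₗ[R] MvPolynomial σ R :=
    { toFun := fun c ↦ ∑ m : f.support, MvPolynomial.monomial m.1 (c m)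
      map_add' := by
        intro c d
        simp only [Pi.add_apply, map_add, Finset.sum_add_distrib]
      map_smul' := by
        intro a c
        simp only [Pi.smul_apply, Finset.smul_sum, RingHom.id_apply, MvPolynomial.smul_monomial] }
  have hpolR : ∀ c : f.support → ℤ, MvPolynomial.map (Int.castRingHom R) (pol c) =
      polR (fun m ↦ (c m : R)) := by
    intro c
    change MvPolynomial.map (Int.castRingHom R) (∑ m : f.support, MvPolynomial.monomial m.1 (c m))
      = ∑ m : f.support, MvPolynomial.monomial m.1 ((c m : R))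
    rw [map_sum]
    refine Finset.sum_congr rfl fun m _ ↦ ?_
    rw [MvPolynomial.map_monomial]
    rfl
  have hfpol : f = polR (fun m ↦ f.coeff m.1) := by
    change f = ∑ m : f.support, MvPolynomial.monomial m.1 (f.coeff m.1)
    conv_lhs => rw [f.as_sum]
    exact (Finset.sum_coe_sort f.support fun m ↦ MvPolynomial.monomial m (f.coeff m)).symm
  let α : Fin (finrank ℤ M) → R := fun i ↦ ∑ m : f.support, f.coeff m.1 * (a m i : R)
  have hdec : f = ∑ m : f.support, MvPolynomial.C (f.coeff m.1) *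
        MvPolynomial.map (Int.castRingHom R) (pol (Pi.single m 1 - ∑ i, a m i • q i)) +
      ∑ i, MvPolynomial.C (α i) * MvPolynomial.map (Int.castRingHom R) (pol (q i)) := by
    have h1 : (fun m : f.support ↦ f.coeff m.1) = ∑ m : f.support, f.coeff m.1 •
        (fun l : f.support ↦ (((Pi.single m 1 - ∑ i, a m i • q i : f.support → ℤ) l : ℤ) : R)) +
        ∑ i, α i • (fun l : f.support ↦ ((q i l : ℤ) : R)) := by
      ext l
      simp only [Pi.add_apply, Finset.sum_apply, Pi.smul_apply, smul_eq_mul, Pi.sub_apply,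
        Int.cast_sub, Int.cast_sum, Int.cast_mul, mul_sub, Finset.sum_sub_distrib, α,
        Finset.sum_mul]
      have h2 : ∑ m : f.support, f.coeff m.1 * (((Pi.single m (1 : ℤ) : f.support → ℤ) l : ℤ) : R) =
          f.coeff l.1 := by
        rw [Finset.sum_eq_single l]
        · simp
        · intro m _ hm
          rw [Pi.single_eq_of_ne (Ne.symm hm)]
          simp
        · intro h; exact absurd (Finset.mem_univ l) h
      rw [h2]
      have h3 : ∑ m : f.support, f.coeff m.1 * ∑ i, ((a m i : R) * ((q i l : ℤ) : R)) =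
          ∑ i, ∑ m : f.support, f.coeff m.1 * (a m i : R) * ((q i l : ℤ) : R) := by
        simp_rw [Finset.mul_sum]
        rw [Finset.sum_comm]
        simp_rw [mul_assoc]
      rw [h3]
      ring
    conv_lhs => rw [hfpol, h1, map_add, map_sum, map_sum]
    congr 1
    · refine Finset.sum_congr rfl fun m _ ↦ ?_
      rw [map_smul, ← hpolR, MvPolynomial.smul_eq_C_mul]
    · refine Finset.sum_congr rfl fun i _ ↦ ?_
      rw [map_smul, ← hpolR, MvPolynomial.smul_eq_C_mul]
  -- compatibility of the maps of coefficients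
  have hmm : ∀ P : MvPolynomial σ ℤ, MvPolynomial.map (algebraMap R F)
      (MvPolynomial.map (Int.castRingHom R) P) =
      MvPolynomial.map (algebraMap ℚ F) (MvPolynomial.map (Int.castRingHom ℚ) P) := by
    intro P
    have h0 : (algebraMap R F).comp (Int.castRingHom R) =
        (algebraMap ℚ F).comp (Int.castRingHom ℚ) := RingHom.ext_int _ _
    rw [MvPolynomial.map_map, MvPolynomial.map_map, h0]
  -- the coefficients vanish
  have hα : ∀ i, algebraMap R F (α i) = 0 := by
    have h1 : MvPolynomial.map (algebraMap R F) f = ∑ m : f.support,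
        MvPolynomial.C (algebraMap R F (f.coeff m.1)) *
          MvPolynomial.map (algebraMap ℚ F) (MvPolynomial.map (Int.castRingHom ℚ)
            (pol (Pi.single m 1 - ∑ i, a m i • q i))) +
        ∑ i, MvPolynomial.C (algebraMap R F (α i)) *
          MvPolynomial.map (algebraMap ℚ F) (MvPolynomial.map (Int.castRingHom ℚ) (pol (q i))) := by
      conv_lhs => rw [hdec]
      rw [map_add, map_sum, map_sum]
      congr 1
      · refine Finset.sum_congr rfl fun m _ ↦ ?_
        rw [map_mul, MvPolynomial.map_C, hmm]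
      · refine Finset.sum_congr rfl fun i _ ↦ ?_
        rw [map_mul, MvPolynomial.map_C, hmm]
    have h2 : ∑ i, MvPolynomial.C (algebraMap R F (α i)) *
          MvPolynomial.map (algebraMap ℚ F) (MvPolynomial.map (Int.castRingHom ℚ) (pol (q i))) ∈
        J.map (MvPolynomial.map (algebraMap ℚ F)) := by
      rw [h1] at hf
      refine (Ideal.add_mem_iff_right _ ?_).1 hf
      refine Ideal.sum_mem _ fun m _ ↦ Ideal.mul_mem_left _ _ (Ideal.mem_map_of_mem _ ?_)
      rw [← Ideal.Quotient.eq_zero_iff_mem, ← hev]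
      exact ha m
    rw [mem_map_iff_pc] at h2
    have hli : LinearIndependent ℤ (fun i ↦ (b i : MvPolynomial σ ℚ ⧸ J)) :=
      b.linearIndependent.map' M.subtype (Submodule.ker_subtype M)
    have hliQ : LinearIndependent ℚ (fun i ↦ (b i : MvPolynomial σ ℚ ⧸ J)) :=
      (LinearIndependent.iff_fractionRing ℤ ℚ).mp hli
    rw [Fintype.linearIndependent_iff] at hliQ
    intro i
    refine (Module.forall_dual_apply_eq_zero_iff ℚ _).1 fun φ ↦ ?_
    refine hliQ (fun i ↦ φ (algebraMap R F (α i))) ?_ i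
    have h3 := h2 φ
    rw [sat_pc, ← Ideal.Quotient.eq_zero_iff_mem, map_sum] at h3
    rw [← h3]
    refine Finset.sum_congr rfl fun i _ ↦ ?_
    obtain ⟨x, hx⟩ := Ideal.Quotient.mk_surjective (b i : MvPolynomial σ ℚ ⧸ J)
    rw [map_mul, ← hev, hq, ← hx, ← map_mul, ← MvPolynomial.smul_eq_C_mul]
    rfl
  have hα' : ∀ i, α i = 0 := by
    intro i
    apply hRF
    rw [map_zero]
    exact hα i
  rw [hdec]
  refine Ideal.add_mem _ (Ideal.sum_mem _ fun m _ ↦ ?_) (Ideal.sum_mem _ fun i _ ↦ ?_)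
  · exact Ideal.mul_mem_left _ _ (Ideal.mem_map_of_mem _ (hpolI m))
  · rw [hα' i, map_zero, zero_mul]
    exact Ideal.zero_mem _

/-- The equality of the closures over `ℤ_ℓ` is the equality over `ℚ_ℓ`. -/
theorem map_eq_iff {r ℓ : ℕ} [Fact ℓ.Prime] (T : Set (GL (Fin r) ℂ)) (R : Set (GL (Fin r) ℤ_[ℓ])) :
    (vanGL ℤ T).map (MvPolynomial.map (Int.castRingHom ℤ_[ℓ])) = vanGL ℤ_[ℓ] R ↔
      (vanGL ℚ T).map (MvPolynomial.map (algebraMap ℚ ℚ_[ℓ])) = vanGL ℚ_[ℓ] (toQl '' R) := by
  have hmm : ∀ P : GLPoly r ℤ, MvPolynomial.map (algebraMap ℤ_[ℓ] ℚ_[ℓ])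
      (MvPolynomial.map (Int.castRingHom ℤ_[ℓ]) P) =
      MvPolynomial.map (algebraMap ℚ ℚ_[ℓ]) (MvPolynomial.map (Int.castRingHom ℚ) P) := by
    intro P
    have h0 : (algebraMap ℤ_[ℓ] ℚ_[ℓ]).comp (Int.castRingHom ℤ_[ℓ]) =
        (algebraMap ℚ ℚ_[ℓ]).comp (Int.castRingHom ℚ) := RingHom.ext_int _ _
    rw [MvPolynomial.map_map, MvPolynomial.map_map, h0]
  have hT : ∀ P : GLPoly r ℤ, MvPolynomial.map (Int.castRingHom ℚ) P ∈ vanGL ℚ T ↔
      P ∈ vanGL ℤ T := by
    intro P
    have h1 : ∀ g : GL (Fin r) ℂ, evGL g (MvPolynomial.map (Int.castRingHom ℚ) P) = evGL g P :=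
      fun g ↦ MvPolynomial.aeval_map_algebraMap (R := ℤ) ℚ (B := ℂ) _ P
    constructor
    · intro h g hg
      rw [← h1 g]
      exact h g hg
    · intro h g hg
      rw [h1 g]
      exact h g hg
  have hR : ∀ P : GLPoly r ℤ_[ℓ], MvPolynomial.map (algebraMap ℤ_[ℓ] ℚ_[ℓ]) P ∈
      vanGL ℚ_[ℓ] (toQl '' R) ↔ P ∈ vanGL ℤ_[ℓ] R := by
    intro P
    have h1 : ∀ g : GL (Fin r) ℤ_[ℓ], evGL (toQl g) (MvPolynomial.map (algebraMap ℤ_[ℓ] ℚ_[ℓ]) P) =
        algebraMap ℤ_[ℓ] ℚ_[ℓ] (evGL g P) := by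
      intro g
      have h2 : evGL (toQl g) (MvPolynomial.map (algebraMap ℤ_[ℓ] ℚ_[ℓ]) P) =
          evGL (R := ℤ_[ℓ]) (toQl g) P :=
        MvPolynomial.aeval_map_algebraMap (R := ℤ_[ℓ]) ℚ_[ℓ] (B := ℚ_[ℓ]) _ P
      rw [h2]
      exact evGL_map (Algebra.ofId ℤ_[ℓ] ℚ_[ℓ]) g P
    constructor
    · intro h g hg
      have h2 := h _ ⟨g, hg, rfl⟩
      rw [h1 g] at h2
      exact (IsFractionRing.to_map_eq_zero_iff (K := ℚ_[ℓ])).mp h2
    · rintro h _ ⟨g, hg, rfl⟩
      rw [h1 g, h g hg, map_zero]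
  have hunit : ∀ (I : Ideal (GLPoly r ℚ_[ℓ])) (c : ℚ_[ℓ]) (f : GLPoly r ℚ_[ℓ]), c ≠ 0 →
      MvPolynomial.C c * f ∈ I → f ∈ I := by
    intro I c f hc h
    have h1 := I.mul_mem_left (MvPolynomial.C c⁻¹) h
    rwa [← mul_assoc, ← MvPolynomial.C_mul, inv_mul_cancel₀ hc, MvPolynomial.C_1, one_mul] at h1
  constructor
  · intro heq
    apply le_antisymm
    · rw [Ideal.map_le_iff_le_comap]
      intro f hf
      rw [Ideal.mem_comap]
      obtain ⟨c, hc, F₀, hF₀⟩ := exists_integral_poly (R := ℤ) f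
      have h1 : F₀ ∈ vanGL ℤ T := by
        rw [← hT]
        change MvPolynomial.map (algebraMap ℤ ℚ) F₀ ∈ _
        rw [hF₀]
        exact Ideal.mul_mem_left _ _ hf
      have h2 := Ideal.mem_map_of_mem (MvPolynomial.map (Int.castRingHom ℤ_[ℓ])) h1
      rw [heq, ← hR, hmm] at h2
      change MvPolynomial.map (algebraMap ℚ ℚ_[ℓ]) (MvPolynomial.map (algebraMap ℤ ℚ) F₀) ∈ _ at h2
      rw [hF₀, map_mul, MvPolynomial.map_C] at h2
      refine hunit _ _ _ ?_ h2
      simpa using hc
    · intro f hf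
      obtain ⟨c, hc, f₀, hf₀⟩ := exists_integral_poly (R := ℤ_[ℓ]) f
      have h1 : f₀ ∈ vanGL ℤ_[ℓ] R := by
        rw [← hR, hf₀]
        exact Ideal.mul_mem_left _ _ hf
      rw [← heq] at h1
      have h2 := Ideal.mem_map_of_mem (MvPolynomial.map (algebraMap ℤ_[ℓ] ℚ_[ℓ])) h1
      rw [hf₀] at h2
      have h3 : ((vanGL ℤ T).map (MvPolynomial.map (Int.castRingHom ℤ_[ℓ]))).map
          (MvPolynomial.map (algebraMap ℤ_[ℓ] ℚ_[ℓ])) ≤
          (vanGL ℚ T).map (MvPolynomial.map (algebraMap ℚ ℚ_[ℓ])) := by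
        rw [Ideal.map_le_iff_le_comap, Ideal.map_le_iff_le_comap]
        intro P hP
        rw [Ideal.mem_comap, Ideal.mem_comap, hmm]
        exact Ideal.mem_map_of_mem _ ((hT P).2 hP)
      refine hunit _ _ _ ?_ (h3 h2)
      rw [Ne, IsFractionRing.to_map_eq_zero_iff]
      exact hc
  · intro heq
    apply le_antisymm
    · rw [Ideal.map_le_iff_le_comap]
      intro P hP
      rw [Ideal.mem_comap, ← hR, hmm, ← heq]
      exact Ideal.mem_map_of_mem _ ((hT P).2 hP)
    · intro f hf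
      refine sat_descent (F := ℚ_[ℓ]) (J := vanGL ℚ T) ?_ ?_ ?_
      · exact IsFractionRing.injective ℤ_[ℓ] ℚ_[ℓ]
      · intro P hP
        exact (hT P).1 hP
      · rw [heq, hR]
        exact hf

end Pool.Agent.Helper79.HI
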