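import Pool.Agent.Helper79.HI.PointA
import Pool.Agent.Helper79.HI.Saturate

/-!
# HI-23: the group at the base point

(helper79)
-/

set_option linter.unusedSectionVars false

namespace Pool.Agent.Helper79.HI

open Matrix Module Pool.Agent.Helper79.BB Pool.Agent.Helper79.HH Pool.Agent.Helper79.HG
  Pool.Agent.Helper64.Per Pool.Agent.Helper88.MT Pool.Agent.Helper46.GG

variable {r ℓ : ℕ} [Fact ℓ.Prime]

theorem relIndex_map_ne_zero {G G' : Type*} [Group G] [Group G'] (f : G →* G') {G₁ G₀ : Subgroup G}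
    (h : G₁.FiniteIndex) : ((G₁ ⊓ G₀).map f).relIndex (G₀.map f) ≠ 0 := by
  rw [← Subgroup.relIndex_comap]
  have h1 : (G₁ ⊓ G₀).relIndex G₀ ≠ 0 := by
    rw [Subgroup.inf_relIndex_right]
    have h2 : (G₁.subgroupOf G₀).FiniteIndex := inferInstance
    exact h2.index_ne_zero
  exact fun h3 => h1 (Nat.eq_zero_of_zero_dvd (h3 ▸
    Subgroup.relIndex_dvd_of_le_left G₀ (Subgroup.le_comap_map f (G₁ ⊓ G₀))))

theorem finiteIndex_comap {G G' : Type*} [Group G] [Group G'] (f : G →* G') {H : Subgroup G'}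
    (h : H.FiniteIndex) : (H.comap f).FiniteIndex := by
  constructor
  rw [Subgroup.index_comap]
  have h2 : (H.subgroupOf f.range).FiniteIndex := inferInstance
  exact h2.index_ne_zero

theorem coe_gal (G : Subgroup (GL (Fin r) ℤ_[ℓ])) : (gal G : Set (GL (Fin r) ℚ_[ℓ])) =
    toQl '' (G : Set (GL (Fin r) ℤ_[ℓ])) := rfl

theorem zar_le_closed {Γ : Subgroup (GL (Fin r) ℚ)} {T : Subgroup (GL (Fin r) ℂ)}
    (hT : ∀ a : GL (Fin r) ℂ, a ∈ T ↔ ∀ f ∈ vanGL ℚ (T : Set (GL (Fin r) ℂ)), evGL a f = 0)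
    (hΓ : ∀ γ ∈ Γ, Matrix.GeneralLinearGroup.map (algebraMap ℚ ℂ) γ ∈ T) {a : GL (Fin r) ℂ}
    (ha : a ∈ zar ℂ (Γ : Set (GL (Fin r) ℚ))) : a ∈ T := by
  rw [hT]
  intro f hf
  exact ha f (van_of_map hΓ hf)

/-- The data at the base point. -/
theorem exists_base {G : Type} [Group G] {lev : Fin r → ℤ} {P₀ : Matrix (Fin r) (Fin r) ℂ}
    {Γ : Subgroup (GL (Fin r) ℤ)} {ρ₀ : G →* GL (Fin r) ℤ_[ℓ]} {G₀ : Subgroup G}
    (h₀ : (IsConn (toQl '' (G₀.map ρ₀ : Set (GL (Fin r) ℤ_[ℓ]))) ∧ IsEq lev P₀ (G₀.map ρ₀)) ∨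
      ((∀ u a, IsHodgeElt lev P₀ u a → a ∈ zar ℂ (qp Γ : Set (GL (Fin r) ℚ))) ∧
        ∀ σ ∈ G₀, toQl (ρ₀ σ) ∈ zar ℚ_[ℓ] (qp Γ : Set (GL (Fin r) ℚ)))) :
    ∃ T₀ : Subgroup (GL (Fin r) ℂ),
      (∀ σ ∈ G₀, ∀ f ∈ vanGL ℚ (T₀ : Set (GL (Fin r) ℂ)), evGL (toQl (ρ₀ σ)) f = 0) ∧
      (∀ R : Subgroup (GL (Fin r) ℚ_[ℓ]), (∀ γ ∈ qp Γ,
          Matrix.GeneralLinearGroup.map (algebraMap ℚ ℚ_[ℓ]) γ ∈ zar ℚ_[ℓ] (R : Set (GL (Fin r) ℚ_[ℓ]))) →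
        ∀ G₁ : Subgroup G, G₁.FiniteIndex →
        (∀ τ ∈ G₀, τ ∈ G₁ → toQl (ρ₀ τ) ∈ zar ℚ_[ℓ] (R : Set (GL (Fin r) ℚ_[ℓ]))) →
        ∀ f ∈ vanGL ℚ_[ℓ] (R : Set (GL (Fin r) ℚ_[ℓ])), ∀ φ : ℚ_[ℓ] →ₗ[ℚ] ℚ,
          pc φ f ∈ vanGL ℚ (T₀ : Set (GL (Fin r) ℂ))) ∧
      (∀ u a, IsHodgeElt lev P₀ u a → a ∈ T₀) ∧
      ∀ T : Subgroup (GL (Fin r) ℂ),
        (∀ a : GL (Fin r) ℂ, a ∈ T ↔ ∀ f ∈ vanGL ℚ (T : Set (GL (Fin r) ℂ)), evGL a f = 0) →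
        (∀ γ ∈ qp Γ, Matrix.GeneralLinearGroup.map (algebraMap ℚ ℂ) γ ∈ T) →
        (∀ u a, IsHodgeElt lev P₀ u a → a ∈ T) → T₀ ≤ T := by
  rcases h₀ with ⟨hconn, heq⟩ | ⟨hA, hB⟩
  · refine ⟨MTat lev P₀, ?_, ?_, fun u a h => isHodgeElt_mem h, ?_⟩
    · intro σ hσ f hf
      have h1 := (map_eq_iff _ _).1 heq
      have h2 : MvPolynomial.map (algebraMap ℚ ℚ_[ℓ]) f ∈
          vanGL ℚ_[ℓ] (toQl '' (G₀.map ρ₀ : Set (GL (Fin r) ℤ_[ℓ]))) := by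
        rw [← h1]
        exact Ideal.mem_map_of_mem _ hf
      have h3 := h2 (toQl (ρ₀ σ)) ⟨ρ₀ σ, ⟨σ, hσ, rfl⟩, rfl⟩
      rwa [evGL_mapPoly] at h3
    · intro R hΓR G₁ hG₁ hG f hf φ
      have h1 := (map_eq_iff _ _).1 heq
      refine mem_map_iff_pc.1 ?_ φ
      rw [h1]
      have h2 : ∀ g ∈ gal (G₀.map ρ₀), evGL g f = 0 := by
        refine van_of_finite (Γ := gal (G₀.map ρ₀)) (Γ' := gal ((G₁ ⊓ G₀).map ρ₀)) ?_ ?_ ?_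
        · rw [coe_gal]
          exact hconn
        · rw [gal, gal, Subgroup.map_map, Subgroup.map_map]
          exact relIndex_map_ne_zero _ hG₁
        · rintro _ ⟨_, ⟨τ, hτ, rfl⟩, rfl⟩ _
          exact hG τ hτ.2 hτ.1 f hf
      intro g hg
      exact h2 g hg
    · intro T hT _ hH
      exact MTat_le ⟨_, hT⟩ hH
  · refine ⟨zarG ℂ (qp Γ), ?_, ?_, fun u a h => hA u a h, ?_⟩
    · intro σ hσ f hf
      exact hB σ hσ f (van_of_map (fun γ hγ => map_mem_zar hγ) hf)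
    · intro R hΓR G₁ hG₁ hG f hf φ
      have h1 : pc φ f ∈ vanGL ℚ (qp Γ : Set (GL (Fin r) ℚ)) := by
        intro γ hγ
        rw [← evGL_pc, hΓR γ hγ f hf, map_zero]
      intro a ha
      exact ha _ h1
    · intro T hT hΓT _ a ha
      exact zar_le_closed hT hΓT ha

end Pool.Agent.Helper79.HI
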