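import Pool.Agent.Helper79.HI.ZarGroup

/-!
# HI-04: the largest subgroup over a smaller field of the Zariski closure of a group

`k ⊆ F` fields, `K` a commutative `k`-algebra, `G` a subgroup of `GL r F`. Let `R = F ⊗[k] K` (an `F`-algebra), `θ : K →ₐ[k] R`, `θ z = 1 ⊗ z`
(`Algebra.TensorProduct.includeRight`), and `S` the comap under `GL r K → GL r R` (`Matrix.GeneralLinearGroup.map θ`) of `zarG R G`.
For `x ∈ GL r K` and `f ∈ vanGL F G`: `evGL (map θ x) f ∈ R`, and for `φ : F →ₗ[k] k`: `evGL x (pc φ f) = lid (φ.rTensor K (evGL (map θ x) f))` (`aeval_pc_tensor` with the coordinates of `x`; the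
coordinates of `map θ x` are `1 ⊗ z`, `z` a coordinate of `x`). So `→` is clear. `←`: an element `z` of `F ⊗[k] K` with
`lid (φ.rTensor K z) = 0` for all `φ : F →ₗ[k] k` is zero: let `b` be a basis of `F` over `k` (`Module.Basis.ofVectorSpace`); `Module.Basis.baseChange`-like basis of `F ⊗[k] K` over `K`
(`Algebra.TensorProduct.basis` gives it for `K ⊗[k] F`; or `TensorProduct.equivFinsuppOfBasisLeft b : F ⊗[k] K ≃ₗ[k] (ι →₀ K)`, whose
coordinate at `i` is `lid ((b.coord i).rTensor K z)`).
-/

set_option linter.unusedSectionVars false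

namespace Pool.Agent.Helper79.HI

open Matrix Pool.Agent.Helper88.MT TensorProduct

/-- An element of a tensor product all whose coordinates are zero. -/
theorem tensor_eq_zero {k F K : Type} [Field k] [Field F] [CommRing K] [Algebra k F] [Algebra k K]
    {z : F ⊗[k] K} (h : ∀ φ : F →ₗ[k] k, TensorProduct.lid k K (φ.rTensor K z) = 0) : z = 0 := by
  classical
  let b := Module.Basis.ofVectorSpace k F
  have key : ∀ (i : Module.Basis.ofVectorSpaceIndex k F) (w : F ⊗[k] K),
      TensorProduct.equivFinsuppOfBasisLeft b w i =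
        TensorProduct.lid k K ((b.coord i).rTensor K w) := by
    intro i w
    induction w with
    | zero => simp
    | tmul x y => simp
    | add x y hx hy => rw [map_add, Finsupp.add_apply, hx, hy, map_add, map_add]
  have h1 : TensorProduct.equivFinsuppOfBasisLeft (N := K) b z = 0 := by
    ext i
    rw [key i z, h]
    rfl
  exact (LinearEquiv.map_eq_zero_iff _).1 h1

private theorem ds_point {r : ℕ} {k F K : Type} [Field k] [Field F] [CommRing K] [Algebra k F]
    [Algebra k K] (x : GL (Fin r) K) (f : GLPoly r F) (φ : F →ₗ[k] k) :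
    evGL x (pc φ f) = TensorProduct.lid k K (φ.rTensor K
      (evGL (Matrix.GeneralLinearGroup.map
        (Algebra.TensorProduct.includeRight : K →ₐ[k] F ⊗[k] K).toRingHom x) f)) := by
  have h := aeval_pc_tensor φ f (fun o : Option (Fin r × Fin r) ↦
    o.elim (((Matrix.GeneralLinearGroup.det x)⁻¹ : Kˣ) : K) (fun p ↦ x p.1 p.2))
  refine h.trans ?_
  congr 2
  unfold evGL
  congr 2
  funext o
  rcases o with _ | p
  · show (1 : F) ⊗ₜ[k] (((Matrix.GeneralLinearGroup.det x)⁻¹ : Kˣ) : K) = _
    have h1 : Matrix.GeneralLinearGroup.det (Matrix.GeneralLinearGroup.map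
        (Algebra.TensorProduct.includeRight : K →ₐ[k] F ⊗[k] K).toRingHom x) =
        Units.map ((Algebra.TensorProduct.includeRight : K →ₐ[k] F ⊗[k] K).toRingHom : K →* F ⊗[k] K)
          (Matrix.GeneralLinearGroup.det x) := by
      exact Matrix.GeneralLinearGroup.map_det _ _
    show _ = (((Matrix.GeneralLinearGroup.det (Matrix.GeneralLinearGroup.map
        (Algebra.TensorProduct.includeRight : K →ₐ[k] F ⊗[k] K).toRingHom x))⁻¹ :
          (F ⊗[k] K)ˣ) : F ⊗[k] K)
    rw [h1, ← map_inv]
    rfl
  · rfl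

/-- The points over `K` of the largest closed subscheme over `k` of the Zariski closure over `F` of the group `G` are a
group. -/
theorem exists_descend {r : ℕ} {k F K : Type} [Field k] [Field F] [CommRing K] [Algebra k F]
    [Algebra k K] (G : Subgroup (GL (Fin r) F)) : ∃ S : Subgroup (GL (Fin r) K), ∀ x, x ∈ S ↔
      ∀ f ∈ vanGL F (G : Set (GL (Fin r) F)), ∀ φ : F →ₗ[k] k, evGL x (pc φ f) = 0 := by
  refine ⟨(zarG (F ⊗[k] K) G).comap (Matrix.GeneralLinearGroup.map
    (Algebra.TensorProduct.includeRight : K →ₐ[k] F ⊗[k] K).toRingHom), fun x => ?_⟩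
  rw [Subgroup.mem_comap, mem_zarG]
  constructor
  · intro h f hf φ
    rw [ds_point, h f hf, map_zero, map_zero]
  · intro h f hf
    refine tensor_eq_zero fun φ => ?_
    rw [← ds_point]
    exact h f hf φ

end Pool.Agent.Helper79.HI
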