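import Pool.Agent.Helper88.MT.Final

/-!
# HI-01: linear maps applied to the coefficients of polynomials

`pc φ f` has the coefficients `φ (coeff m f)`.

* `pc_map_mul`: linear in `q`; for `q = monomial m a` both sides have the coefficient `φ (a • coeff (j - m) f)` at `j` (use
  `MvPolynomial.ext`, `coeff_mul` : `coeff j (map q * f) = ∑ (x, y) ∈ antidiagonal j, algebraMap (coeff x q) * coeff y f`, and `φ` is `k`-linear:
  direct, no induction).
* `eval_pc`, `aeval_pc_tensor`: `MvPolynomial.eval_eq'` / `aeval_def, eval₂_eq'`: sums over the support; `φ (c * algebraMap (∏ x_i^m_i)) =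
  φ c * ∏ x_i^m_i`. The support of `pc φ f` is contained in the support of `f` (or: induction on `f` with
  `MvPolynomial.induction_on'' / induction_on'` (monomials and sums), as both sides are additive in `f`).
* `eval_eq_zero_of_pc`: let `b = Module.Basis.ofVectorSpace k R`. `f = ∑_m monomial m (c_m)`, `c_m = ∑_j b.repr c_m j • b j`; so
  `eval x f = ∑_j (aeval x (pc (b.coord j) f)) * b j`, a finite sum over `j` in the union of the supports of the `b.repr c_m`, and
  `aeval x (pc (b.coord j) f) = 0`.
* `mem_map_iff_pc`: `←` in the same way `f = ∑_j C (b j) * map (pc (b.coord j) f)` (`MvPolynomial.ext`). `→`: `Submodule.span_induction` for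
  `Ideal.map` (`Ideal.map` is the span of the image): for `map q * f`, `q ∈ I`, use `pc_map_mul`.
-/

set_option linter.unusedSectionVars false

namespace Pool.Agent.Helper79.HI

open TensorProduct

variable {σ : Type*} {k R : Type*} [CommRing k] [CommRing R] [Algebra k R]

/-- The linear map `φ` applied to the coefficients of the polynomial `f`. -/
noncomputable def pc (φ : R →ₗ[k] k) (f : MvPolynomial σ R) : MvPolynomial σ k :=
  ∑ m ∈ f.support, MvPolynomial.monomial m (φ (MvPolynomial.coeff m f))

theorem coeff_pc (φ : R →ₗ[k] k) (f : MvPolynomial σ R) (m : σ →₀ ℕ) :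
    MvPolynomial.coeff m (pc φ f) = φ (MvPolynomial.coeff m f) := by
  classical
  rw [pc, MvPolynomial.coeff_sum]
  simp only [MvPolynomial.coeff_monomial]
  rw [Finset.sum_ite_eq']
  split_ifs with h
  · rfl
  · rw [MvPolynomial.notMem_support_iff.1 h, map_zero]

theorem pc_map_mul (φ : R →ₗ[k] k) (q : MvPolynomial σ k) (f : MvPolynomial σ R) :
    pc φ (MvPolynomial.map (algebraMap k R) q * f) = q * pc φ f := by
  classical
  refine MvPolynomial.ext _ _ fun j => ?_
  rw [coeff_pc, MvPolynomial.coeff_mul, map_sum, MvPolynomial.coeff_mul]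
  refine Finset.sum_congr rfl fun ab _ => ?_
  rw [MvPolynomial.coeff_map, ← Algebra.smul_def, map_smul, smul_eq_mul, coeff_pc]

private theorem pc_add (φ : R →ₗ[k] k) (f g : MvPolynomial σ R) :
    pc φ (f + g) = pc φ f + pc φ g := by
  refine MvPolynomial.ext _ _ fun j => ?_
  rw [coeff_pc, MvPolynomial.coeff_add, map_add, MvPolynomial.coeff_add, coeff_pc, coeff_pc]

private theorem pc_zero (φ : R →ₗ[k] k) : pc φ (0 : MvPolynomial σ R) = 0 := by
  refine MvPolynomial.ext _ _ fun j => ?_
  rw [coeff_pc, MvPolynomial.coeff_zero, map_zero, MvPolynomial.coeff_zero]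

private theorem pc_sum {ι : Type*} (φ : R →ₗ[k] k) (s : Finset ι) (f : ι → MvPolynomial σ R) :
    pc φ (∑ i ∈ s, f i) = ∑ i ∈ s, pc φ (f i) := by
  classical
  induction s using Finset.induction_on with
  | empty => rw [Finset.sum_empty, Finset.sum_empty, pc_zero]
  | insert a s ha ih => rw [Finset.sum_insert ha, Finset.sum_insert ha, pc_add, ih]

private theorem pc_monomial (φ : R →ₗ[k] k) (m : σ →₀ ℕ) (a : R) :
    pc φ (MvPolynomial.monomial m a) = MvPolynomial.monomial m (φ a) := by
  classical
  refine MvPolynomial.ext _ _ fun j => ?_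
  rw [coeff_pc, MvPolynomial.coeff_monomial, MvPolynomial.coeff_monomial]
  split_ifs
  · rfl
  · exact map_zero φ

private theorem pc_C_mul (φ : R →ₗ[k] k) (c : R) (f : MvPolynomial σ R) :
    pc φ (MvPolynomial.C c * f) = pc (φ.comp (LinearMap.mulLeft k c)) f := by
  refine MvPolynomial.ext _ _ fun j => ?_
  rw [coeff_pc, MvPolynomial.coeff_C_mul, coeff_pc, LinearMap.comp_apply,
    LinearMap.mulLeft_apply]

/-- Values at points with coordinates in `k`. -/
theorem eval_pc (φ : R →ₗ[k] k) (f : MvPolynomial σ R) (x : σ → k) :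
    φ (MvPolynomial.eval (fun i => algebraMap k R (x i)) f) = MvPolynomial.eval x (pc φ f) := by
  induction f using MvPolynomial.induction_on' with
  | monomial u a =>
    rw [pc_monomial, MvPolynomial.eval_monomial, MvPolynomial.eval_monomial]
    have h : (u.prod fun i e => (algebraMap k R (x i)) ^ e) =
        algebraMap k R (u.prod fun i e => x i ^ e) := by
      rw [map_finsuppProd]
      simp only [map_pow]
    rw [h, mul_comm, ← Algebra.smul_def, map_smul, smul_eq_mul, mul_comm]
  | add p q hp hq => rw [pc_add, map_add, map_add, map_add, hp, hq]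

/-- Values at points with coordinates in another algebra. -/
theorem aeval_pc_tensor {K : Type*} [CommRing K] [Algebra k K] (φ : R →ₗ[k] k)
    (f : MvPolynomial σ R) (x : σ → K) :
    MvPolynomial.aeval x (pc φ f) = TensorProduct.lid k K
      (φ.rTensor K (MvPolynomial.aeval (fun i => (1 : R) ⊗ₜ[k] x i) f : R ⊗[k] K)) := by
  induction f using MvPolynomial.induction_on' with
  | monomial u a =>
    rw [pc_monomial, MvPolynomial.aeval_monomial, MvPolynomial.aeval_monomial]
    have h : (u.prod fun i e => ((1 : R) ⊗ₜ[k] x i : R ⊗[k] K) ^ e) =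
        (1 : R) ⊗ₜ[k] (u.prod fun i e => x i ^ e) := by
      have h1 := map_finsuppProd (Algebra.TensorProduct.includeRight : K →ₐ[k] R ⊗[k] K) u
        (fun i e => x i ^ e)
      rw [Algebra.TensorProduct.includeRight_apply] at h1
      rw [h1]
      simp only [map_pow, Algebra.TensorProduct.includeRight_apply]
    rw [h, Algebra.TensorProduct.algebraMap_apply, Algebra.TensorProduct.tmul_mul_tmul, one_mul,
      mul_one, LinearMap.rTensor_tmul, TensorProduct.lid_tmul, Algebra.smul_def]
    rfl
  | add p q hp hq => rw [pc_add, map_add, map_add, map_add, map_add, hp, hq]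

end Pool.Agent.Helper79.HI

namespace Pool.Agent.Helper79.HI

variable {σ : Type*} {k R : Type*} [Field k] [CommRing R] [Algebra k R]

private theorem pc_decomp (f : MvPolynomial σ R) :
    ∃ J : Finset (Module.Basis.ofVectorSpaceIndex k R),
      f = ∑ j ∈ J, MvPolynomial.C (Module.Basis.ofVectorSpace k R j) *
        MvPolynomial.map (algebraMap k R) (pc ((Module.Basis.ofVectorSpace k R).coord j) f) := by
  classical
  set b := Module.Basis.ofVectorSpace k R with hb
  refine ⟨f.support.biUnion fun m => (b.repr (MvPolynomial.coeff m f)).support, ?_⟩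
  refine MvPolynomial.ext _ _ fun m => ?_
  rw [MvPolynomial.coeff_sum]
  simp only [MvPolynomial.coeff_C_mul, MvPolynomial.coeff_map, coeff_pc]
  by_cases hm : m ∈ f.support
  · have h1 := b.linearCombination_repr (MvPolynomial.coeff m f)
    rw [Finsupp.linearCombination_apply, Finsupp.sum_of_support_subset _
      (Finset.subset_biUnion_of_mem (fun m => (b.repr (MvPolynomial.coeff m f)).support) hm) _
      (fun i _ => zero_smul k (b i))] at h1
    conv_lhs => rw [← h1]
    refine Finset.sum_congr rfl fun j _ => ?_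
    rw [Algebra.smul_def, mul_comm, Module.Basis.coord_apply]
  · rw [MvPolynomial.notMem_support_iff.1 hm]
    symm
    refine Finset.sum_eq_zero fun j _ => ?_
    rw [map_zero, map_zero, mul_zero]

/-- Values at points with coordinates in `R`. -/
theorem eval_eq_zero_of_pc {f : MvPolynomial σ R} {x : σ → R}
    (h : ∀ φ : R →ₗ[k] k, MvPolynomial.aeval x (pc φ f) = 0) : MvPolynomial.eval x f = 0 := by
  obtain ⟨J, hJ⟩ := pc_decomp (k := k) f
  rw [hJ, map_sum]
  refine Finset.sum_eq_zero fun j _ => ?_
  rw [map_mul, MvPolynomial.eval_map, ← MvPolynomial.aeval_def, h, mul_zero]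

/-- The ideal generated by polynomials with coefficients in `k`. -/
theorem mem_map_iff_pc {I : Ideal (MvPolynomial σ k)} {f : MvPolynomial σ R} :
    f ∈ I.map (MvPolynomial.map (algebraMap k R)) ↔ ∀ φ : R →ₗ[k] k, pc φ f ∈ I := by
  constructor
  · intro hf
    unfold Ideal.map at hf
    refine Submodule.span_induction (p := fun g _ => ∀ φ : R →ₗ[k] k, pc φ g ∈ I) ?_ ?_ ?_ ?_ hf
    · rintro _ ⟨q, hq, rfl⟩ φ
      have h1 := pc_map_mul φ q 1
      rw [mul_one] at h1
      rw [h1]
      exact I.mul_mem_right _ hq
    · intro φ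
      rw [pc_zero]
      exact I.zero_mem
    · intro g g' _ _ hg hg' φ
      rw [pc_add]
      exact I.add_mem (hg φ) (hg' φ)
    · intro a g _ hg φ
      obtain ⟨J, hJ⟩ := pc_decomp (k := k) a
      rw [smul_eq_mul, hJ, Finset.sum_mul, pc_sum]
      refine Ideal.sum_mem _ fun j _ => ?_
      rw [mul_assoc, pc_C_mul, pc_map_mul]
      exact I.mul_mem_left _ (hg _)
  · intro h
    obtain ⟨J, hJ⟩ := pc_decomp (k := k) f
    rw [hJ]
    exact Ideal.sum_mem _ fun j _ => Ideal.mul_mem_left _ _ (Ideal.mem_map_of_mem _ (h _))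

end Pool.Agent.Helper79.HI
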