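import Pool.Agent.Helper79.HI.Defs
import Pool.Agent.Helper79.HI.Pc
import Pool.Agent.Helper79.HI.Trans

/-!
# HI-03: the points of the Zariski closure of a group are a group

* `evGL_zero_of_zar`: by `eval_eq_zero_of_pc` (`evGL x f` is the value `MvPolynomial.aeval` = `MvPolynomial.eval` at the coordinates of `x`, over `R` itself) it suffices that
  `evGL x (pc φ f) = 0` for all `φ : R →ₗ[F] F`, where `pc φ f : GLPoly r F`. It vanishes on `S`: for `γ ∈ S` `evGL γ (pc φ f) = φ (evGL (map γ) f) = 0` by `eval_pc` (the coordinates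
  of `map γ` are the images of those of `γ`). So `pc φ f ∈ vanGL F S`, and `x ∈ zar R S`.
* `zarG`: `1`: `evGL 1 f = algebraMap (evGL 1 f) = 0` (`evGL_map`, `1 ∈ Γ`; or `map_mem_zar` with `map 1 = 1`). Product of `x, y ∈ zar R Γ`, `f ∈ vanGL F Γ`: let `f₂ : GLPoly r R` be
  the right translate (`exists_right y (map f)`): `evGL z f₂ = evGL (z * y) f` (`evGL_mapPoly`) for `z ∈ GL r R`. It vanishes at `map γ`, `γ ∈ Γ`: the left translate `f₁ : GLPoly r F` of `f` by `γ`
  (`exists_left γ f`) is in `vanGL F Γ` (`γ * γ' ∈ Γ`), so `evGL (map γ * y) f = evGL y f₁ = 0`. By `evGL_zero_of_zar` `evGL x f₂ = 0`.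
  Inverse: `f' ` of `exists_inv f` is in `vanGL F Γ`, so `evGL x⁻¹ f = evGL x f' = 0`.
* `zar_trans`: `f ∈ vanGL F₂ S₂` vanishes at the points `map γ`, `γ ∈ S₁`; over `F₂` use `evGL_zero_of_zar` (with `R = F₂`).
* `det_of_zar`: the polynomial `det X - 1`.
-/

set_option linter.unusedSectionVars false

namespace Pool.Agent.Helper79.HI

open Matrix Pool.Agent.Helper88.MT

variable {r : ℕ} {F : Type} [Field F] {R : Type} [CommRing R] [Algebra F R]

/-- the coordinates of a point of `GL r` -/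
private def crd {A : Type} [CommRing A] (g : GL (Fin r) A) (o : Option (Fin r × Fin r)) : A :=
  o.elim (((Matrix.GeneralLinearGroup.det g)⁻¹ : Aˣ) : A) (fun p ↦ g p.1 p.2)

private theorem zg_evGL {K A : Type} [CommRing K] [CommRing A] [Algebra K A] (g : GL (Fin r) A)
    (f : GLPoly r K) : evGL g f = MvPolynomial.aeval (crd g) f := rfl

private theorem zg_evGL_self {A : Type} [CommRing A] (g : GL (Fin r) A) (f : GLPoly r A) :
    evGL g f = MvPolynomial.eval (crd g) f := by
  rw [zg_evGL, MvPolynomial.aeval_def, Algebra.algebraMap_self, MvPolynomial.eval₂_id]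

private theorem zg_crd_map (γ : GL (Fin r) F) :
    crd (Matrix.GeneralLinearGroup.map (algebraMap F R) γ) = fun o => algebraMap F R (crd γ o) := by
  funext o
  rcases o with _ | ⟨i, j⟩
  · show (((Matrix.GeneralLinearGroup.det (Matrix.GeneralLinearGroup.map (algebraMap F R) γ))⁻¹ :
      Rˣ) : R) = algebraMap F R (((Matrix.GeneralLinearGroup.det γ)⁻¹ : Fˣ) : F)
    rw [Matrix.GeneralLinearGroup.map_det, ← map_inv]
    rfl
  · rfl

private theorem zg_map_self {A : Type} [CommRing A] (g : GL (Fin r) A) :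
    Matrix.GeneralLinearGroup.map (algebraMap A A) g = g := by
  rw [Algebra.algebraMap_self]
  exact congrFun (congrArg DFunLike.coe (Matrix.GeneralLinearGroup.map_id (n := Fin r) (R := A))) g

/-- A polynomial over `R` which vanishes on a set of points with coordinates in `F` vanishes at the points over
`R` of its Zariski closure. -/
theorem evGL_zero_of_zar {S : Set (GL (Fin r) F)} {f : GLPoly r R}
    (h : ∀ γ ∈ S, evGL (Matrix.GeneralLinearGroup.map (algebraMap F R) γ) f = 0) {x : GL (Fin r) R}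
    (hx : x ∈ zar R S) : evGL x f = 0 := by
  rw [zg_evGL_self]
  refine eval_eq_zero_of_pc (k := F) fun φ => ?_
  refine hx (pc φ f) fun γ hγ => ?_
  rw [zg_evGL_self, ← eval_pc φ f (crd γ), ← zg_crd_map, ← zg_evGL_self, h γ hγ, map_zero]

theorem map_mem_zar {S : Set (GL (Fin r) F)} {γ : GL (Fin r) F} (hγ : γ ∈ S) :
    Matrix.GeneralLinearGroup.map (algebraMap F R) γ ∈ zar R S := by
  intro f hf
  have h1 := evGL_map (Algebra.ofId F R) γ f
  rw [hf γ hγ, map_zero] at h1
  exact h1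

private theorem zg_mul {Γ : Subgroup (GL (Fin r) F)} {x y : GL (Fin r) R}
    (hx : x ∈ zar R (Γ : Set (GL (Fin r) F))) (hy : y ∈ zar R (Γ : Set (GL (Fin r) F))) :
    x * y ∈ zar R (Γ : Set (GL (Fin r) F)) := by
  intro f hf
  obtain ⟨f₂, hf₂⟩ := exists_right y (MvPolynomial.map (algebraMap F R) f)
  have h2 : ∀ z : GL (Fin r) R, evGL z f₂ = evGL (z * y) f := by
    intro z
    rw [hf₂ z, zg_map_self, evGL_mapPoly]
  rw [← h2 x]
  refine evGL_zero_of_zar (S := (Γ : Set (GL (Fin r) F))) (fun γ hγ => ?_) hx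
  rw [h2]
  obtain ⟨f₁, hf₁⟩ := exists_left γ f
  rw [← hf₁ y]
  refine hy f₁ fun γ' hγ' => ?_
  rw [hf₁ γ', zg_map_self]
  exact hf _ (Γ.mul_mem hγ hγ')

private theorem zg_inv {Γ : Subgroup (GL (Fin r) F)} {x : GL (Fin r) R}
    (hx : x ∈ zar R (Γ : Set (GL (Fin r) F))) : x⁻¹ ∈ zar R (Γ : Set (GL (Fin r) F)) := by
  intro f hf
  obtain ⟨f', hf'⟩ := exists_inv f
  rw [← hf' x]
  refine hx f' fun γ hγ => ?_
  rw [hf' γ]
  exact hf _ (Γ.inv_mem hγ)

private theorem zg_one {Γ : Subgroup (GL (Fin r) F)} : (1 : GL (Fin r) R) ∈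
    zar R (Γ : Set (GL (Fin r) F)) := by
  have h := map_mem_zar (R := R) (S := (Γ : Set (GL (Fin r) F))) Γ.one_mem
  rwa [map_one] at h

/-- The points of the Zariski closure of a group are a group. -/
def zarG (R : Type) [CommRing R] [Algebra F R] (Γ : Subgroup (GL (Fin r) F)) : Subgroup (GL (Fin r) R) where
  carrier := zar R (Γ : Set (GL (Fin r) F))
  mul_mem' := by
    exact fun hx hy => zg_mul hx hy
  one_mem' := by
    exact zg_one
  inv_mem' := by
    exact fun hx => zg_inv hx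

theorem mem_zarG {Γ : Subgroup (GL (Fin r) F)} {x : GL (Fin r) R} :
    x ∈ zarG R Γ ↔ x ∈ zar R (Γ : Set (GL (Fin r) F)) := Iff.rfl

/-- Transitivity. -/
theorem zar_trans {F₂ : Type} [Field F₂] [Algebra F F₂] {S₁ : Set (GL (Fin r) F)}
    {S₂ : Set (GL (Fin r) F₂)}
    (h : ∀ γ ∈ S₁, Matrix.GeneralLinearGroup.map (algebraMap F F₂) γ ∈ zar F₂ S₂) {x : GL (Fin r) F₂}
    (hx : x ∈ zar F₂ S₁) : x ∈ zar F₂ S₂ :=
  fun f hf => evGL_zero_of_zar (fun γ hγ => h γ hγ f hf) hx

/-- The determinant is one on the closure if it is one on the set. -/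
theorem det_of_zar {S : Set (GL (Fin r) F)}
    (h : ∀ γ ∈ S, (γ : Matrix (Fin r) (Fin r) F).det = 1) {x : GL (Fin r) R} (hx : x ∈ zar R S) :
    (x : Matrix (Fin r) (Fin r) R).det = 1 := by
  have key : ∀ {A : Type} [CommRing A] [Algebra F A] (g : GL (Fin r) A),
      evGL g ((Matrix.of fun i j : Fin r => (MvPolynomial.X (some (i, j)) : GLPoly r F)).det - 1) =
        (g : Matrix (Fin r) (Fin r) A).det - 1 := by
    intro A _ _ g
    rw [map_sub, map_one, AlgHom.map_det]
    congr 2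
    ext i j
    show evGL g (MvPolynomial.X (some (i, j)) : GLPoly r F) = g i j
    rw [zg_evGL, MvPolynomial.aeval_X]
    rfl
  have h1 := hx _ (fun γ hγ => by rw [key γ, h γ hγ, sub_self] :
    (Matrix.of fun i j : Fin r => (MvPolynomial.X (some (i, j)) : GLPoly r F)).det - 1 ∈
      vanGL F S)
  rw [key x] at h1
  exact sub_eq_zero.1 h1

end Pool.Agent.Helper79.HI
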