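import Pool.Agent.Helper79.BB.StatM

/-!
# HI-19: Galois groups of number fields

`kapM κ t z = κ ⊔ adjoin ℚ {the elements of Qbar whose values are t_i or z}` is finite-dimensional over `ℚ`: `κ` is, and the set is finite (contained in the image of `Fin m ⊕ Unit`), of algebraic elements
(`Qbar` is algebraic over `ℚ`: `Algebra.IsAlgebraic ℚ Qbar`; `IntermediateField.finiteDimensional_adjoin`, `IntermediateField.finiteDimensional_sup`). So the image of `Qbar ≃ₐ[K] Qbar` under `AlgEquiv.restrictScalarsHom ℚ` is the group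
`K.fixingSubgroup`, of finite index in `Qbar ≃ₐ[ℚ] Qbar`: it is open (`IntermediateField.fixingSubgroup_isOpen`) and the group is compact (`Qbar` over `ℚ` is normal, algebraic: Krull topology, `InfiniteGalois` / `krullTopology` compact; `Subgroup.finiteIndex_of_...`), or directly: the
cosets embed into `K →ₐ[ℚ] Qbar`, which is finite (`σ ↦ σ` restricted to `K`, `Finite (K →ₐ[ℚ] Qbar)`). A subgroup `G` of finite index has an image of finite index in this group: index of `G.map f` = index of `G` (injective `f`, up to the image of `⊤`) times index of `f.range`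
(`Subgroup.index_map`, `Subgroup.relIndex_mul_index`).
-/

set_option linter.unusedSectionVars false

namespace Pool.Agent.Helper79.HI

open Pool.Agent.Helper79.BB Pool.Agent.Helper64.Per

private theorem fd_kapM {κ : IntermediateField ℚ Qbar} [FiniteDimensional ℚ κ] {m : ℕ}
    (t : Fin m → ℂ) (z : ℂ) : FiniteDimensional ℚ (kapM κ t z) := by
  have hfin : Finite ({u : Qbar | (∃ i, (u : ℂ) = t i) ∨ (u : ℂ) = z} : Set Qbar) := by
    rw [Set.finite_coe_iff]
    have h1 : (Set.range t ∪ {z} : Set ℂ).Finite := (Set.finite_range t).union (Set.finite_singleton z)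
    refine (h1.preimage (f := fun u : Qbar => (u : ℂ)) Subtype.val_injective.injOn).subset ?_
    rintro u (⟨i, hi⟩ | hu)
    · exact Or.inl ⟨i, hi.symm⟩
    · exact Or.inr hu
  have halg : Algebra.IsAlgebraic ℚ Qbar := (algebraicClosure.isAlgClosure ℚ ℂ).isAlgebraic
  have hint : ∀ u ∈ ({u : Qbar | (∃ i, (u : ℂ) = t i) ∨ (u : ℂ) = z} : Set Qbar),
      IsIntegral ℚ u := fun u _ => (Algebra.IsAlgebraic.isAlgebraic (R := ℚ) u).isIntegral
  have h2 : FiniteDimensional ℚ
      (IntermediateField.adjoin ℚ {u : Qbar | (∃ i, (u : ℂ) = t i) ∨ (u : ℂ) = z}) :=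
    IntermediateField.finiteDimensional_adjoin hint
  unfold kapM
  exact IntermediateField.finiteDimensional_sup _ _

private theorem fi_range (K : IntermediateField ℚ Qbar) [FiniteDimensional ℚ K] :
    ((AlgEquiv.restrictScalarsHom ℚ : (Qbar ≃ₐ[K] Qbar) →* (Qbar ≃ₐ[ℚ] Qbar)).range).FiniteIndex := by
  set R := (AlgEquiv.restrictScalarsHom ℚ : (Qbar ≃ₐ[K] Qbar) →* (Qbar ≃ₐ[ℚ] Qbar)).range with hR
  let φ : (Qbar ≃ₐ[ℚ] Qbar) → (K →ₐ[ℚ] Qbar) := fun σ => (σ : Qbar →ₐ[ℚ] Qbar).comp K.val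
  have hφ : ∀ σ τ, φ σ = φ τ → σ⁻¹ * τ ∈ R := by
    intro σ τ h
    have h1 : ∀ x : K, σ (x : Qbar) = τ (x : Qbar) := fun x => DFunLike.congr_fun h x
    have h2 : ∀ x : K, (σ⁻¹ * τ) (x : Qbar) = (x : Qbar) := by
      intro x
      rw [AlgEquiv.mul_apply, ← h1 x]
      exact σ.symm_apply_apply _
    refine ⟨AlgEquiv.ofRingEquiv (f := ((σ⁻¹ * τ : Qbar ≃ₐ[ℚ] Qbar) : Qbar ≃+* Qbar)) (fun x => h2 x), ?_⟩
    ext u
    rfl
  have : Finite (K →ₐ[ℚ] Qbar) := inferInstance
  have hinj : Function.Injective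
      (fun c : (Qbar ≃ₐ[ℚ] Qbar) ⧸ R => φ c.out) := by
    intro c d h
    have h1 := hφ _ _ h
    rw [← QuotientGroup.out_eq' c, ← QuotientGroup.out_eq' d]
    exact QuotientGroup.eq.2 h1
  have hfin : Finite ((Qbar ≃ₐ[ℚ] Qbar) ⧸ R) := Finite.of_injective _ hinj
  exact Subgroup.finiteIndex_of_finite_quotient

theorem finiteIndex_map {κ : IntermediateField ℚ Qbar} [FiniteDimensional ℚ κ] {m : ℕ}
    {t : Fin m → ℂ} {z : ℂ} {G : Subgroup (Qbar ≃ₐ[kapM κ t z] Qbar)} (hG : G.FiniteIndex) :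
    (G.map (AlgEquiv.restrictScalarsHom ℚ)).FiniteIndex := by
  have h1 : FiniteDimensional ℚ (kapM κ t z) := fd_kapM t z
  have h2 := fi_range (kapM κ t z)
  refine ⟨?_⟩
  rw [Subgroup.index_map]
  refine mul_ne_zero ?_ h2.index_ne_zero
  have h3 : (G ⊔ (AlgEquiv.restrictScalarsHom ℚ :
      (Qbar ≃ₐ[kapM κ t z] Qbar) →* (Qbar ≃ₐ[ℚ] Qbar)).ker).FiniteIndex :=
    Subgroup.finiteIndex_of_le le_sup_left
  exact h3.index_ne_zero

end Pool.Agent.Helper79.HI
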