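import Pool.Agent.Helper79.HI.PInv

/-!
# HI-12: Lie algebras close to a perfect ideal contain it

`l = (ℓ : ℤ_[ℓ])`, `Λ = {co e : e integral}`, `m_i` integral matrices which span `𝔪`, `[x, y] = x * y - y * x`.

* `exists_coord_bound`: there is `c : ℕ` such that every `x ∈ 𝔪` of the form `co e` is `∑ i, s_i • co (m i)` with `ℓ^c • s_i` integral (`∃ s' : Fin d → ℤ_[ℓ]`, `ℓ^c • x = ∑ (s' i : ℚ_[ℓ]) • co (m i)`): the linear map `(Fin d → ℚ_ℓ) → 𝔪`, `s ↦ ∑ s_i m_i`, is onto and has a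
  linear section, which extends to a linear map `T` from all matrices (`LinearMap.exists_rightInverse_of_surjective`, `LinearMap.exists_extend`), and `T (co e) = ∑ e_ij T(E_ij)` with `‖e_ij‖ ≤ 1`, so `‖T (co e) q‖ ≤ max ‖T(E_ij) q‖ ≤ ℓ^c`.
* `exists_approx`. By `hperf` with `W` the span of the brackets `[co (m i), co (m j)]` (for `x, y ∈ 𝔪` the bracket is in this span by bilinearity) each `co (m k)` is a
  combination `∑ a_(k,i,j) [m_i, m_j]`, and there is `c'` with `ℓ^(c') a_(k,i,j)` integral for all `k, i, j`. Let `K₀ = c + c' + 1`, `K ≥ K₀`. Replace nothing: `𝔥` is contained in the normaliser of `𝔪` (`hnorm`).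
  Q(n): for all `i` there are `h_i ∈ 𝔥` and an integral `e_i` with `co (m i) = h_i + ℓ^n • co e_i`. Q(K): from `happ` (`m_i = (m_i + ℓ^K e) - ℓ^K e`). Q(n) ⇒ Q(n + 1) for `n ≥ K`: `[m_i, m_j] = [h_i, h_j] + ℓ^n ([e_i, m_j] + [m_i, e_j]) - ℓ^(2n) [e_i, e_j]` (expand with `h_i = m_i - ℓ^n e_i`), with
  `[h_i, h_j] ∈ 𝔥`, and `ℓ^n [e_i, m_j] = [m_i, m_j] - [h_i, m_j] ∈ 𝔪` (`𝔪` is a Lie algebra: `hlie`, and `hnorm`), so `[e_i, m_j]` is integral and in `𝔪`: `ℓ^c [e_i, m_j] = ∑ s'_q m_q`, `s'_q` integral, so with `m_q = h_q + ℓ^n e_q`: `ℓ^n [e_i, m_j] ∈ 𝔥 + ℓ^(2n-c) Λ`.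
  So `[m_i, m_j] ∈ 𝔥 + ℓ^(2n-c) Λ`, `m_k ∈ 𝔥 + ℓ^(2n-c-c') Λ` and `2n - c - c' ≥ n + 1`. Hence `co (m i) ∈ 𝔥 + ℓ^n Λ` for all `n`, so `co (m i) ∈ 𝔥` (`mem_of_approx`), and `𝔪 ≤ 𝔥`.
-/

set_option linter.unusedSectionVars false

namespace Pool.Agent.Helper79.HI

open Matrix Pool.Agent.Helper88.MT Pool.Agent.Helper46.GG

variable {r ℓ : ℕ} [Fact ℓ.Prime]

private theorem co_add' (x y : Matrix (Fin r) (Fin r) ℤ_[ℓ]) : co (x + y) = co x + co y := by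
  ext i j
  simp [co]

private theorem co_smul' (s : ℤ_[ℓ]) (x : Matrix (Fin r) (Fin r) ℤ_[ℓ]) :
    co (s • x) = (s : ℚ_[ℓ]) • co x := by
  ext i j
  simp [co]

private theorem co_neg' (x : Matrix (Fin r) (Fin r) ℤ_[ℓ]) : co (-x) = -co x := by
  ext i j
  simp [co]

private theorem co_sub' (x y : Matrix (Fin r) (Fin r) ℤ_[ℓ]) : co (x - y) = co x - co y := by
  ext i j
  simp [co]

private theorem co_zero' : co (0 : Matrix (Fin r) (Fin r) ℤ_[ℓ]) = 0 := by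
  ext i j
  simp [co]

private theorem co_pow_smul (K : ℕ) (x : Matrix (Fin r) (Fin r) ℤ_[ℓ]) :
    co ((ℓ : ℤ_[ℓ]) ^ K • x) = (ℓ : ℚ_[ℓ]) ^ K • co x := by
  rw [co_smul']
  congr 1

private theorem ell_ne : (ℓ : ℚ_[ℓ]) ≠ 0 := by
  have h1 : ℓ ≠ 0 := (Fact.out : ℓ.Prime).ne_zero
  exact_mod_cast h1

private theorem norm_pow_le_one (c : ℕ) : ‖(ℓ : ℚ_[ℓ]) ^ c‖ ≤ 1 := by
  rw [norm_pow]
  exact pow_le_one₀ (norm_nonneg _) Padic.norm_p_lt_one.le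

/-- finitely many `ℓ`-adic numbers have a common denominator -/
private theorem exists_scale {ι : Type*} [Fintype ι] (x : ι → ℚ_[ℓ]) :
    ∃ c : ℕ, ∀ i, ‖(ℓ : ℚ_[ℓ]) ^ c * x i‖ ≤ 1 := by
  have h1 : ∀ i, ∃ c : ℕ, ‖(ℓ : ℚ_[ℓ]) ^ c * x i‖ ≤ 1 := by
    intro i
    have hlt : ‖(ℓ : ℚ_[ℓ])‖ < 1 := Padic.norm_p_lt_one
    have ht : Filter.Tendsto (fun c : ℕ => ‖(ℓ : ℚ_[ℓ])‖ ^ c * ‖x i‖) Filter.atTop
        (nhds (0 * ‖x i‖)) :=
      (tendsto_pow_atTop_nhds_zero_of_lt_one (norm_nonneg _) hlt).mul_const _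
    rw [zero_mul] at ht
    obtain ⟨c, hc⟩ := (ht.eventually (ge_mem_nhds (zero_lt_one' ℝ))).exists
    exact ⟨c, by rw [norm_mul, norm_pow]; exact hc⟩
  choose c hc using h1
  refine ⟨∑ i, c i, fun i => ?_⟩
  obtain ⟨b, hb⟩ := Nat.exists_eq_add_of_le
    (Finset.single_le_sum (f := c) (fun j _ => Nat.zero_le _) (Finset.mem_univ i))
  rw [hb, add_comm, pow_add, mul_assoc, norm_mul]
  calc ‖(ℓ : ℚ_[ℓ]) ^ b‖ * ‖(ℓ : ℚ_[ℓ]) ^ c i * x i‖ ≤ 1 * 1 :=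
        mul_le_mul (norm_pow_le_one b) (hc i) (norm_nonneg _) zero_le_one
    _ = 1 := one_mul 1

/-- `x ∈ 𝔥 + ℓ^N Λ` -/
private def AA (𝔥 : Submodule ℚ_[ℓ] (Matrix (Fin r) (Fin r) ℚ_[ℓ])) (N : ℕ)
    (x : Matrix (Fin r) (Fin r) ℚ_[ℓ]) : Prop :=
  ∃ w ∈ 𝔥, ∃ e : Matrix (Fin r) (Fin r) ℤ_[ℓ], x = w + (ℓ : ℚ_[ℓ]) ^ N • co e

private theorem AA.of_mem {𝔥 : Submodule ℚ_[ℓ] (Matrix (Fin r) (Fin r) ℚ_[ℓ])} {N : ℕ}
    {x : Matrix (Fin r) (Fin r) ℚ_[ℓ]} (hx : x ∈ 𝔥) : AA 𝔥 N x :=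
  ⟨x, hx, 0, by rw [co_zero', smul_zero, add_zero]⟩

private theorem AA.of_int {𝔥 : Submodule ℚ_[ℓ] (Matrix (Fin r) (Fin r) ℚ_[ℓ])} {N : ℕ}
    (e : Matrix (Fin r) (Fin r) ℤ_[ℓ]) : AA 𝔥 N ((ℓ : ℚ_[ℓ]) ^ N • co e) :=
  ⟨0, 𝔥.zero_mem, e, by rw [zero_add]⟩

private theorem AA.add {𝔥 : Submodule ℚ_[ℓ] (Matrix (Fin r) (Fin r) ℚ_[ℓ])} {N : ℕ}
    {x y : Matrix (Fin r) (Fin r) ℚ_[ℓ]} (hx : AA 𝔥 N x) (hy : AA 𝔥 N y) : AA 𝔥 N (x + y) := by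
  obtain ⟨w, hw, e, rfl⟩ := hx
  obtain ⟨w', hw', e', rfl⟩ := hy
  refine ⟨w + w', 𝔥.add_mem hw hw', e + e', ?_⟩
  rw [co_add', smul_add]
  abel

private theorem AA.smul {𝔥 : Submodule ℚ_[ℓ] (Matrix (Fin r) (Fin r) ℚ_[ℓ])} {N : ℕ}
    {x : Matrix (Fin r) (Fin r) ℚ_[ℓ]} (s : ℤ_[ℓ]) (hx : AA 𝔥 N x) :
    AA 𝔥 N ((s : ℚ_[ℓ]) • x) := by
  obtain ⟨w, hw, e, rfl⟩ := hx
  refine ⟨(s : ℚ_[ℓ]) • w, 𝔥.smul_mem _ hw, s • e, ?_⟩
  rw [co_smul', smul_add, smul_comm]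

private theorem AA.neg {𝔥 : Submodule ℚ_[ℓ] (Matrix (Fin r) (Fin r) ℚ_[ℓ])} {N : ℕ}
    {x : Matrix (Fin r) (Fin r) ℚ_[ℓ]} (hx : AA 𝔥 N x) : AA 𝔥 N (-x) := by
  obtain ⟨w, hw, e, rfl⟩ := hx
  refine ⟨-w, 𝔥.neg_mem hw, -e, ?_⟩
  rw [co_neg', smul_neg, neg_add]

private theorem AA.sum {𝔥 : Submodule ℚ_[ℓ] (Matrix (Fin r) (Fin r) ℚ_[ℓ])} {N : ℕ}
    {ι : Type*} (s : Finset ι) {x : ι → Matrix (Fin r) (Fin r) ℚ_[ℓ]}
    (hx : ∀ i ∈ s, AA 𝔥 N (x i)) : AA 𝔥 N (∑ i ∈ s, x i) := by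
  classical
  induction s using Finset.induction_on with
  | empty => rw [Finset.sum_empty]; exact AA.of_mem 𝔥.zero_mem
  | insert a s ha ih =>
    rw [Finset.sum_insert ha]
    exact (hx a (Finset.mem_insert_self a s)).add
      (ih fun i hi => hx i (Finset.mem_insert_of_mem hi))

private theorem AA.mono {𝔥 : Submodule ℚ_[ℓ] (Matrix (Fin r) (Fin r) ℚ_[ℓ])} {N N' : ℕ}
    (h : N' ≤ N) {x : Matrix (Fin r) (Fin r) ℚ_[ℓ]} (hx : AA 𝔥 N x) : AA 𝔥 N' x := by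
  obtain ⟨w, hw, e, rfl⟩ := hx
  obtain ⟨b, rfl⟩ := Nat.exists_eq_add_of_le h
  refine ⟨w, hw, (ℓ : ℤ_[ℓ]) ^ b • e, ?_⟩
  rw [co_pow_smul, smul_smul, ← pow_add]

private theorem AA.mul_pow {𝔥 : Submodule ℚ_[ℓ] (Matrix (Fin r) (Fin r) ℚ_[ℓ])} {N : ℕ}
    (a : ℕ) {x : Matrix (Fin r) (Fin r) ℚ_[ℓ]} (hx : AA 𝔥 N x) :
    AA 𝔥 (N + a) ((ℓ : ℚ_[ℓ]) ^ a • x) := by
  obtain ⟨w, hw, e, rfl⟩ := hx
  refine ⟨(ℓ : ℚ_[ℓ]) ^ a • w, 𝔥.smul_mem _ hw, e, ?_⟩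
  rw [smul_add, smul_smul, ← pow_add, add_comm a N]

private theorem AA.div_pow {𝔥 : Submodule ℚ_[ℓ] (Matrix (Fin r) (Fin r) ℚ_[ℓ])} {N a : ℕ}
    {x : Matrix (Fin r) (Fin r) ℚ_[ℓ]} (hx : AA 𝔥 (N + a) ((ℓ : ℚ_[ℓ]) ^ a • x)) :
    AA 𝔥 N x := by
  obtain ⟨w, hw, e, he⟩ := hx
  have h0 : (ℓ : ℚ_[ℓ]) ^ a ≠ 0 := pow_ne_zero _ ell_ne
  refine ⟨((ℓ : ℚ_[ℓ]) ^ a)⁻¹ • w, 𝔥.smul_mem _ hw, e, ?_⟩
  have h1 : x = ((ℓ : ℚ_[ℓ]) ^ a)⁻¹ • ((ℓ : ℚ_[ℓ]) ^ a • x) := by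
    rw [smul_smul, inv_mul_cancel₀ h0, one_smul]
  rw [h1, he, smul_add, smul_smul ((ℓ : ℚ_[ℓ]) ^ a)⁻¹ ((ℓ : ℚ_[ℓ]) ^ (N + a))]
  congr 2
  rw [add_comm, pow_add, ← mul_assoc, inv_mul_cancel₀ h0, one_mul]

/-- the bracket of integral matrices -/
private theorem co_bracket (x y : Matrix (Fin r) (Fin r) ℤ_[ℓ]) :
    co (x * y - y * x) = co x * co y - co y * co x := by
  rw [co_sub', co_mul, co_mul]

/-- the brackets of generators span all the brackets -/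
private theorem bracket_span {d : ℕ} (v : Fin d → Matrix (Fin r) (Fin r) ℚ_[ℓ])
    {x y : Matrix (Fin r) (Fin r) ℚ_[ℓ]} (hx : x ∈ Submodule.span ℚ_[ℓ] (Set.range v))
    (hy : y ∈ Submodule.span ℚ_[ℓ] (Set.range v)) :
    x * y - y * x ∈ Submodule.span ℚ_[ℓ]
      (Set.range fun p : Fin d × Fin d => v p.1 * v p.2 - v p.2 * v p.1) := by
  have h1 : ∀ i, v i * y - y * v i ∈ Submodule.span ℚ_[ℓ]
      (Set.range fun p : Fin d × Fin d => v p.1 * v p.2 - v p.2 * v p.1) := by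
    intro i
    induction hy using Submodule.span_induction with
    | mem z hz =>
      obtain ⟨j, rfl⟩ := hz
      exact Submodule.subset_span ⟨(i, j), rfl⟩
    | zero => rw [mul_zero, zero_mul, sub_zero]; exact Submodule.zero_mem _
    | add z z' _ _ h h' =>
      have e : v i * (z + z') - (z + z') * v i =
          (v i * z - z * v i) + (v i * z' - z' * v i) := by
        rw [mul_add, add_mul]; abel
      rw [e]
      exact Submodule.add_mem _ h h'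
    | smul a z _ h =>
      have e : v i * (a • z) - (a • z) * v i = a • (v i * z - z * v i) := by
        rw [Matrix.mul_smul, Matrix.smul_mul, smul_sub]
      rw [e]
      exact Submodule.smul_mem _ _ h
  induction hx using Submodule.span_induction with
  | mem z hz =>
    obtain ⟨j, rfl⟩ := hz
    exact h1 j
  | zero => rw [mul_zero, zero_mul, sub_zero]; exact Submodule.zero_mem _
  | add z z' _ _ h h' =>
    have e : (z + z') * y - y * (z + z') = (z * y - y * z) + (z' * y - y * z') := by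
      rw [mul_add, add_mul]; abel
    rw [e]
    exact Submodule.add_mem _ h h'
  | smul a z _ h =>
    have e : (a • z) * y - y * (a • z) = a • (z * y - y * z) := by
      rw [Matrix.mul_smul, Matrix.smul_mul, smul_sub]
    rw [e]
    exact Submodule.smul_mem _ _ h

theorem exists_coord_bound {d : ℕ} (m : Fin d → Matrix (Fin r) (Fin r) ℤ_[ℓ]) :
    ∃ c : ℕ, ∀ e : Matrix (Fin r) (Fin r) ℤ_[ℓ],
      co e ∈ Submodule.span ℚ_[ℓ] (Set.range fun i => co (m i)) →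
      ∃ s : Fin d → ℤ_[ℓ], (ℓ : ℚ_[ℓ]) ^ c • co e = ∑ i, (s i : ℚ_[ℓ]) • co (m i) := by
  set f : (Fin d → ℚ_[ℓ]) →ₗ[ℚ_[ℓ]] Matrix (Fin r) (Fin r) ℚ_[ℓ] :=
    Fintype.linearCombination ℚ_[ℓ] (fun i => co (m i)) with hf
  have hfa : ∀ s, f s = ∑ i, s i • co (m i) := fun s => by
    rw [hf, Fintype.linearCombination_apply]
  obtain ⟨g, hg⟩ := f.rangeRestrict.exists_rightInverse_of_surjective f.range_rangeRestrict
  obtain ⟨T, hT⟩ := LinearMap.exists_extend g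
  have hfT : ∀ x ∈ LinearMap.range f, f (T x) = x := by
    intro x hx
    have h1 : T x = g ⟨x, hx⟩ := by
      rw [← hT]; rfl
    have h2 : f.rangeRestrict (g ⟨x, hx⟩) = ⟨x, hx⟩ := LinearMap.congr_fun hg ⟨x, hx⟩
    rw [h1]
    exact congrArg Subtype.val h2
  obtain ⟨c, hc⟩ := exists_scale (fun p : (Fin r × Fin r) × Fin d =>
    T (Matrix.single p.1.1 p.1.2 (1 : ℚ_[ℓ])) p.2)
  refine ⟨c, fun e he => ?_⟩
  have hrange : co e ∈ LinearMap.range f := by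
    rw [hf, Fintype.range_linearCombination]
    exact he
  have hint : ∀ q, (ℓ : ℚ_[ℓ]) ^ c * T (co e) q ∈ PadicInt.subring ℓ := by
    intro q
    have h1 : co e = ∑ i, ∑ j, (e i j : ℚ_[ℓ]) • Matrix.single i j (1 : ℚ_[ℓ]) := by
      conv_lhs => rw [Matrix.matrix_eq_sum_single (co e)]
      simp [co]
    rw [h1, map_sum, Finset.sum_apply, Finset.mul_sum]
    refine Subring.sum_mem _ fun i _ => ?_
    rw [map_sum, Finset.sum_apply, Finset.mul_sum]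
    refine Subring.sum_mem _ fun j _ => ?_
    rw [map_smul, Pi.smul_apply, smul_eq_mul, mul_left_comm]
    refine Subring.mul_mem _ (e i j).2 ?_
    exact hc ((i, j), q)
  refine ⟨fun q => ⟨_, hint q⟩, ?_⟩
  calc (ℓ : ℚ_[ℓ]) ^ c • co e = (ℓ : ℚ_[ℓ]) ^ c • f (T (co e)) := by rw [hfT _ hrange]
    _ = ∑ i, ((ℓ : ℚ_[ℓ]) ^ c * T (co e) i) • co (m i) := by
      rw [hfa, Finset.smul_sum]
      refine Finset.sum_congr rfl fun i _ => ?_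
      rw [smul_smul]

theorem exists_approx {𝔪 : Submodule ℚ_[ℓ] (Matrix (Fin r) (Fin r) ℚ_[ℓ])} {d : ℕ}
    (m : Fin d → Matrix (Fin r) (Fin r) ℤ_[ℓ])
    (hm : 𝔪 = Submodule.span ℚ_[ℓ] (Set.range fun i => co (m i)))
    (hlie : ∀ x ∈ 𝔪, ∀ y ∈ 𝔪, x * y - y * x ∈ 𝔪)
    (hperf : ∀ W : Submodule ℚ_[ℓ] (Matrix (Fin r) (Fin r) ℚ_[ℓ]),
      (∀ x ∈ 𝔪, ∀ y ∈ 𝔪, x * y - y * x ∈ W) → 𝔪 ≤ W) :
    ∃ K₀ : ℕ, ∀ K, K₀ ≤ K → ∀ 𝔥 : Submodule ℚ_[ℓ] (Matrix (Fin r) (Fin r) ℚ_[ℓ]),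
      (∀ x ∈ 𝔥, ∀ y ∈ 𝔥, x * y - y * x ∈ 𝔥) → (∀ x ∈ 𝔥, ∀ y ∈ 𝔪, x * y - y * x ∈ 𝔪) →
      (∀ i, ∃ e : Matrix (Fin r) (Fin r) ℤ_[ℓ], co (m i + (ℓ : ℤ_[ℓ]) ^ K • e) ∈ 𝔥) → 𝔪 ≤ 𝔥 := by
  obtain ⟨c, hc⟩ := exists_coord_bound m
  have hmem : ∀ i, co (m i) ∈ 𝔪 := fun i => by
    rw [hm]; exact Submodule.subset_span ⟨i, rfl⟩
  have hspan := hperf (Submodule.span ℚ_[ℓ] (Set.range fun p : Fin d × Fin d =>
    co (m p.1) * co (m p.2) - co (m p.2) * co (m p.1))) (fun x hx y hy => by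
      rw [hm] at hx hy
      exact bracket_span (fun i => co (m i)) hx hy)
  have hcoef : ∀ k, ∃ a : Fin d × Fin d → ℚ_[ℓ],
      ∑ p, a p • (co (m p.1) * co (m p.2) - co (m p.2) * co (m p.1)) = co (m k) := fun k =>
    (Submodule.mem_span_range_iff_exists_fun ℚ_[ℓ]).1 (hspan (hmem k))
  choose a ha using hcoef
  obtain ⟨c', hc'⟩ := exists_scale (fun p : Fin d × (Fin d × Fin d) => a p.1 p.2)
  refine ⟨c + c' + 1, fun K hK 𝔥 h1 h2 h3 => ?_⟩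
  have key : ∀ t, ∀ i, AA 𝔥 (K + t) (co (m i)) := by
    intro t
    induction t with
    | zero =>
      intro i
      obtain ⟨e, he⟩ := h3 i
      refine ⟨_, he, -e, ?_⟩
      rw [co_add', co_pow_smul, co_neg', smul_neg, Nat.add_zero]
      abel
    | succ t ih =>
      obtain ⟨n, hn⟩ : ∃ n, n = K + t := ⟨_, rfl⟩
      rw [← hn] at ih
      have hcn : c ≤ n := by omega
      choose h hh e he using ih
      -- the brackets with the generators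
      have hB : ∀ i j, AA 𝔥 (n + (n - c)) ((ℓ : ℚ_[ℓ]) ^ n • co (e i * m j - m j * e i)) := by
        intro i j
        have h4 : co (e i * m j - m j * e i) ∈ 𝔪 := by
          have h5 : (ℓ : ℚ_[ℓ]) ^ n • co (e i * m j - m j * e i) ∈ 𝔪 := by
            have h6 := 𝔪.sub_mem (hlie _ (hmem i) _ (hmem j)) (h2 _ (hh i) _ (hmem j))
            have h7 : (co (m i) * co (m j) - co (m j) * co (m i)) -
                (h i * co (m j) - co (m j) * h i) =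
                (ℓ : ℚ_[ℓ]) ^ n • co (e i * m j - m j * e i) := by
              have h8 : h i = co (m i) - (ℓ : ℚ_[ℓ]) ^ n • co (e i) := by
                rw [he i]; abel
              rw [h8, co_bracket, sub_mul, mul_sub, Matrix.smul_mul, Matrix.mul_smul, smul_sub]
              abel
            rw [h7] at h6
            exact h6
          have h0 : (ℓ : ℚ_[ℓ]) ^ n ≠ 0 := pow_ne_zero _ ell_ne
          have h9 := 𝔪.smul_mem (((ℓ : ℚ_[ℓ]) ^ n)⁻¹) h5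
          rwa [smul_smul, inv_mul_cancel₀ h0, one_smul] at h9
        rw [hm] at h4
        obtain ⟨s, hs⟩ := hc _ h4
        have h5 : AA 𝔥 n ((ℓ : ℚ_[ℓ]) ^ c • co (e i * m j - m j * e i)) := by
          rw [hs]
          refine AA.sum _ fun q _ => AA.smul (s q) ?_
          exact ⟨h q, hh q, e q, he q⟩
        have h6 := h5.mul_pow (n - c)
        rw [smul_smul, ← pow_add, Nat.sub_add_cancel hcn] at h6
        exact h6
      have hC : ∀ i j, AA 𝔥 (n + (n - c)) (co (m i) * co (m j) - co (m j) * co (m i)) := by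
        intro i j
        have h4 : co (m i) * co (m j) - co (m j) * co (m i) =
            (h i * h j - h j * h i) + (ℓ : ℚ_[ℓ]) ^ n • co (e i * m j - m j * e i) +
            (-((ℓ : ℚ_[ℓ]) ^ n • co (e j * m i - m i * e j))) +
            (-((ℓ : ℚ_[ℓ]) ^ (n + n) • co (e i * e j - e j * e i))) := by
          have h8 : ∀ i, h i = co (m i) - (ℓ : ℚ_[ℓ]) ^ n • co (e i) := fun i => by
            rw [he i]; abel
          rw [h8 i, h8 j, co_bracket, co_bracket, co_bracket, pow_add]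
          simp only [sub_mul, mul_sub, Matrix.smul_mul, Matrix.mul_smul, smul_sub, smul_smul]
          abel
        rw [h4]
        have h5 : AA 𝔥 (n + (n - c)) ((ℓ : ℚ_[ℓ]) ^ (n + n) • co (e i * e j - e j * e i)) :=
          (AA.of_int (𝔥 := 𝔥) (N := n + n) (e i * e j - e j * e i)).mono (by omega)
        exact (((AA.of_mem (h1 _ (hh i) _ (hh j))).add (hB i j)).add (hB j i).neg).add h5.neg
      intro k
      have h4 : AA 𝔥 (n + (n - c)) ((ℓ : ℚ_[ℓ]) ^ c' • co (m k)) := by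
        rw [← ha k, Finset.smul_sum]
        refine AA.sum _ fun p _ => ?_
        rw [smul_smul]
        exact AA.smul ⟨(ℓ : ℚ_[ℓ]) ^ c' * a k p, hc' (k, p)⟩ (hC p.1 p.2)
      have h5 : AA 𝔥 ((n + 1) + c') ((ℓ : ℚ_[ℓ]) ^ c' • co (m k)) := h4.mono (by omega)
      have h6 := h5.div_pow
      rwa [hn, Nat.add_assoc] at h6
  rw [hm, Submodule.span_le]
  rintro _ ⟨i, rfl⟩
  refine mem_of_approx fun n => ?_
  exact (key n i).mono (Nat.le_add_left n K)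

end Pool.Agent.Helper79.HI
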