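import Pool.Agent.Helper79.HI.FinLie

/-!
# HI-14: conjugation by a group and the bracket with its Lie algebra

As the part `hrat` of the proof of `Pool.Agent.Helper46.GG.dense_irr` (`Pool/Agent/Helper46/GG/Dense.lean`; `cpol`, `evM_cpol`, `der_cpol`). Suppose `x.map * y - y * x.map ∉ W`. There is `A` with `trace (A * w) = 0` for all `w ∈ W` and
`trace (A * (x.map * y - y * x.map)) ≠ 0` (`exists_perp`). The polynomial `q = cpol ψ' A y - C (trace (A * c))`, `ψ' = ψ.map (algebraMap k F)`, vanishes on `Γ` (over `F`): `γ⁻¹ = ψ⁻¹ γᵀ ψ`, so its value at `γ` is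
`trace (A * (γ y γ⁻¹ - c)) = 0`. So `q ∈ van F (mats Γ)`, and `der (x.map) q ∈ van F (mats Γ)` (`der_mem_van` with `mem_lieS.mp hx`); its value at `1` is `trace (A * (x.map * y - y * x.map))` by `der_cpol` (the derivative of the constant is zero),
which needs `(x.map)ᵀ ψ' + ψ' (x.map) = 0`: `mem_soT_of_tangent` (`Helper88/MT/SoIrr.lean`, with `N = ∅` or `{0}`; see `hle_so` in `GG/FinIndex.lean`).
-/

set_option linter.unusedSectionVars false

namespace Pool.Agent.Helper79.HI

open Matrix Pool.Agent.Helper88.MT Pool.Agent.Helper46.GG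

/-- If `γ y γ⁻¹ - c` is in the subspace `W` for all `γ` in a group of isometries, then the brackets of `y` with the elements
of the Lie algebra of the group are in `W`. -/
theorem lie_mem_of_dense {r : ℕ} {k F : Type} [Field k] [Field F] [Algebra k F]
    {ψ : Matrix (Fin r) (Fin r) k} (hdet : ψ.det ≠ 0) {Γ : Subgroup (GL (Fin r) k)}
    (hΓ : ∀ γ ∈ Γ, (γ : Matrix (Fin r) (Fin r) k)ᵀ * ψ * γ = ψ)
    {W : Submodule F (Matrix (Fin r) (Fin r) F)} {y c : Matrix (Fin r) (Fin r) F}
    (h : ∀ γ ∈ Γ, (γ : Matrix (Fin r) (Fin r) k).map (algebraMap k F) * y *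
      ((γ⁻¹ : GL (Fin r) k) : Matrix (Fin r) (Fin r) k).map (algebraMap k F) - c ∈ W)
    {x : Matrix (Fin r) (Fin r) k} (hx : x ∈ lieS Γ) :
    x.map (algebraMap k F) * y - y * x.map (algebraMap k F) ∈ W := by
  have hdetu : IsUnit ψ.det := isUnit_iff_ne_zero.mpr hdet
  set ψ' := ψ.map (algebraMap k F) with hψ'def
  have hdet' : ψ'.det ≠ 0 := by
    have : (ψ.map (algebraMap k F)).det = algebraMap k F ψ.det := (RingHom.map_det _ _).symm
    rw [hψ'def, this]
    simpa using hdet
  have hinv' : ψ'⁻¹ = (ψ⁻¹).map (algebraMap k F) := by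
    refine Matrix.inv_eq_left_inv ?_
    rw [hψ'def, ← Matrix.map_mul, Matrix.nonsing_inv_mul _ hdetu]
    exact Matrix.map_one _ (map_zero _) (map_one _)
  by_contra hcon
  obtain ⟨L, hL, hLne⟩ : ∃ L : Matrix (Fin r) (Fin r) F, (∀ w' ∈ W, trace (L * w') = 0) ∧
      trace (L * (x.map (algebraMap k F) * y - y * x.map (algebraMap k F))) ≠ 0 := by
    obtain ⟨f, hf, hfW⟩ := Submodule.exists_dual_map_eq_bot_of_notMem hcon inferInstance
    let L : Matrix (Fin r) (Fin r) F := Matrix.of fun j i ↦ f (Matrix.single i j 1)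
    have hL : ∀ w, trace (L * w) = f w := by
      intro w
      have h1 : w = ∑ i, ∑ j, w i j • Matrix.single i j (1 : F) := by
        conv_lhs => rw [Matrix.matrix_eq_sum_single w]
        simp
      conv_rhs => rw [h1]
      simp only [map_sum, map_smul, smul_eq_mul]
      rw [trace, Finset.sum_comm]
      refine Finset.sum_congr rfl fun j _ ↦ ?_
      rw [diag_apply, Matrix.mul_apply]
      refine Finset.sum_congr rfl fun i _ ↦ ?_
      exact mul_comm _ _
    refine ⟨L, ?_, by rw [hL]; exact hf⟩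
    intro w hw
    rw [hL]
    have : f w ∈ W.map f := ⟨w, hw, rfl⟩
    rw [hfW] at this
    simpa using this
  apply hLne
  have hid : ∀ A : Matrix (Fin r) (Fin r) F, A.map (algebraMap F F) = A := fun A ↦ by
    ext i j; simp
  -- the polynomial vanishes on the group
  have h1 : cpol ψ' L y - MvPolynomial.C (trace (L * c)) ∈ van F (mats Γ) := by
    rintro M ⟨γ, hγ, rfl⟩
    have hC : evM ((γ : Matrix (Fin r) (Fin r) k).map (algebraMap k F))
        (MvPolynomial.C (trace (L * c)) : MvPolynomial (Fin r × Fin r) F) = trace (L * c) := by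
      simp [evM]
    rw [map_sub, evM_cpol, hid, hid, hid, hid, hC, ← trace_sub, ← Matrix.mul_sub]
    have hMu : ψ⁻¹ * (γ : Matrix (Fin r) (Fin r) k)ᵀ * ψ * γ = 1 := by
      rw [Matrix.mul_assoc, Matrix.mul_assoc, ← Matrix.mul_assoc (γ : Matrix (Fin r) (Fin r) k)ᵀ,
        hΓ γ hγ, Matrix.nonsing_inv_mul _ hdetu]
    have hMi : ((γ⁻¹ : GL (Fin r) k) : Matrix (Fin r) (Fin r) k) =
        ψ⁻¹ * (γ : Matrix (Fin r) (Fin r) k)ᵀ * ψ := by
      rw [Matrix.coe_units_inv]
      exact Matrix.inv_eq_left_inv hMu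
    have h2 := h γ hγ
    rw [hMi, Matrix.map_mul, Matrix.map_mul, ← hinv', Matrix.transpose_map] at h2
    exact hL _ h2
  have h3 := der_mem_van (F := F) (fun f hf ↦ hx f hf) _ h1
  have h4 := h3 1 ⟨1, Γ.one_mem, rfl⟩
  rw [Matrix.map_one _ (map_zero _) (map_one _), map_sub, map_sub] at h4
  have h5 : der (x.map (algebraMap k F)) (MvPolynomial.C (trace (L * c)) :
      MvPolynomial (Fin r × Fin r) F) = 0 := by
    rw [← MvPolynomial.algebraMap_eq]
    exact Derivation.map_algebraMap _ _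
  rw [h5, map_zero, sub_zero] at h4
  rw [← der_cpol hdet' L y]
  · exact h4
  · have h6 : x ∈ soT ψ (∅ : Set (Fin r → k)) := by
      refine mem_soT_of_tangent (R := k) (S := mats Γ) ?_ ?_ ?_
      · rintro _ ⟨g, hg, rfl⟩
        have hid' : ∀ A : Matrix (Fin r) (Fin r) k, A.map (algebraMap k k) = A := fun A ↦ by
          ext i j; simp
        rw [hid']
        exact hΓ g hg
      · rintro _ ⟨g, hg, rfl⟩ w hw
        exact absurd hw (Set.notMem_empty w)
      · intro f hf
        exact mem_van_self.mp (hx f (mem_van_self.mpr hf)) 1 ⟨1, Γ.one_mem, rfl⟩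
    have h7 : (xᵀ * ψ + ψ * x).map (algebraMap k F) =
        (0 : Matrix (Fin r) (Fin r) k).map (algebraMap k F) := by rw [h6.1]
    rw [Matrix.map_add _ (map_add _), Matrix.map_mul, Matrix.map_mul, Matrix.transpose_map,
      Matrix.map_zero _ (map_zero _)] at h7
    exact h7

end Pool.Agent.Helper79.HI
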