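import Pool.Agent.Helper79.HI.FinLie
import Pool.Agent.Helper79.HH.Stat

/-!
# HI-13: Lie algebras over larger fields

`mspan F 𝔤` (`Helper88/MT/Split.lean`) is the span over `F` of the images of the elements of `𝔤`; `mspan_map`, `map_mem_mspan`. `van_mono`, `exists_poly_decomp`, `coeffs_zero` (`GG/Dense.lean`, `MT/BaseChange.lean`), `der_mem_van`, `der_map`, `evM_map`, `der_mem_of_mspan` (`MT/Rational.lean`).

* `lieS_map`: let `Γ_F = Γ.map (map (algebraMap k F))`; `van F (mats Γ_F)` and `van F (mats Γ)` are the same set of polynomials over `F` (`mem_van`: `f ∈ van F S ↔ ∀ M ∈ S, evM (M.map (algebraMap k F)) f = 0`; the matrices of `Γ_F` are the `M.map`). `≥`: for `x ∈ lieS Γ`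
  `der_mem_van` gives that `der (x.map)` preserves `van F (mats Γ)`; linearity (`der_mem_of_mspan` or `Submodule.span_le`). `≤`: let `x ∈ lieS Γ_F`, `b` a basis of `F` over `k`, `x_j` the matrix of the `j`-th coordinates of the entries of `x`, so `x = ∑ b_j • x_j.map` (finite sum). For `f ∈ van k (mats Γ)`
  (over `k`) and `γ ∈ Γ`: `0 = evM γ (der x (map f)) = ∑ b_j * algebraMap (evM γ (der x_j f))` (`der_add`, `der_smul`, `der_map`, `evM_map`), so `evM γ (der x_j f) = 0` (`coeffs_zero`), `x_j ∈ lieS Γ`, `x ∈ mspan F (lieS Γ)`. (`le_mspan`-like arguments: see `LK ≤ mspan K Lk` in `Pool/Agent/Helper79/HG/MTLie.lean`, there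
  with automorphisms.)
* `map_mem_tangent`: a polynomial `q` over `ℂ` which vanishes on the complex matrices `S` of `Γ` is in `van ℂ (mats Γ)`; by `lieS_map` (`k = ℚ`, `F = ℂ`) `der (x.map) q ∈ van ℂ`, so at `1`: `evM 1 (der (x.map) q) = 0`, `evM 1 q = 0`, and `evM (dualM 1 (x.map)) q = inl 0 + inr 0` (`evM_dualM`), where `dualM 1 X` is
  `HH.onePlus X` (entrywise; `HH.onePlus_eq` if it exists). `HH.tangent` is defined by `MvPolynomial.aeval (fun e => onePlus X e.1 e.2) q`.
* `gal_eq`: both sides are the set of the images of the integral matrices.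
-/

set_option linter.unusedSectionVars false

namespace Pool.Agent.Helper79.HI

open Matrix Pool.Agent.Helper88.MT Pool.Agent.Helper46.GG

variable {r : ℕ}

private lemma van_map_iff {k F : Type} [Field k] [Field F] [Algebra k F]
    (Γ : Subgroup (GL (Fin r) k)) (f : MvPolynomial (Fin r × Fin r) F) :
    f ∈ van F (mats (Γ.map (Matrix.GeneralLinearGroup.map (algebraMap k F)))) ↔
      f ∈ van F (mats Γ) := by
  rw [mem_van_self, mem_van]
  constructor
  · rintro h M ⟨γ, hγ, rfl⟩
    exact h _ ⟨_, ⟨γ, hγ, rfl⟩, rfl⟩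
  · rintro h M ⟨_, ⟨γ, hγ, rfl⟩, rfl⟩
    exact h _ ⟨γ, hγ, rfl⟩

private lemma single_map {k F : Type} [Field k] [Field F] [Algebra k F] (i j : Fin r) :
    (Matrix.single i j (1 : k)).map (algebraMap k F) = Matrix.single i j (1 : F) := by
  ext a b
  rw [Matrix.map_apply, Matrix.single_apply, Matrix.single_apply]
  split_ifs
  · exact map_one _
  · exact map_zero _

private lemma repr_evM_der {k F : Type} [Field k] [Field F] [Algebra k F] {B : Type}
    (b : Module.Basis B k F) (x : Matrix (Fin r) (Fin r) F) (M : Matrix (Fin r) (Fin r) k)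
    (f : MvPolynomial (Fin r × Fin r) k) (j : B) :
    b.repr (evM (M.map (algebraMap k F)) (der x (MvPolynomial.map (algebraMap k F) f))) j =
      evM M (der (Matrix.of fun a c => b.repr (x a c) j) f) := by
  rw [der_eq_sum x, der_eq_sum (Matrix.of fun a c => b.repr (x a c) j)]
  simp only [map_sum, map_smul, Finsupp.finsetSum_apply]
  refine Finset.sum_congr rfl fun a _ => Finset.sum_congr rfl fun c _ => ?_
  rw [← single_map (k := k), der_map, evM_map, Matrix.of_apply, smul_eq_mul, smul_eq_mul, mul_comm,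
    ← Algebra.smul_def, map_smul, Finsupp.smul_apply, smul_eq_mul, mul_comm]

/-- The Lie algebra over a larger field. -/
theorem lieS_map {k F : Type} [Field k] [Field F] [Algebra k F] (Γ : Subgroup (GL (Fin r) k)) :
    lieS (Γ.map (Matrix.GeneralLinearGroup.map (algebraMap k F))) = mspan F (lieS Γ) := by
  classical
  apply le_antisymm
  · intro x hx
    let b := Module.Basis.ofVectorSpace k F
    rw [mspan_map, mem_smap_iff b]
    intro j
    refine ⟨Matrix.of fun a c => b.repr (x a c) j, ?_, rfl⟩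
    change _ ∈ lieS Γ
    rw [mem_lieS]
    intro f hf
    rw [mem_van_self]
    intro M hM
    rw [← repr_evM_der b x M f j]
    have h1 : MvPolynomial.map (algebraMap k F) f ∈
        van F (mats (Γ.map (Matrix.GeneralLinearGroup.map (algebraMap k F)))) := by
      rw [van_map_iff, mem_van]
      intro M' hM'
      rw [evM_map, mem_van_self.mp hf M' hM', map_zero]
    have h2 := (van_map_iff Γ _).mp (mem_lieS.mp hx _ h1)
    rw [mem_van] at h2
    rw [h2 M hM, map_zero, Finsupp.zero_apply]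
  · intro x hx
    unfold mspan at hx
    refine Submodule.span_le.mpr ?_ hx
    rintro _ ⟨y, hy, rfl⟩
    change y.map (algebraMap k F) ∈ lieS _
    rw [mem_lieS]
    intro f hf
    rw [van_map_iff] at hf ⊢
    exact der_mem_van (mem_lieS.mp hy) f hf

theorem lieS_lie {F : Type} [Field F] {Γ : Subgroup (GL (Fin r) F)} :
    ∀ x ∈ lieS Γ, ∀ y ∈ lieS Γ, x * y - y * x ∈ lieS Γ := by
  intro x hx y hy
  rw [mem_lieS] at hx hy ⊢
  intro f hf
  rw [der_comm]
  exact Submodule.sub_mem _ (hx _ (hy f hf)) (hy _ (hx f hf))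

theorem map_mem_tangent {Γ : Subgroup (GL (Fin r) ℚ)} {x : Matrix (Fin r) (Fin r) ℚ}
    (hx : x ∈ lieS Γ) : x.map (Rat.cast : ℚ → ℂ) ∈
      HH.tangent ((fun γ : GL (Fin r) ℚ => (γ : Matrix (Fin r) (Fin r) ℚ).map (Rat.cast : ℚ → ℂ)) ''
        (Γ : Set (GL (Fin r) ℚ))) := by
  intro q hq
  have h0 : ∀ z : Matrix (Fin r) (Fin r) ℚ,
      z.map (algebraMap ℚ ℂ) = z.map (Rat.cast : ℚ → ℂ) := by
    intro z
    ext i j
    simp
  have h1 : q ∈ van ℂ (mats Γ) := by
    rw [mem_van]
    rintro M ⟨γ, hγ, rfl⟩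
    rw [h0]
    exact hq _ ⟨γ, hγ, rfl⟩
  have h2 := der_mem_van (F := ℂ) (mem_lieS.mp hx) q h1
  rw [mem_van] at h1 h2
  have h3 : (1 : Matrix (Fin r) (Fin r) ℚ) ∈ mats Γ := ⟨1, Γ.one_mem, rfl⟩
  have h4 : (1 : Matrix (Fin r) (Fin r) ℚ).map (algebraMap ℚ ℂ) = 1 :=
    Matrix.map_one _ (map_zero _) (map_one _)
  have h5 := h1 _ h3
  have h6 := h2 _ h3
  rw [h4] at h5 h6
  rw [h0] at h6
  have h7 : HH.onePlus (x.map (Rat.cast : ℚ → ℂ)) = dualM 1 (x.map (Rat.cast : ℚ → ℂ)) := by
    ext1 i j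
    simp only [HH.onePlus, dualM, Matrix.of_apply, Matrix.one_mul]
  rw [h7]
  change evM (dualM 1 (x.map (Rat.cast : ℚ → ℂ))) q = 0
  rw [evM_dualM, h5, h6, TrivSqZeroExt.inl_zero, TrivSqZeroExt.inr_zero, add_zero]

theorem gal_eq {ℓ : ℕ} [Fact ℓ.Prime] (Γ : Subgroup (GL (Fin r) ℤ)) :
    gal (Γ.map (Matrix.GeneralLinearGroup.map (Int.castRingHom ℤ_[ℓ]))) =
      (qp Γ).map (Matrix.GeneralLinearGroup.map (algebraMap ℚ ℚ_[ℓ])) := by
  unfold qp gal
  rw [Subgroup.map_map, Subgroup.map_map, ← Matrix.GeneralLinearGroup.map_comp,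
    ← Matrix.GeneralLinearGroup.map_comp]
  congr 2

end Pool.Agent.Helper79.HI
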