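import Pool.Agent.Helper79.HI.PTan
import Pool.Agent.Helper79.HI.Approx
import Pool.Agent.Helper79.HI.LieBase
import Pool.Agent.Helper79.HI.DenseAd

/-!
# HI-15: groups which contain `Γ` modulo a high power of `ℓ`

`qp Γ` the rational matrices of `Γ`, `Γ_ℤ` = `Γ.map (map (Int.castRingHom ℤ_[ℓ]))`, `𝔪 = lieS (qp Γ)` (over `ℚ`), `𝔪_ℓ = mspan ℚ_[ℓ] 𝔪 = lieS (gal Γ_ℤ)` (`gal_eq`, `lieS_map`).

1. `Γ₂ = {γ ∈ Γ : γ ≡ 1 modulo ℓ^2}`: the kernel of `Γ → GL r (ZMod (ℓ^2))` (finite group), normal of finite index in `Γ`. So `qp Γ₂ ≤ qp Γ` has finite index, and `𝔪 ≤ lieS (qp Γ₂)` (`lieS_le_of_finite`, `hdet1`).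
2. For `γ ∈ Γ₂` let `L(γ)` be the logarithm (`exists_log`) of the integral matrix `γ` over `ℤ_ℓ`. `co L(γ) ∈ 𝔪_ℓ` by `log_mem_lieS`.
3. `𝔩` = span over `ℚ_ℓ` of the `co L(γ)`, `γ ∈ Γ₂`: stable under conjugation by `γ ∈ Γ` (`IsLog.conj`, `IsLog.unique`, `Γ₂` normal). `lie_mem_of_dense` (with `c = 0`, `Γ := qp Γ`, `k = ℚ`): `x.map * y - y * x.map ∈ 𝔩` for `x ∈ 𝔪`, `y ∈ 𝔩`, hence for `x ∈ 𝔪_ℓ` by linearity.
4. For `y ∈ 𝔪_ℓ`, `γ ∈ Γ₂`: `[co L(γ), y] = -[y, co L(γ)] ∈ 𝔩`, so `γ y γ⁻¹ - y ∈ 𝔩` (`sub_mem_of_log`). `lie_mem_of_dense` (with `c = y`, `Γ := qp Γ₂`): `[x.map, y] ∈ 𝔩` for `x ∈ 𝔪 ≤ lieS (qp Γ₂)`.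
   Let `W = {x rational : x.map ∈ 𝔩}`: it contains the brackets of the elements of `𝔪`, so `𝔪 ≤ W` (`hperf`), and `𝔪_ℓ ≤ 𝔩`; so `𝔪_ℓ = 𝔩`.
5. Finitely many `γ_1, …, γ_d ∈ Γ₂` have logarithms which span `𝔪_ℓ` (finite dimension, a spanning set contains a finite spanning set: `Submodule.fg_span_iff_fg_span_finset_subset` or similar). `m i = L(γ_i)`. `K = max 2 K₀` with `K₀` of `exists_approx`; its
   hypotheses for `𝔪_ℓ`: `hlie` is `lieS_lie`, `hperf` over `ℚ_ℓ`: if `W ≤ M_r(ℚ_ℓ)` contains the brackets of `𝔪_ℓ`, then `{x : x.map ∈ W}` contains those of `𝔪`, so `𝔪`, so `𝔪_ℓ ≤ W`.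
6. Let `R`, `R'` be as in the statement, `g_i ∈ R` with `g_i ≡ γ_i` modulo `ℓ^K` (`congr_of_toZModPow` in `GG/Torsion.lean`); `g_i ≡ 1` modulo `ℓ^2`, let `L_i` be its logarithm: `L_i = L(γ_i) + l^K • (…)` (`IsLog.congr`). `g_i^n ∈ R'`, so `co L_i ∈ lieS (gal R')` (`log_mem_lieS_of_pow`), and `n • L_i` is the logarithm of `g_i^n`
   (`IsLog.pow`) which normalises `𝔪_ℓ`, so `[co L_i, y] ∈ 𝔪_ℓ` for `y ∈ 𝔪_ℓ` (`lie_mem_of_log`, divide by `n`). Let `𝔥 = {x ∈ lieS (gal R') : [x, y] ∈ 𝔪_ℓ for all y ∈ 𝔪_ℓ}` (a subspace closed under brackets: `lieS_lie` and the Jacobi identity). `exists_approx`: `𝔪_ℓ ≤ 𝔥 ≤ lieS (gal R')`.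
-/

set_option linter.unusedSectionVars false

namespace Pool.Agent.Helper79.HI

open Matrix Pool.Agent.Helper88.MT Pool.Agent.Helper46.GG

section

variable {r ℓ : ℕ} [Fact ℓ.Prime]

/-- Integral matrices as `ℓ`-adic matrices. -/
private noncomputable abbrev gbz (ℓ : ℕ) [Fact ℓ.Prime] {r : ℕ} : GL (Fin r) ℤ →* GL (Fin r) ℤ_[ℓ] :=
  Matrix.GeneralLinearGroup.map (Int.castRingHom ℤ_[ℓ])

private lemma gb_cast (γ : GL (Fin r) ℤ) :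
    ((Matrix.GeneralLinearGroup.map (Int.castRingHom ℚ) γ : GL (Fin r) ℚ) :
      Matrix (Fin r) (Fin r) ℚ).map (algebraMap ℚ ℚ_[ℓ]) =
      co ((gbz ℓ γ : GL (Fin r) ℤ_[ℓ]) : Matrix (Fin r) (Fin r) ℤ_[ℓ]) := by
  ext i j
  simp [co]

/-- The elements of `Γ` which are `1` modulo `ℓ ^ 2`. -/
private def gbK (ℓ : ℕ) {r : ℕ} (Γ : Subgroup (GL (Fin r) ℤ)) : Subgroup (GL (Fin r) ℤ) :=
  Γ ⊓ (Matrix.GeneralLinearGroup.map (Int.castRingHom (ZMod (ℓ ^ 2)))).ker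

private lemma gbK_fin (Γ : Subgroup (GL (Fin r) ℤ)) : (gbK ℓ Γ).relIndex Γ ≠ 0 := by
  have : NeZero (ℓ ^ 2) := ⟨pow_ne_zero _ (Fact.out : ℓ.Prime).ne_zero⟩
  have h1 : Finite (GL (Fin r) (ZMod (ℓ ^ 2))) := inferInstance
  have h2 : (Matrix.GeneralLinearGroup.map
      (n := Fin r) (Int.castRingHom (ZMod (ℓ ^ 2)))).ker.index ≠ 0 := by
    have h3 : Finite (Matrix.GeneralLinearGroup.map
      (n := Fin r) (Int.castRingHom (ZMod (ℓ ^ 2)))).range := inferInstance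
    rw [Subgroup.index_ker]
    exact Nat.card_pos.ne'
  unfold gbK
  rw [Subgroup.inf_relIndex_left]
  exact fun h0 => h2 (Nat.eq_zero_of_zero_dvd (h0 ▸ Subgroup.relIndex_dvd_index_of_normal _ _))

private lemma gbK_congr {Γ : Subgroup (GL (Fin r) ℤ)} {γ : GL (Fin r) ℤ} (hγ : γ ∈ gbK ℓ Γ) :
    ∃ A : Matrix (Fin r) (Fin r) ℤ_[ℓ], ((gbz ℓ γ : GL (Fin r) ℤ_[ℓ]) :
      Matrix (Fin r) (Fin r) ℤ_[ℓ]) = 1 + (ℓ : ℤ_[ℓ]) ^ 2 • A := by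
  apply congr_of_toZModPow
  have h1 : Matrix.GeneralLinearGroup.map (Int.castRingHom (ZMod (ℓ ^ 2))) γ = 1 := hγ.2
  ext i j
  have h2 := congrArg (fun u : GL (Fin r) (ZMod (ℓ ^ 2)) =>
    (u : Matrix (Fin r) (Fin r) (ZMod (ℓ ^ 2))) i j) h1
  simp only [Matrix.GeneralLinearGroup.map_apply, Units.val_one] at h2
  rw [Matrix.map_apply, Matrix.map_apply]
  change PadicInt.toZModPow 2 (((γ : Matrix (Fin r) (Fin r) ℤ) i j : ℤ) : ℤ_[ℓ]) = _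
  rw [map_intCast]
  change (((γ : Matrix (Fin r) (Fin r) ℤ) i j : ℤ) : ZMod (ℓ ^ 2)) = _ at h2
  rw [h2]
  by_cases hij : i = j
  · subst hij
    rw [Matrix.one_apply_eq, Matrix.one_apply_eq, map_one]
  · rw [Matrix.one_apply_ne hij, Matrix.one_apply_ne hij, map_zero]

/-- The logarithms of the elements of `Γ` which are `1` modulo `ℓ ^ 2`. -/
private def gbS (ℓ : ℕ) [Fact ℓ.Prime] {r : ℕ} (Γ : Subgroup (GL (Fin r) ℤ)) :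
    Set (Matrix (Fin r) (Fin r) ℚ_[ℓ]) :=
  {x | ∃ γ ∈ gbK ℓ Γ, ∃ L : Matrix (Fin r) (Fin r) ℤ_[ℓ],
    IsLog ((gbz ℓ γ : GL (Fin r) ℤ_[ℓ]) : Matrix (Fin r) (Fin r) ℤ_[ℓ]) L ∧ co L = x}

private lemma gb_conj (Γ : Subgroup (GL (Fin r) ℤ)) {γ : GL (Fin r) ℤ} (hγ : γ ∈ Γ) :
    ∀ w ∈ Submodule.span ℚ_[ℓ] (gbS ℓ Γ),
      co ((gbz ℓ γ : GL (Fin r) ℤ_[ℓ]) : Matrix (Fin r) (Fin r) ℤ_[ℓ]) * w *
      co (((gbz ℓ γ)⁻¹ : GL (Fin r) ℤ_[ℓ]) : Matrix (Fin r) (Fin r) ℤ_[ℓ]) ∈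
        Submodule.span ℚ_[ℓ] (gbS ℓ Γ) := by
  intro w hw
  induction hw using Submodule.span_induction with
  | mem x hx =>
    obtain ⟨δ, hδ, L, hL, rfl⟩ := hx
    have hab : ((gbz ℓ γ : GL (Fin r) ℤ_[ℓ]) : Matrix (Fin r) (Fin r) ℤ_[ℓ]) *
        (((gbz ℓ γ)⁻¹ : GL (Fin r) ℤ_[ℓ]) : Matrix (Fin r) (Fin r) ℤ_[ℓ]) = 1 :=
      Units.mul_inv _
    have hba : (((gbz ℓ γ)⁻¹ : GL (Fin r) ℤ_[ℓ]) : Matrix (Fin r) (Fin r) ℤ_[ℓ]) *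
        ((gbz ℓ γ : GL (Fin r) ℤ_[ℓ]) : Matrix (Fin r) (Fin r) ℤ_[ℓ]) = 1 :=
      Units.inv_mul _
    refine Submodule.subset_span ⟨γ * δ * γ⁻¹, ?_,
      ((gbz ℓ γ : GL (Fin r) ℤ_[ℓ]) : Matrix (Fin r) (Fin r) ℤ_[ℓ]) * L *
        (((gbz ℓ γ)⁻¹ : GL (Fin r) ℤ_[ℓ]) : Matrix (Fin r) (Fin r) ℤ_[ℓ]), ?_,
      by rw [co_mul, co_mul]⟩
    · refine ⟨Γ.mul_mem (Γ.mul_mem hγ hδ.1) (Γ.inv_mem hγ), ?_⟩
      exact Subgroup.Normal.conj_mem inferInstance _ hδ.2 _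
    · have h1 := hL.conj hab hba
      have h2 : ((gbz ℓ (γ * δ * γ⁻¹) : GL (Fin r) ℤ_[ℓ]) : Matrix (Fin r) (Fin r) ℤ_[ℓ]) =
          ((gbz ℓ γ : GL (Fin r) ℤ_[ℓ]) : Matrix (Fin r) (Fin r) ℤ_[ℓ]) *
          ((gbz ℓ δ : GL (Fin r) ℤ_[ℓ]) : Matrix (Fin r) (Fin r) ℤ_[ℓ]) *
          (((gbz ℓ γ)⁻¹ : GL (Fin r) ℤ_[ℓ]) : Matrix (Fin r) (Fin r) ℤ_[ℓ]) := by
        rw [map_mul, map_mul, map_inv]
        rfl
      rw [h2]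
      exact h1
  | zero => rw [mul_zero, zero_mul]; exact Submodule.zero_mem _
  | add x y _ _ hx hy => rw [mul_add, add_mul]; exact Submodule.add_mem _ hx hy
  | smul a x _ hx => rw [mul_smul_comm, smul_mul_assoc]; exact Submodule.smul_mem _ _ hx

/-- The brackets with rational matrices in the Lie algebra. -/
private lemma gb_lin {𝔪 : Submodule ℚ (Matrix (Fin r) (Fin r) ℚ)}
    {W : Submodule ℚ_[ℓ] (Matrix (Fin r) (Fin r) ℚ_[ℓ])} {y : Matrix (Fin r) (Fin r) ℚ_[ℓ]}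
    (h : ∀ x ∈ 𝔪, x.map (algebraMap ℚ ℚ_[ℓ]) * y - y * x.map (algebraMap ℚ ℚ_[ℓ]) ∈ W) :
    ∀ x ∈ mspan ℚ_[ℓ] 𝔪, x * y - y * x ∈ W := by
  intro x hx
  unfold mspan at hx
  induction hx using Submodule.span_induction with
  | mem x hx =>
    obtain ⟨x, hx, rfl⟩ := hx
    exact h x hx
  | zero => rw [mul_zero, zero_mul, sub_zero]; exact Submodule.zero_mem _
  | add a b _ _ ha hb =>
    have h1 : (a + b) * y - y * (a + b) = (a * y - y * a) + (b * y - y * b) := by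
      rw [add_mul, mul_add]; abel
    rw [h1]
    exact Submodule.add_mem _ ha hb
  | smul c a _ ha =>
    rw [smul_mul_assoc, mul_smul_comm, ← smul_sub]
    exact Submodule.smul_mem _ _ ha

/-- Rational matrices in a subspace over `ℚ_ℓ`. -/
private def gbW (W : Submodule ℚ_[ℓ] (Matrix (Fin r) (Fin r) ℚ_[ℓ])) :
    Submodule ℚ (Matrix (Fin r) (Fin r) ℚ) where
  carrier := {x | x.map (algebraMap ℚ ℚ_[ℓ]) ∈ W}
  add_mem' := by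
    intro x y hx hy
    change (x + y).map (algebraMap ℚ ℚ_[ℓ]) ∈ W
    rw [Matrix.map_add _ (map_add _)]
    exact W.add_mem hx hy
  zero_mem' := by
    change (0 : Matrix (Fin r) (Fin r) ℚ).map (algebraMap ℚ ℚ_[ℓ]) ∈ W
    rw [Matrix.map_zero _ (map_zero _)]
    exact W.zero_mem
  smul_mem' := by
    intro c x hx
    change (c • x).map (algebraMap ℚ ℚ_[ℓ]) ∈ W
    have h1 : (c • x).map (algebraMap ℚ ℚ_[ℓ]) =
        (algebraMap ℚ ℚ_[ℓ] c) • x.map (algebraMap ℚ ℚ_[ℓ]) := by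
      ext i j
      simp [smul_eq_mul]
    rw [h1]
    exact W.smul_mem _ hx

private lemma gb_perf {𝔪 : Submodule ℚ (Matrix (Fin r) (Fin r) ℚ)}
    (hperf : ∀ W : Submodule ℚ (Matrix (Fin r) (Fin r) ℚ),
      (∀ x ∈ 𝔪, ∀ y ∈ 𝔪, x * y - y * x ∈ W) → 𝔪 ≤ W)
    {W : Submodule ℚ_[ℓ] (Matrix (Fin r) (Fin r) ℚ_[ℓ])}
    (h : ∀ x ∈ 𝔪, ∀ y ∈ 𝔪, x.map (algebraMap ℚ ℚ_[ℓ]) * y.map (algebraMap ℚ ℚ_[ℓ]) -
      y.map (algebraMap ℚ ℚ_[ℓ]) * x.map (algebraMap ℚ ℚ_[ℓ]) ∈ W) : mspan ℚ_[ℓ] 𝔪 ≤ W := by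
  unfold mspan
  rw [Submodule.span_le]
  rintro _ ⟨x, hx, rfl⟩
  have h1 : 𝔪 ≤ gbW W := by
    apply hperf
    intro x hx y hy
    change (x * y - y * x).map (algebraMap ℚ ℚ_[ℓ]) ∈ W
    rw [Matrix.map_sub _ (map_sub _), Matrix.map_mul, Matrix.map_mul]
    exact h x hx y hy
  exact h1 hx

end

/-- Let `Γ` be a group of integral isometries of determinant one whose Lie algebra `𝔪` is perfect. There is a `K` such that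
every group `R` of `ℓ`-adic matrices whose elements have powers in a group `R'` which normalises `𝔪`, and which
contains `Γ` modulo `ℓ^K`, the Lie algebra of `R'` contains `𝔪`. -/
theorem group_big {r : ℕ} {ψ : Matrix (Fin r) (Fin r) ℚ} (hdet : ψ.det ≠ 0)
    {Γ : Subgroup (GL (Fin r) ℤ)}
    (hisom : ∀ γ ∈ qp Γ, (γ : Matrix (Fin r) (Fin r) ℚ)ᵀ * ψ * γ = ψ)
    (hdet1 : ∀ γ ∈ qp Γ, (γ : Matrix (Fin r) (Fin r) ℚ).det = 1)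
    (hperf : ∀ W : Submodule ℚ (Matrix (Fin r) (Fin r) ℚ),
      (∀ x ∈ lieS (qp Γ), ∀ y ∈ lieS (qp Γ), x * y - y * x ∈ W) → lieS (qp Γ) ≤ W)
    (ℓ : ℕ) [Fact ℓ.Prime] :
    ∃ K : ℕ, ∀ R R' : Subgroup (GL (Fin r) ℤ_[ℓ]), (∀ g ∈ R, ∃ n : ℕ, 0 < n ∧ g ^ n ∈ R') →
      (∀ g ∈ R', ∀ x ∈ mspan ℚ_[ℓ] (lieS (qp Γ)), co (g : Matrix (Fin r) (Fin r) ℤ_[ℓ]) * x *
        co ((g⁻¹ : GL (Fin r) ℤ_[ℓ]) : Matrix (Fin r) (Fin r) ℤ_[ℓ]) ∈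
          mspan ℚ_[ℓ] (lieS (qp Γ))) →
      (∀ γ ∈ Γ, ∃ g ∈ R, ∀ i j, PadicInt.toZModPow K ((g : Matrix (Fin r) (Fin r) ℤ_[ℓ]) i j) =
        (((γ : Matrix (Fin r) (Fin r) ℤ) i j : ℤ) : ZMod (ℓ ^ K))) →
      mspan ℚ_[ℓ] (lieS (qp Γ)) ≤ lieS (gal R') := by
  classical
  set 𝔪 : Submodule ℚ (Matrix (Fin r) (Fin r) ℚ) := lieS (qp Γ) with h𝔪
  set 𝔪ℓ : Submodule ℚ_[ℓ] (Matrix (Fin r) (Fin r) ℚ_[ℓ]) := mspan ℚ_[ℓ] 𝔪 with h𝔪ℓ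
  set 𝔩 := Submodule.span ℚ_[ℓ] (gbS ℓ Γ) with h𝔩
  have hgal : lieS (gal (Γ.map (gbz ℓ))) = 𝔪ℓ := by
    rw [gal_eq, lieS_map]
  -- the logarithms are in the Lie algebra
  have h1 : 𝔩 ≤ 𝔪ℓ := by
    rw [h𝔩, Submodule.span_le]
    rintro _ ⟨γ, hγ, L, hL, rfl⟩
    change co L ∈ 𝔪ℓ
    rw [← hgal]
    exact log_mem_lieS (Subgroup.mem_map_of_mem _ hγ.1) hL
  have hconj := fun (γ : GL (Fin r) ℤ) (hγ : γ ∈ Γ) => gb_conj (ℓ := ℓ) Γ hγ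
  -- the brackets
  have h2 : ∀ y ∈ 𝔩, ∀ x ∈ 𝔪ℓ, x * y - y * x ∈ 𝔩 := by
    intro y hy
    apply gb_lin
    intro x hx
    refine lie_mem_of_dense (c := 0) hdet hisom ?_ hx
    rintro _ ⟨γ, hγ, rfl⟩
    rw [sub_zero, ← map_inv, gb_cast, gb_cast, map_inv]
    exact hconj γ hγ y hy
  have hfinK : (qp (gbK ℓ Γ)).relIndex (qp Γ) ≠ 0 := by
    unfold qp
    rw [Subgroup.relIndex_map_map_of_injective]
    · exact gbK_fin Γ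
    · intro a b hab
      ext i j
      have h0 := congrArg (fun u : GL (Fin r) ℚ => (u : Matrix (Fin r) (Fin r) ℚ) i j) hab
      simpa using h0
  have hleK : qp (gbK ℓ Γ) ≤ qp Γ := Subgroup.map_mono inf_le_left
  have h3 : 𝔪 ≤ lieS (qp (gbK ℓ Γ)) := lieS_le_of_finite hdet1 hleK hfinK
  have h4 : ∀ y ∈ 𝔪ℓ, ∀ x ∈ 𝔪, x.map (algebraMap ℚ ℚ_[ℓ]) * y - y * x.map (algebraMap ℚ ℚ_[ℓ]) ∈ 𝔩 := by
    intro y hy x hx
    refine lie_mem_of_dense (c := y) (Γ := qp (gbK ℓ Γ)) hdet (fun γ hγ => hisom γ (hleK hγ)) ?_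
      (h3 hx)
    rintro _ ⟨γ, hγ, rfl⟩
    rw [← map_inv, gb_cast, gb_cast, map_inv]
    obtain ⟨L, hL⟩ := exists_log (gbK_congr hγ)
    refine sub_mem_of_log (gbK_congr hγ) hL (hconj γ hγ.1) ?_
    have h5 := h2 (co L) (Submodule.subset_span ⟨γ, hγ, L, hL, rfl⟩) y hy
    rw [← neg_sub]
    exact Submodule.neg_mem _ h5
  have h5 : 𝔪ℓ ≤ 𝔩 := gb_perf hperf fun x hx y hy => h4 _ (map_mem_mspan hy) x hx
  have heq : 𝔪ℓ = 𝔩 := le_antisymm h5 h1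
  -- finitely many logarithms
  obtain ⟨S', hS', hspan⟩ := (Submodule.fg_span_iff_fg_span_finset_subset (gbS ℓ Γ)).1
    (IsNoetherian.noetherian (Submodule.span ℚ_[ℓ] (gbS ℓ Γ)))
  have h6 : ∀ i : Fin S'.card, ∃ γ ∈ gbK ℓ Γ, ∃ L : Matrix (Fin r) (Fin r) ℤ_[ℓ],
      IsLog ((gbz ℓ γ : GL (Fin r) ℤ_[ℓ]) : Matrix (Fin r) (Fin r) ℤ_[ℓ]) L ∧
        co L = ((S'.equivFin.symm i : S') : Matrix (Fin r) (Fin r) ℚ_[ℓ]) :=
    fun i => hS' (S'.equivFin.symm i).2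
  choose γ hγ m hm hmS using h6
  have hspan' : 𝔪ℓ = Submodule.span ℚ_[ℓ] (Set.range fun i => co (m i)) := by
    rw [heq, h𝔩, hspan]
    congr 1
    ext x
    constructor
    · intro hx
      refine ⟨S'.equivFin ⟨x, hx⟩, ?_⟩
      change co (m _) = x
      rw [hmS, Equiv.symm_apply_apply]
    · rintro ⟨i, rfl⟩
      change co (m i) ∈ _
      rw [hmS]
      exact (S'.equivFin.symm i).2
  have hlie : ∀ x ∈ 𝔪ℓ, ∀ y ∈ 𝔪ℓ, x * y - y * x ∈ 𝔪ℓ := by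
    rw [← hgal]
    exact lieS_lie
  obtain ⟨K₀, hK₀⟩ := exists_approx m hspan' hlie fun W hW =>
    gb_perf hperf fun x hx y hy => hW _ (map_mem_mspan hx) _ (map_mem_mspan hy)
  refine ⟨max 2 K₀, fun R R' hpow hnorm hcong => ?_⟩
  -- the subalgebra
  let 𝔥 : Submodule ℚ_[ℓ] (Matrix (Fin r) (Fin r) ℚ_[ℓ]) :=
    { carrier := {x | x ∈ lieS (gal R') ∧ ∀ y ∈ 𝔪ℓ, x * y - y * x ∈ 𝔪ℓ}
      add_mem' := by
        rintro a b ⟨ha, ha'⟩ ⟨hb, hb'⟩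
        refine ⟨Submodule.add_mem _ ha hb, fun y hy => ?_⟩
        have h7 : (a + b) * y - y * (a + b) = (a * y - y * a) + (b * y - y * b) := by
          rw [add_mul, mul_add]; abel
        rw [h7]
        exact Submodule.add_mem _ (ha' y hy) (hb' y hy)
      zero_mem' := by
        refine ⟨Submodule.zero_mem _, fun y _ => ?_⟩
        rw [mul_zero, zero_mul, sub_zero]
        exact Submodule.zero_mem _
      smul_mem' := by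
        rintro c a ⟨ha, ha'⟩
        refine ⟨Submodule.smul_mem _ _ ha, fun y hy => ?_⟩
        rw [smul_mul_assoc, mul_smul_comm, ← smul_sub]
        exact Submodule.smul_mem _ _ (ha' y hy) }
  have h𝔥 : 𝔪ℓ ≤ 𝔥 := by
    refine hK₀ (max 2 K₀) (le_max_right _ _) 𝔥 ?_ (fun x hx y hy => hx.2 y hy) ?_
    · rintro a ⟨ha, ha'⟩ b ⟨hb, hb'⟩
      refine ⟨lieS_lie a ha b hb, fun y hy => ?_⟩
      have h7 : (a * b - b * a) * y - y * (a * b - b * a) =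
          (a * (b * y - y * b) - (b * y - y * b) * a) -
          (b * (a * y - y * a) - (a * y - y * a) * b) := by
        noncomm_ring
      rw [h7]
      exact Submodule.sub_mem _ (ha' _ (hb' y hy)) (hb' _ (ha' y hy))
    · intro i
      obtain ⟨g, hg, hgi⟩ := hcong (γ i) (hγ i).1
      obtain ⟨B, hB⟩ : ∃ B : Matrix (Fin r) (Fin r) ℤ_[ℓ], (g : Matrix (Fin r) (Fin r) ℤ_[ℓ]) =
          ((gbz ℓ (γ i) : GL (Fin r) ℤ_[ℓ]) : Matrix (Fin r) (Fin r) ℤ_[ℓ]) +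
            (ℓ : ℤ_[ℓ]) ^ (max 2 K₀) • B := by
        apply congr_of_toZModPow
        ext a b
        rw [Matrix.map_apply, Matrix.map_apply, hgi a b]
        change _ = PadicInt.toZModPow _ ((((γ i : GL (Fin r) ℤ) : Matrix (Fin r) (Fin r) ℤ) a b : ℤ) : ℤ_[ℓ])
        rw [map_intCast]
      obtain ⟨A, hA⟩ := gbK_congr (hγ i)
      have hg2 : ∃ A : Matrix (Fin r) (Fin r) ℤ_[ℓ],
          (g : Matrix (Fin r) (Fin r) ℤ_[ℓ]) = 1 + (ℓ : ℤ_[ℓ]) ^ 2 • A := by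
        refine ⟨A + (ℓ : ℤ_[ℓ]) ^ (max 2 K₀ - 2) • B, ?_⟩
        rw [hB, hA, smul_add, smul_smul, ← pow_add, Nat.add_sub_cancel' (le_max_left 2 K₀), add_assoc]
      obtain ⟨L, hL⟩ := exists_log hg2
      obtain ⟨e, he⟩ := IsLog.congr (le_max_left 2 K₀) ⟨A, hA⟩ ⟨B, hB⟩ hL (hm i)
      refine ⟨e, ?_⟩
      rw [← he]
      obtain ⟨n, hn, hgn⟩ := hpow g hg
      refine ⟨log_mem_lieS_of_pow hn hgn hL, fun y hy => ?_⟩
      have h8 : IsLog ((g ^ n : GL (Fin r) ℤ_[ℓ]) : Matrix (Fin r) (Fin r) ℤ_[ℓ]) (n • L) := by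
        rw [Units.val_pow_eq_pow_val]
        exact hL.pow n
      have h9 := lie_mem_of_log h8 (hnorm _ hgn) y hy
      have h10 : co (n • L) * y - y * co (n • L) = (n : ℚ_[ℓ]) • (co L * y - y * co L) := by
        have h12 : co (n • L) = (n : ℚ_[ℓ]) • co L := by
          ext a b
          change algebraMap ℤ_[ℓ] ℚ_[ℓ] ((n • L) a b) = (n : ℚ_[ℓ]) * algebraMap ℤ_[ℓ] ℚ_[ℓ] (L a b)
          rw [Matrix.smul_apply, nsmul_eq_mul, map_mul, map_natCast]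
        rw [h12, smul_mul_assoc, mul_smul_comm, smul_sub]
      rw [h10] at h9
      have hn0 : (n : ℚ_[ℓ]) ≠ 0 := Nat.cast_ne_zero.2 hn.ne'
      have h11 := Submodule.smul_mem 𝔪ℓ (n : ℚ_[ℓ])⁻¹ h9
      rwa [smul_smul, inv_mul_cancel₀ hn0, one_smul] at h11
  exact fun x hx => (h𝔥 hx).1

end Pool.Agent.Helper79.HI
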