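import Pool.Agent.Helper79.HI.Defs

/-!
# HI: the Mumford-Tate conjecture spreads from one fibre: definitions
-/

namespace Pool.Agent.Helper79.HI

open Matrix Pool.Agent.Helper79.BB Pool.Agent.Helper79.HH Pool.Agent.Helper79.HG Pool.Agent.Helper64.Per
  Pool.Agent.Helper88.MT Pool.Agent.Helper79.DD

/-- The equality of the Mumford-Tate conjecture at the prime `ℓ` holds at one point, for a group `G` acting on `Qbar` (the
Galois group of a number field), the `G`-sets `{y k v : v ∈ (ℤ / ℓ^k)^r}`, and the Hodge structure on `ℤ^r` with period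
matrix `P`: let `ρ` be the action of `G` on the `ℓ`-adic lattice. There is a subgroup `G'` of finite index of `G` such
that the Zariski closure of `ρ(G')` over `ℚ_ℓ` is connected, and the base change to `ℤ_ℓ` of the Zariski closure over `ℤ`
of the Mumford-Tate group is the Zariski closure over `ℤ_ℓ` of `ρ(G')`, in `GL r` over `ℤ_ℓ`. -/
def Q1Some {r ℓ : ℕ} [Fact ℓ.Prime] {G : Type} [Group G] (act : G → Qbar → Qbar) {n : ℕ → ℕ}
    (y : ∀ k, (Fin r → ZMod (ℓ ^ k)) → Fin (n k) → ℂ) (lev : Fin r → ℤ)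
    (P : Matrix (Fin r) (Fin r) ℂ) : Prop :=
  ∃ ρ : G →* GL (Fin r) ℤ_[ℓ], IsGalRep act y ρ ∧ ∃ G' : Subgroup G, G'.FiniteIndex ∧
    IsConn (toQl '' (G'.map ρ : Set (GL (Fin r) ℤ_[ℓ]))) ∧ IsEq lev P (G'.map ρ)

/-- The statement `Q` about groups acting on `Qbar` holds for the Galois group of the field `κ(t, w t)`. -/
def AtPoint (κ : IntermediateField ℚ Qbar) {m : ℕ} (w : (Fin m → ℂ) → ℂ) (t : Fin m → ℂ)
    (Q : ∀ (G : Type) [Group G], (G → Qbar → Qbar) → Prop) : Prop :=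
  Q (Qbar ≃ₐ[kapM κ t (w t)] Qbar) fun σ z => σ z

/-- The equality of the Mumford-Tate conjecture at the prime `ℓ` holds for the fibre at `(t, w t)`, over the field
`κ(t, w t)`. -/
def Q1Fibre {κ : IntermediateField ℚ Qbar} {m r ℓ : ℕ} [Fact ℓ.Prime] {U : Set (Fin m → ℂ)}
    {w : (Fin m → ℂ) → ℂ} (Y : ∀ k : ℕ, CoverData κ (Fin r → ZMod (ℓ ^ k)) U w) (lev : Fin r → ℤ)
    (P : (Fin m → ℂ) → Matrix (Fin r) (Fin r) ℂ) (t : Fin m → ℂ) : Prop :=
  AtPoint κ w t fun _ _ act => Q1At act (pts Y t) lev (P t)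

/-- The integer parameters `a` with coordinates of absolute value at most `X` such that for an algebraic root `θ` of
`F_a` with `G_0(θ) ≠ 0` the point `t = (G_1(θ) / G_0(θ), …, G_m(θ) / G_0(θ))` is in `V`, and the equality of
the Mumford-Tate conjecture at `ℓ` does not hold for the fibre at `(t, w t)`. -/
def SmallQ1 {κ : IntermediateField ℚ Qbar} {J : Type} [Fintype J] (ω : Module.Basis J ℚ κ)
    (N' : Finset (ℕ × J)) {m r ℓ : ℕ} [Fact ℓ.Prime] {U : Set (Fin m → ℂ)} {w : (Fin m → ℂ) → ℂ}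
    (V : Set (Fin m → ℂ)) (Y : ∀ k : ℕ, CoverData κ (Fin r → ZMod (ℓ ^ k)) U w) (lev : Fin r → ℤ)
    (P : (Fin m → ℂ) → Matrix (Fin r) (Fin r) ℂ) (D e X : ℕ) : Set (DD.Px m D e J N' → ℤ) :=
  {a | (∀ p, |a p| ≤ X) ∧ ∃ θ : Qbar, polyU ω N' a θ = 0 ∧ denU ω N' a θ ≠ 0 ∧
    pointU ω N' a θ ∈ V ∧ ¬ Q1Fibre Y lev P (pointU ω N' a θ)}

end Pool.Agent.Helper79.HI
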