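import Pool.Agent.Helper79.HI.Point
import Pool.Agent.Helper79.HI.GroupBig
import Pool.Agent.Helper79.HI.Stat

/-!
# HI-25: the Mumford-Tate conjecture spreads from one fibre to most of the fibres

(helper79)
-/

set_option linter.unusedSectionVars false

namespace Pool.Agent.Helper79.HI

open Matrix Module Pool.Agent.Helper79.BB Pool.Agent.Helper79.HH Pool.Agent.Helper79.HG
  Pool.Agent.Helper64.Per Pool.Agent.Helper88.MT Pool.Agent.Helper79.DD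

/-- The base of the argument, at one point of a family: the equality holds at this point, or the Zariski closure of `Γ`
contains `ρ(G')` and the image of the Hodge circle. -/
def Known {r ℓ : ℕ} [Fact ℓ.Prime] {G : Type} [Group G] (act : G → Qbar → Qbar) {n : ℕ → ℕ}
    (y : ∀ k, (Fin r → ZMod (ℓ ^ k)) → Fin (n k) → ℂ) (lev : Fin r → ℤ)
    (P : Matrix (Fin r) (Fin r) ℂ) (Γ : Subgroup (GL (Fin r) ℤ)) : Prop :=
  ∃ ρ : G →* GL (Fin r) ℤ_[ℓ], IsGalRep act y ρ ∧ ∃ G' : Subgroup G, G'.FiniteIndex ∧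
    ((IsConn (toQl '' (G'.map ρ : Set (GL (Fin r) ℤ_[ℓ]))) ∧ IsEq lev P (G'.map ρ)) ∨
      ((∀ u a, IsHodgeElt lev P u a → a ∈ zar ℂ (qp Γ : Set (GL (Fin r) ℚ))) ∧
        ∀ σ ∈ G', toQl (ρ σ) ∈ zar ℚ_[ℓ] (qp Γ : Set (GL (Fin r) ℚ))))

theorem known_of_some {r ℓ : ℕ} [Fact ℓ.Prime] {G : Type} [Group G] {act : G → Qbar → Qbar} {n : ℕ → ℕ}
    {y : ∀ k, (Fin r → ZMod (ℓ ^ k)) → Fin (n k) → ℂ} {lev : Fin r → ℤ}
    {P : Matrix (Fin r) (Fin r) ℂ} (Γ : Subgroup (GL (Fin r) ℤ)) (h : Q1Some act y lev P) :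
    Known act y lev P Γ := by
  obtain ⟨ρ, hρ, G', hG', h1, h2⟩ := h
  exact ⟨ρ, hρ, G', hG', Or.inl ⟨h1, h2⟩⟩

theorem q1_count {κ : IntermediateField ℚ Qbar} [FiniteDimensional ℚ κ] {m : ℕ} (hm : 1 ≤ m)
    {F : FamiliesM κ m} {μ r₀ r : ℕ} (E : F.Sub μ r₀ (Fin r)) {U : Set (Fin m → ℂ)} (hU : IsOpen U)
    (hU' : IsPreconnected U) {w : (Fin m → ℂ) → ℂ} (hw : IsBranchM κ U μ w)
    {P : (Fin m → ℂ) → Matrix (Fin r) (Fin r) ℂ} (hP : E.IsPeriod U w P) {V : Set (Fin m → ℂ)}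
    (hV : DeepW F.T U V ∨ IsCompact V ∧ V ⊆ U) (hdet : ∀ t ∈ V, IsUnit (P t).det)
    {lev : Fin r → ℤ} (hlev : ∀ x, 0 ≤ lev x ∧ lev x ≤ 2) {ψ : Matrix (Fin r) (Fin r) ℤ}
    (hpol : ∀ t ∈ V, IsPolarized lev 2 (ψ.map (Int.cast : ℤ → ℚ)) (P t))
    {ℓ : ℕ} [Fact ℓ.Prime] (Y : ∀ k : ℕ, CoverData κ (Fin r → ZMod (ℓ ^ k)) U w)
    {Γ : Subgroup (GL (Fin r) ℤ)} {t₀ : Fin m → ℂ} (ht₀ : t₀ ∈ V)
    (hΓ : IsConnMono Y lev ψ P V t₀ Γ)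
    (h₀ : AtPoint κ w t₀ fun _ _ act => Known act (pts Y t₀) lev (P t₀) Γ)
    {J : Type} [Fintype J] (ω : Module.Basis J ℚ κ)
    {D : ℕ} (hD : 1 ≤ D) (e : ℕ) (N' : Finset (ℕ × J)) (hN' : ∃ j, (0, j) ∈ N') :
    ∃ C θ₀ : ℝ, 0 < θ₀ ∧ ∀ X : ℕ, 1 ≤ X → ((SmallQ1 ω N' V Y lev P D e X).ncard : ℝ) ≤
      C * (X : ℝ) ^ ((((D + 1 + m * (e + 1)) * Module.finrank ℚ κ + N'.card : ℕ) : ℝ) - θ₀) := by
  classical
  obtain ⟨ρ₀, hρ₀, G₀, hG₀, h₀⟩ := h₀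
  have hV' : DeepW F.T U V := by
    rcases hV with h | ⟨h1, h2⟩
    · exact h
    · exact deepW_compact F.T hU h1 h2
  have hVU := deepW_sub hV'
  obtain ⟨H, hHψ, -⟩ := exists_lattice hlev (hdet t₀ ht₀) (hpol t₀ ht₀)
  have hψd : ψ.det ≠ 0 := by rw [← hHψ]; exact H.det_ne_zero
  obtain ⟨K, hK⟩ : ∃ K, Level Γ ℓ K := exists_level hψd hΓ
    fun {ψ} hdet {Γ} hisom hdet1 hperf => group_big hdet hisom hdet1 hperf ℓ
  obtain ⟨C₁, θ₁, hθ₁, h₁⟩ : ∃ C θ₀ : ℝ, 0 < θ₀ ∧ ∀ X : ℕ, 1 ≤ X →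
      ((SmallMT ω N' U V w P lev 2 (ψ.map (Int.cast : ℤ → ℚ)) D e X).ncard : ℝ) ≤
      C * (X : ℝ) ^ ((((D + 1 + m * (e + 1)) * Module.finrank ℚ κ + N'.card : ℕ) : ℝ) - θ₀) := by
    rcases Nat.eq_zero_or_pos r with hr | hr
    · subst hr
      refine ⟨0, 1, one_pos, fun X _ => ?_⟩
      have : SmallMT ω N' U V w P lev 2 (ψ.map (Int.cast : ℤ → ℚ)) D e X = ∅ := by
        rw [Set.eq_empty_iff_forall_notMem]
        rintro a ⟨_, θ, _, _, _, h3⟩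
        apply h3
        intro g _ _ x _ y _
        have h4 : x * y - y * x = 0 := Subsingleton.elim _ _
        rw [h4]
        exact Submodule.zero_mem _
      rw [this, Set.ncard_empty, Nat.cast_zero, zero_mul]
    · have : Nonempty (Fin r) := ⟨⟨0, hr⟩⟩
      exact small_count hm E hU hU' hw hP (Or.inl hV') hdet hpol ω hD e N' hN'
  obtain ⟨C₂, θ₂, hθ₂, h₂⟩ := level_count hm hU hU' hw (Y K) F.T_ne hV' ω hD e N' hN'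
  obtain ⟨C, θ₀, hθ₀, hC⟩ := sum_bound (Finset.univ : Finset (Fin 2))
    (f := fun p X => if p = 0 then
      ((SmallMT ω N' U V w P lev 2 (ψ.map (Int.cast : ℤ → ℚ)) D e X).ncard : ℝ)
      else ((SmallGal ω N' (Y K) V D e X).ncard : ℝ))
    (n := (((D + 1 + m * (e + 1)) * Module.finrank ℚ κ + N'.card : ℕ) : ℝ)) (by
      intro p _
      fin_cases p
      · exact ⟨C₁, θ₁, hθ₁, h₁⟩
      · exact ⟨C₂, θ₂, hθ₂, h₂⟩)
  refine ⟨C, θ₀, hθ₀, fun X hX => le_trans ?_ (hC X hX)⟩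
  rw [Fin.sum_univ_two]
  simp only [if_true, Fin.isValue, one_ne_zero, if_false]
  have hsub : SmallQ1 ω N' V Y lev P D e X ⊆
      SmallMT ω N' U V w P lev 2 (ψ.map (Int.cast : ℤ → ℚ)) D e X ∪ SmallGal ω N' (Y K) V D e X := by
    rintro a ⟨ha, θ, hθ, hq, hθV, hne⟩
    by_contra hcon
    rw [Set.mem_union, not_or] at hcon
    obtain ⟨hA, hB⟩ := hcon
    refine hne (q1_of hw hlev hψd hΓ (hdet t₀ ht₀) (hpol t₀ ht₀) hρ₀ hG₀ h₀ hK hθV (hVU hθV)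
      (algebraic_pointU ω N' a θ) (hdet _ hθV) (hpol _ hθV) ?_ ?_)
    · by_contra hno
      exact hA ⟨ha, θ, hθ, hq, hθV, hno⟩
    · intro π hπ
      by_contra hno
      exact hB ⟨ha, θ, hθ, hq, hθV, π, hπ, hno⟩
  have hfin : (SmallMT ω N' U V w P lev 2 (ψ.map (Int.cast : ℤ → ℚ)) D e X ∪
      SmallGal ω N' (Y K) V D e X).Finite := by
    refine Set.Finite.union ?_ ?_
    · exact (AA.box_card X _ fun a ha => ha.1).1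
    · exact (AA.box_card X _ fun a ha => ha.1).1
  have h3 := (Set.ncard_le_ncard hsub hfin).trans (Set.ncard_union_le _ _)
  exact_mod_cast h3

theorem q1_spread {κ : IntermediateField ℚ Qbar} [FiniteDimensional ℚ κ] {m : ℕ} (hm : 1 ≤ m)
    {F : FamiliesM κ m} {μ r₀ r : ℕ} (E : F.Sub μ r₀ (Fin r)) {U : Set (Fin m → ℂ)} (hU : IsOpen U)
    (hU' : IsPreconnected U) {w : (Fin m → ℂ) → ℂ} (hw : IsBranchM κ U μ w)
    {P : (Fin m → ℂ) → Matrix (Fin r) (Fin r) ℂ} (hP : E.IsPeriod U w P) {V : Set (Fin m → ℂ)}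
    (hV : DeepW F.T U V ∨ IsCompact V ∧ V ⊆ U) (hdet : ∀ t ∈ V, IsUnit (P t).det)
    {lev : Fin r → ℤ} (hlev : ∀ x, 0 ≤ lev x ∧ lev x ≤ 2) {ψ : Matrix (Fin r) (Fin r) ℤ}
    (hpol : ∀ t ∈ V, IsPolarized lev 2 (ψ.map (Int.cast : ℤ → ℚ)) (P t))
    {ℓ : ℕ} [Fact ℓ.Prime] (Y : ∀ k : ℕ, CoverData κ (Fin r → ZMod (ℓ ^ k)) U w)
    {Γ : Subgroup (GL (Fin r) ℤ)} {t₀ : Fin m → ℂ} (ht₀ : t₀ ∈ V)
    (hΓ : IsConnMono Y lev ψ P V t₀ Γ)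
    (h₀ : AtPoint κ w t₀ fun _ _ act => Q1Some act (pts Y t₀) lev (P t₀))
    {J : Type} [Fintype J] (ω : Module.Basis J ℚ κ)
    {D : ℕ} (hD : 1 ≤ D) (e : ℕ) (N' : Finset (ℕ × J)) (hN' : ∃ j, (0, j) ∈ N') :
    ∃ C θ₀ : ℝ, 0 < θ₀ ∧ ∀ X : ℕ, 1 ≤ X → ((SmallQ1 ω N' V Y lev P D e X).ncard : ℝ) ≤
      C * (X : ℝ) ^ ((((D + 1 + m * (e + 1)) * Module.finrank ℚ κ + N'.card : ℕ) : ℝ) - θ₀) :=
  q1_count hm E hU hU' hw hP hV hdet hlev hpol Y ht₀ hΓ (known_of_some Γ h₀) ω hD e N' hN'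

end Pool.Agent.Helper79.HI
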