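import Pool.Agent.Helper79.HI.ZarGroup
import Pool.Agent.Helper79.HG.Conn

/-!
# HI-05: subgroups of finite index of groups with connected Zariski closure are dense

Let `Γ₀ = Γ' ⊓ Γ` and `H = zarG F Γ₀` (points over `F`).
Claim: for `a ∈ Γ`, `a ∉ H`, the ideals `vanGL F Γ₀` and `vanGL F (a Γ₀)` are comaximal. Otherwise there is a maximal ideal `M` of `GLPoly r F` which contains both. Let `K = GLPoly r F ⧸ M` (a
field, an algebra over `F`), and `x` the point of `GL r K` whose entries are the classes of the variables `some (i, j)`, and whose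
determinant has as inverse the class of `none` (`det X * X none - 1 ∈ vanGL F Γ₀ ⊆ M`): `evGL x f = class of f` for all `f`. So `x ∈ zar K Γ₀` and
`(map a)⁻¹ * x ∈ zar K Γ₀` (the left translates by `a⁻¹`, `exists_left`), and `map a = x * (a⁻¹ x)⁻¹ ∈ zarG K Γ₀` (`zarG`). For `g ∈ vanGL F Γ₀`
`algebraMap (evGL a g) = evGL (map a) g = 0`, so `evGL a g = 0`, `a ∈ H`: contradiction.
Let `a_q` be representatives of the cosets of `Γ₀` in `Γ` (finitely many). For each `a_q ∉ H` there is `e_q ∈ vanGL F (a_q Γ₀)` with `e_q - 1 ∈ vanGL F Γ₀`.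
`e = ∏ e_q` is `1` on `Γ ⊓ H` and `0` on `Γ \ H`. Its values on `Γ` are a finite set,
and `Γ` is connected: `Pool.Agent.Helper79.HG.eq_of_isConn` gives `evGL g e = evGL 1 e = 1` for all `g ∈ Γ`. So `Γ ⊆ H`.
-/

set_option linter.unusedSectionVars false

namespace Pool.Agent.Helper79.HI

open Matrix Pool.Agent.Helper88.MT Pool.Agent.Helper79.HG

/-- The generic point of a closed subscheme. -/
private theorem exists_point {r : ℕ} {F : Type} [Field F] (M : Ideal (GLPoly r F))
    {S : Set (GL (Fin r) F)} (hM : vanGL F S ≤ M) :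
    ∃ x : GL (Fin r) (GLPoly r F ⧸ M), ∀ f : GLPoly r F, evGL x f = Ideal.Quotient.mk M f := by
  classical
  set Y : Matrix (Fin r) (Fin r) (GLPoly r F) :=
    Matrix.of fun i j => (MvPolynomial.X (some (i, j)) : GLPoly r F) with hY
  have hmem : Y.det * MvPolynomial.X none - 1 ∈ vanGL F S := by
    intro g _
    have h1 : evGL g Y.det = (g : Matrix (Fin r) (Fin r) F).det := by
      rw [AlgHom.map_det]
      congr 1
      ext i j
      rw [AlgHom.mapMatrix_apply, Matrix.map_apply, hY, Matrix.of_apply, evGL,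
        MvPolynomial.aeval_X]
      rfl
    have h2 : evGL g (MvPolynomial.X none : GLPoly r F) =
        (((Matrix.GeneralLinearGroup.det g)⁻¹ : Fˣ) : F) := by
      rw [evGL, MvPolynomial.aeval_X]
      rfl
    rw [map_sub, map_mul, h1, h2, map_one, sub_eq_zero]
    exact (Matrix.GeneralLinearGroup.det g).mul_inv
  have hq : (Y.map (Ideal.Quotient.mk M)).det * Ideal.Quotient.mk M (MvPolynomial.X none) = 1 := by
    have h3 : (Y.map (Ideal.Quotient.mk M)).det = Ideal.Quotient.mk M Y.det :=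
      (RingHom.map_det (Ideal.Quotient.mk M) Y).symm
    rw [h3, ← map_mul, ← map_one (Ideal.Quotient.mk M)]
    exact Ideal.Quotient.eq.2 (hM hmem)
  have hu : IsUnit (Y.map (Ideal.Quotient.mk M)).det := IsUnit.of_mul_eq_one _ hq
  refine ⟨Matrix.GeneralLinearGroup.mk'' (Y.map (Ideal.Quotient.mk M)) hu, ?_⟩
  set x : GL (Fin r) (GLPoly r F ⧸ M) :=
    Matrix.GeneralLinearGroup.mk'' (Y.map (Ideal.Quotient.mk M)) hu with hx
  have hinv : (((Matrix.GeneralLinearGroup.det x)⁻¹ : (GLPoly r F ⧸ M)ˣ) : GLPoly r F ⧸ M) =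
      Ideal.Quotient.mk M (MvPolynomial.X none) := by
    apply Units.inv_eq_of_mul_eq_one_right
    exact hq
  have hhom : (evGL x : GLPoly r F →ₐ[F] GLPoly r F ⧸ M) = Ideal.Quotient.mkₐ F M := by
    apply MvPolynomial.algHom_ext
    intro o
    cases o with
    | none =>
      rw [evGL, MvPolynomial.aeval_X]
      exact hinv
    | some p =>
      rw [evGL, MvPolynomial.aeval_X]
      rfl
  intro f
  rw [hhom]
  rfl

/-- The closures of different cosets are disjoint. -/
private theorem comax {r : ℕ} {F : Type} [Field F] {Γ₀ : Subgroup (GL (Fin r) F)}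
    {a : GL (Fin r) F} (ha : a ∉ zar F (Γ₀ : Set (GL (Fin r) F))) :
    ∃ e : GLPoly r F, (∀ γ ∈ Γ₀, evGL (a * γ) e = 0) ∧
      e - 1 ∈ vanGL F (Γ₀ : Set (GL (Fin r) F)) := by
  classical
  set I : Ideal (GLPoly r F) := vanGL F (Γ₀ : Set (GL (Fin r) F)) with hI
  set J : Ideal (GLPoly r F) := vanGL F ((fun γ => a * γ) '' (Γ₀ : Set (GL (Fin r) F))) with hJ
  have htop : I ⊔ J = ⊤ := by
    by_contra hne
    obtain ⟨M, hM, hle⟩ := Ideal.exists_le_maximal _ hne
    have hIM : I ≤ M := le_sup_left.trans hle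
    have hJM : J ≤ M := le_sup_right.trans hle
    obtain ⟨x, hx⟩ := exists_point M hIM
    have hx1 : x ∈ zarG (GLPoly r F ⧸ M) Γ₀ := by
      intro f hf
      rw [hx]
      exact Ideal.Quotient.eq_zero_iff_mem.2 (hIM hf)
    have hx2 : Matrix.GeneralLinearGroup.map (algebraMap F (GLPoly r F ⧸ M)) a⁻¹ * x ∈
        zarG (GLPoly r F ⧸ M) Γ₀ := by
      intro f hf
      obtain ⟨f', hf'⟩ := exists_left a⁻¹ f
      rw [← hf' x, hx]
      apply Ideal.Quotient.eq_zero_iff_mem.2
      apply hJM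
      rintro _ ⟨γ, hγ, rfl⟩
      rw [hf' (a * γ)]
      have h1 : Matrix.GeneralLinearGroup.map (algebraMap F F) a⁻¹ * (a * γ) = γ := by
        have h2 : Matrix.GeneralLinearGroup.map (n := Fin r) (algebraMap F F) =
            MonoidHom.id _ := Matrix.GeneralLinearGroup.map_id
        rw [h2, MonoidHom.id_apply, inv_mul_cancel_left]
      change evGL (Matrix.GeneralLinearGroup.map (algebraMap F F) a⁻¹ * (a * γ)) f = 0
      rw [h1]
      exact hf γ hγ
    have hmap : Matrix.GeneralLinearGroup.map (algebraMap F (GLPoly r F ⧸ M)) a ∈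
        zarG (GLPoly r F ⧸ M) Γ₀ := by
      have h3 := mul_mem hx1 (inv_mem hx2)
      rw [_root_.mul_inv_rev, map_inv, inv_inv, mul_inv_cancel_left] at h3
      exact h3
    apply ha
    intro f hf
    have h4 : evGL (Matrix.GeneralLinearGroup.map (algebraMap F (GLPoly r F ⧸ M)) a) f = 0 :=
      hmap f hf
    have h5 := evGL_map (Algebra.ofId F (GLPoly r F ⧸ M)) a f
    have h6 : algebraMap F (GLPoly r F ⧸ M) (evGL a f) = 0 := by
      rw [← h4]
      exact h5.symm
    have : Nontrivial (GLPoly r F ⧸ M) := Ideal.Quotient.nontrivial_iff.2 hM.ne_top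
    exact (map_eq_zero_iff _ (algebraMap F (GLPoly r F ⧸ M)).injective).1 h6
  obtain ⟨i, hi, e, he, hie⟩ := Submodule.mem_sup.1 (htop ▸ Submodule.mem_top :
    (1 : GLPoly r F) ∈ I ⊔ J)
  refine ⟨e, fun γ hγ => he _ ⟨γ, hγ, rfl⟩, ?_⟩
  have h7 : e - 1 = -i := by rw [← hie]; ring
  rw [h7]
  exact I.neg_mem hi

/-- Subgroups of finite index of groups with connected Zariski closure are dense. -/
theorem van_of_finite {r : ℕ} {F : Type} [Field F] {Γ Γ' : Subgroup (GL (Fin r) F)}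
    (hconn : IsConn (Γ : Set (GL (Fin r) F))) (hfin : Γ'.relIndex Γ ≠ 0) {f : GLPoly r F}
    (hf : ∀ g ∈ Γ', g ∈ Γ → evGL g f = 0) : ∀ g ∈ Γ, evGL g f = 0 := by
  classical
  set Γ₀ : Subgroup (GL (Fin r) F) := Γ' ⊓ Γ with hΓ₀
  have : (Γ'.subgroupOf Γ).FiniteIndex := ⟨hfin⟩
  have : Finite (Γ ⧸ Γ'.subgroupOf Γ) := Subgroup.finite_quotient_of_finiteIndex
  have : Fintype (Γ ⧸ Γ'.subgroupOf Γ) := Fintype.ofFinite _
  have hex : ∀ a : GL (Fin r) F, ∃ e : GLPoly r F,
      e - 1 ∈ vanGL F (Γ₀ : Set (GL (Fin r) F)) ∧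
      (a ∉ zar F (Γ₀ : Set (GL (Fin r) F)) → ∀ γ ∈ Γ₀, evGL (a * γ) e = 0) := by
    intro a
    by_cases ha : a ∈ zar F (Γ₀ : Set (GL (Fin r) F))
    · refine ⟨1, by rw [sub_self]; exact zero_mem _, fun h => absurd ha h⟩
    · obtain ⟨e, h1, h2⟩ := comax ha
      exact ⟨e, h2, fun _ => h1⟩
  choose e he1 he2 using hex
  set E : GLPoly r F := ∏ q : Γ ⧸ Γ'.subgroupOf Γ, e (q.out : Γ) with hE
  have hone : ∀ g ∈ zar F (Γ₀ : Set (GL (Fin r) F)), evGL g E = 1 := by
    intro g hg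
    rw [hE, map_prod]
    refine Finset.prod_eq_one fun q _ => ?_
    have h1 := hg _ (he1 (q.out : Γ))
    rwa [map_sub, map_one, sub_eq_zero] at h1
  have hzero : ∀ g ∈ Γ, g ∉ zar F (Γ₀ : Set (GL (Fin r) F)) → evGL g E = 0 := by
    intro g hg hng
    rw [hE, map_prod]
    set q : Γ ⧸ Γ'.subgroupOf Γ := QuotientGroup.mk ⟨g, hg⟩ with hq
    have hrel : (⟨g, hg⟩ : Γ)⁻¹ * q.out ∈ Γ'.subgroupOf Γ := by
      rw [← QuotientGroup.eq]
      exact (Quotient.out_eq' q).symm
    have hγ : g⁻¹ * ((q.out : Γ) : GL (Fin r) F) ∈ Γ₀ := by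
      refine ⟨?_, ?_⟩
      · have := Subgroup.mem_subgroupOf.1 hrel
        simpa using this
      · exact Γ.mul_mem (Γ.inv_mem hg) q.out.2
    refine Finset.prod_eq_zero (i := q) (Finset.mem_univ _) ?_
    have hnq : ((q.out : Γ) : GL (Fin r) F) ∉ zar F (Γ₀ : Set (GL (Fin r) F)) := by
      intro hmem
      apply hng
      have h1 : ((q.out : Γ) : GL (Fin r) F) ∈ zarG F Γ₀ := hmem
      have h2 : g⁻¹ * ((q.out : Γ) : GL (Fin r) F) ∈ zarG F Γ₀ := by
        intro p hp
        exact hp _ hγ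
      have h3 := mul_mem h1 (inv_mem h2)
      rw [_root_.mul_inv_rev, inv_inv, mul_inv_cancel_left] at h3
      exact h3
    have h4 := he2 _ hnq _ (inv_mem hγ)
    rw [_root_.mul_inv_rev, inv_inv, mul_inv_cancel_left] at h4
    exact h4
  have h1mem : (1 : GL (Fin r) F) ∈ zar F (Γ₀ : Set (GL (Fin r) F)) := by
    intro p hp
    exact hp 1 (one_mem Γ₀)
  intro g hg
  have hcon := eq_of_isConn hconn (one_mem Γ) E (by
    refine Set.Finite.subset (Set.toFinite {(0 : F), 1}) ?_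
    rintro _ ⟨z, hz, rfl⟩
    change evGL z E ∈ ({(0 : F), 1} : Set F)
    by_cases h : z ∈ zar F (Γ₀ : Set (GL (Fin r) F))
    · right
      exact hone z h
    · left
      exact hzero z hz h) g hg
  rw [hone 1 h1mem] at hcon
  have hgz : g ∈ zar F (Γ₀ : Set (GL (Fin r) F)) := by
    by_contra h
    rw [hzero g hg h] at hcon
    exact zero_ne_one hcon
  apply hgz f
  rintro γ ⟨h1, h2⟩
  exact hf γ h1 h2

end Pool.Agent.Helper79.HI
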