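import Pool.Agent.Helper79.HI.Krull
import Pool.Agent.Helper79.HI.ConnFin
import Pool.Agent.Helper79.HI.LieBase

/-!
# HI-21: a group is contained in the closure of a group whose Lie algebra contains its Lie algebra

(helper79)
-/

set_option linter.unusedSectionVars false

namespace Pool.Agent.Helper79.HI

open Matrix Pool.Agent.Helper88.MT Pool.Agent.Helper46.GG Pool.Agent.Helper79.HG

theorem evGL_pc {r : ℕ} {k F : Type} [Field k] [Field F] [Algebra k F] (φ : F →ₗ[k] k)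
    (f : GLPoly r F) (γ : GL (Fin r) k) :
    φ (evGL (Matrix.GeneralLinearGroup.map (algebraMap k F) γ) f) = evGL γ (pc φ f) := by
  have h1 := eval_pc φ f (fun o : Option (Fin r × Fin r) =>
    o.elim (((Matrix.GeneralLinearGroup.det γ)⁻¹ : kˣ) : k) (fun p => γ p.1 p.2))
  have h2 : evGL γ (pc φ f) = MvPolynomial.eval (fun o : Option (Fin r × Fin r) =>
    o.elim (((Matrix.GeneralLinearGroup.det γ)⁻¹ : kˣ) : k) (fun p => γ p.1 p.2)) (pc φ f) := by
    rw [evGL, MvPolynomial.aeval_eq_eval]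
  rw [h2, ← h1]
  congr 1
  have h3 : evGL (Matrix.GeneralLinearGroup.map (algebraMap k F) γ) f =
      MvPolynomial.eval (fun o : Option (Fin r × Fin r) =>
        o.elim (((Matrix.GeneralLinearGroup.det
          (Matrix.GeneralLinearGroup.map (algebraMap k F) γ))⁻¹ : Fˣ) : F)
          (fun p => (Matrix.GeneralLinearGroup.map (algebraMap k F) γ) p.1 p.2)) f := by
    rw [evGL, MvPolynomial.aeval_eq_eval]
  rw [h3]
  congr 2
  funext o
  cases o with
  | none =>
    change (((Matrix.GeneralLinearGroup.det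
          (Matrix.GeneralLinearGroup.map (algebraMap k F) γ))⁻¹ : Fˣ) : F) =
          algebraMap k F (((Matrix.GeneralLinearGroup.det γ)⁻¹ : kˣ) : k)
    have h4 : Matrix.GeneralLinearGroup.det (Matrix.GeneralLinearGroup.map (algebraMap k F) γ) =
        Units.map (algebraMap k F : k →* F) (Matrix.GeneralLinearGroup.det γ) := by
      ext
      exact (RingHom.map_det (algebraMap k F) (γ : Matrix (Fin r) (Fin r) k)).symm
    rw [h4, ← map_inv]
    rfl
  | some p => rfl

/-- A nonzero element of a field extension is not killed by some functional. -/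
theorem eq_zero_of_dual {k F : Type} [Field k] [Field F] [Algebra k F] {x : F}
    (h : ∀ φ : F →ₗ[k] k, φ x = 0) : x = 0 :=
  (Module.forall_dual_apply_eq_zero_iff k x).1 h

/-- If the Lie algebra of the closure of `R'` contains the one of the connected group `Γ` then the closure of `R'` contains `Γ`. -/
theorem mem_zar_of_lie {r ℓ : ℕ} [Fact ℓ.Prime] {Γ : Subgroup (GL (Fin r) ℚ)}
    (hconn : IsConn (Γ : Set (GL (Fin r) ℚ)))
    (hdet1 : ∀ γ ∈ Γ, (γ : Matrix (Fin r) (Fin r) ℚ).det = 1) {G : Subgroup (GL (Fin r) ℚ_[ℓ])}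
    (hdetG : ∀ g ∈ G, (g : Matrix (Fin r) (Fin r) ℚ_[ℓ]).det = 1)
    (h : mspan ℚ_[ℓ] (lieS Γ) ≤ lieS G) :
    ∀ γ ∈ Γ, Matrix.GeneralLinearGroup.map (algebraMap ℚ ℚ_[ℓ]) γ ∈
      zar ℚ_[ℓ] (G : Set (GL (Fin r) ℚ_[ℓ])) := by
  set θ : GL (Fin r) ℚ →* GL (Fin r) ℚ_[ℓ] := Matrix.GeneralLinearGroup.map (algebraMap ℚ ℚ_[ℓ]) with hθ
  let J : Ideal (MvPolynomial (Fin r × Fin r) ℚ_[ℓ]) :=
    { carrier := {f | ∀ M ∈ mats G, evM M f = 0}
      add_mem' := by
        intro f g hf hg M hM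
        rw [map_add, hf M hM, hg M hM, add_zero]
      zero_mem' := by
        intro M _
        rw [map_zero]
      smul_mem' := by
        intro c f hf M hM
        rw [smul_eq_mul, map_mul, hf M hM, mul_zero] }
  have hJ : ∀ f, f ∈ J ↔ f ∈ van ℚ_[ℓ] (mats G) := fun f => mem_van_self.symm
  have hrel : (zarG ℚ_[ℓ] G).relIndex (Γ.map θ) ≠ 0 := by
    refine relIndex_ne_zero (J := J) (fun f hf => hf 1 ⟨1, G.one_mem, rfl⟩) ?_ ?_
    · intro x hx f hf
      rw [hθ, lieS_map] at hx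
      rw [hJ] at hf ⊢
      exact h hx f hf
    · rintro _ ⟨g, hg, rfl⟩ hv
      rw [mem_zarG]
      intro f hf
      have hd : ((θ g : GL (Fin r) ℚ_[ℓ]) : Matrix (Fin r) (Fin r) ℚ_[ℓ]).det = 1 := by
        have h1 : ((θ g : GL (Fin r) ℚ_[ℓ]) : Matrix (Fin r) (Fin r) ℚ_[ℓ]).det =
            algebraMap ℚ ℚ_[ℓ] (g : Matrix (Fin r) (Fin r) ℚ).det :=
          (RingHom.map_det (algebraMap ℚ ℚ_[ℓ]) (g : Matrix (Fin r) (Fin r) ℚ)).symm
        rw [h1, hdet1 g hg, map_one]
      rw [evGL_of_det hd, ← evM_toLin]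
      refine hv _ ?_
      rintro _ ⟨a, ha, rfl⟩
      rw [evM_toLin, ← evGL_of_det (hdetG a ha)]
      exact hf a ha
  have hrel' : ((zarG ℚ_[ℓ] G).comap θ).relIndex Γ ≠ 0 := by
    rwa [Subgroup.relIndex_comap]
  intro γ hγ f hf
  refine eq_zero_of_dual (k := ℚ) fun φ => ?_
  rw [evGL_pc]
  refine van_of_finite hconn hrel' ?_ γ hγ
  intro g hg _
  rw [← evGL_pc]
  have h1 : evGL (Matrix.GeneralLinearGroup.map (algebraMap ℚ ℚ_[ℓ]) g) f = 0 := hg f hf
  rw [h1, map_zero]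

end Pool.Agent.Helper79.HI
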