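import Pool.Agent.Helper79.HI.FinLie

/-!
# HI-07: an ideal stable under the Lie algebra of a group is infinitesimally contained in the ideal of the group

`P = MvPolynomial (Fin r × Fin r) F`, `𝔪 = mI 1` the maximal ideal of the point `1` (`Pool/Agent/Helper46/GG/Finite.lean`: `mI`, `mem_mI`, `taylor`, `mem_sq`), `I` the ideal of `Γ`, `𝔤 = lieS Γ`.

* `exists_euler`: there are `x_1, …, x_d ∈ 𝔤` and `ξ_1, …, ξ_d ∈ 𝔪` such that for all `f ∈ 𝔪`: `∑ i, ξ_i * der x_i f - f ∈ I ⊔ 𝔪^2`. Proof: let `x_i` be a basis of `𝔤`. For a polynomial `f` let `φ_f` be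
  the functional `x ↦ evM 1 (der x f)` on matrices (`der_add`, `der_smul`). Every functional on all matrices is some `φ_f` with `f ∈ 𝔪` (`f = ∑ c_p (X_p - 1_p)`, `evM_der_X`; see `hval`
  in the proof of `mem_sq`), so there are `ξ_i ∈ 𝔪` with `evM 1 (der x_i ξ_j) = δ_ij` (extend the dual basis of `𝔤` to all matrices: `Submodule` has a complement,
  or `LinearMap.exists_extend`). `𝔤` is the set of the `x` with `φ_g(x) = 0` for all `g ∈ I` (`mem_lieS_of_one` and `mem_lieS` at `1`), so a functional which vanishes on `𝔤` is `φ_g` for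
  some `g ∈ I` (double annihilator in finite dimension, as in `hcot` of `finite_of_lie_zero`: `Subspace.dualCoannihilator_dualAnnihilator_eq`). Now for `f ∈ 𝔪` let `f' = f - ∑ i, (evM 1 (der x_i f)) ξ_i`: `φ_(f')` vanishes on `𝔤`,
  so there is `g ∈ I` with `φ_(f') = φ_g`, and `f' - g ∈ 𝔪^2` (`mem_sq`). So `𝔪 ⊆ ∑ F ξ_i + I + 𝔪^2`. `E = ∑ ξ_i der x_i` (on polynomials) maps `I` to `I`, `𝔪` to `𝔪`, `𝔪^2` to `𝔪^2` (Leibniz), and
  `E ξ_j - ξ_j = ∑_i ξ_i (der x_i ξ_j - δ_ij) ∈ 𝔪^2`. So `E f - f ∈ I ⊔ 𝔪^2` for all `f ∈ 𝔪`.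
* `euler_pow`: for `n ≥ 0` and `f ∈ 𝔪^n`: `∑ i, ξ_i * der x_i f - n f ∈ I ⊔ 𝔪^(n+1)`: induction on `n`; for `f = a * b`, `a ∈ 𝔪`, `b ∈ 𝔪^n` (`Submodule.mul_induction_on`):
  `E (a b) - (n + 1) a b = (E a - a) b + a (E b - n b) ∈ (I ⊔ 𝔪^2) 𝔪^n + 𝔪 (I ⊔ 𝔪^(n+1))`.
* `le_sup_pow`: induction on `n`. `n = 0`: trivial; `n = 1`: `h1`. Let `n ≥ 1`, `J ≤ I ⊔ 𝔪^n`, `f ∈ J`, `f = a + b`, `a ∈ I`, `b ∈ 𝔪^n`. `E f = ∑ ξ_i * der x_i f` with `der x_i f ∈ J ≤ I ⊔ 𝔪^n`, so `E f ∈ I ⊔ 𝔪^(n+1)`.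
  `E a ∈ I`, and `E b - n b ∈ I ⊔ 𝔪^(n+1)`. So `n b ∈ I ⊔ 𝔪^(n+1)`, and `b` (characteristic zero: multiply by the constant `n⁻¹`), and `f = a + b`.
-/

set_option linter.unusedSectionVars false

namespace Pool.Agent.Helper79.HI

open Matrix Pool.Agent.Helper88.MT Pool.Agent.Helper46.GG

variable {r : ℕ} {F : Type} [Field F]

/-- The functional of the derivatives at `1`. -/
private noncomputable def euF : MvPolynomial (Fin r × Fin r) F →ₗ[F]
    Module.Dual F (Matrix (Fin r) (Fin r) F) where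
  toFun := fun f ↦
    { toFun := fun x ↦ evM (1 : Matrix (Fin r) (Fin r) F) (der x f)
      map_add' := by
        intro x y
        rw [der_add, Derivation.add_apply, map_add]
      map_smul' := by
        intro c x
        rw [der_smul, Derivation.smul_apply, map_smul, RingHom.id_apply] }
  map_add' := by
    intro f f'
    ext1 x
    change evM (1 : Matrix (Fin r) (Fin r) F) (der x (f + f')) =
      evM (1 : Matrix (Fin r) (Fin r) F) (der x f) + evM (1 : Matrix (Fin r) (Fin r) F) (der x f')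
    rw [map_add, map_add]
  map_smul' := by
    intro c f
    ext1 x
    change evM (1 : Matrix (Fin r) (Fin r) F) (der x (c • f)) =
      c • evM (1 : Matrix (Fin r) (Fin r) F) (der x f)
    rw [Derivation.map_smul, map_smul]

private lemma euF_apply (f : MvPolynomial (Fin r × Fin r) F) (x : Matrix (Fin r) (Fin r) F) :
    euF f x = evM (1 : Matrix (Fin r) (Fin r) F) (der x f) := rfl

private lemma eu_surj (l : Module.Dual F (Matrix (Fin r) (Fin r) F)) :
    ∃ f ∈ mI (1 : Matrix (Fin r) (Fin r) F), euF f = l := by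
  classical
  refine ⟨∑ p : Fin r × Fin r, MvPolynomial.C (l (Matrix.single p.1 p.2 1)) *
    (MvPolynomial.X p - MvPolynomial.C ((1 : Matrix (Fin r) (Fin r) F) p.1 p.2)),
    Ideal.sum_mem _ fun p _ ↦ Ideal.mul_mem_left _ _ (xi_mem 1 p), ?_⟩
  ext x
  rw [euF_apply, map_sum, map_sum]
  have h1 : ∀ p : Fin r × Fin r, evM (1 : Matrix (Fin r) (Fin r) F)
      (der x (MvPolynomial.C (l (Matrix.single p.1 p.2 1)) *
        (MvPolynomial.X p - MvPolynomial.C ((1 : Matrix (Fin r) (Fin r) F) p.1 p.2)))) =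
      l (Matrix.single p.1 p.2 1) * x p.1 p.2 := by
    intro p
    have e1 : der x (MvPolynomial.C (l (Matrix.single p.1 p.2 1))) = 0 :=
      Derivation.map_algebraMap _ _
    have e2 : der x (MvPolynomial.C ((1 : Matrix (Fin r) (Fin r) F) p.1 p.2)) = 0 :=
      Derivation.map_algebraMap _ _
    rw [Derivation.leibniz, e1, smul_zero, add_zero, smul_eq_mul, map_mul, evM_C, map_sub, e2,
      sub_zero, evM_der_X]
    have : x.map (algebraMap F F) = x := by ext i j; simp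
    rw [this, Matrix.one_mul]
    simp
  rw [Finset.sum_congr rfl fun p _ ↦ h1 p]
  conv_rhs => rw [Matrix.matrix_eq_sum_single x]
  rw [map_sum]
  simp only [map_sum]
  rw [← Finset.univ_product_univ, Finset.sum_product]
  refine Finset.sum_congr rfl fun i _ ↦ Finset.sum_congr rfl fun j _ ↦ ?_
  have h2 : Matrix.single i j (x i j) = x i j • Matrix.single i j (1 : F) := by
    rw [Matrix.smul_single, smul_eq_mul, mul_one]
  rw [h2, map_smul, smul_eq_mul, mul_comm]

private lemma eu_mul {I 𝔪 : Ideal (MvPolynomial (Fin r × Fin r) F)} {p q : ℕ}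
    {a c : MvPolynomial (Fin r × Fin r) F} (ha : a ∈ 𝔪 ^ p) (hc : c ∈ I ⊔ 𝔪 ^ q) :
    a * c ∈ I ⊔ 𝔪 ^ (p + q) := by
  obtain ⟨u, hu, v, hv, rfl⟩ := Submodule.mem_sup.1 hc
  rw [mul_add, pow_add]
  exact Ideal.add_mem _ (Ideal.mem_sup_left (Ideal.mul_mem_left _ _ hu))
    (Ideal.mem_sup_right (Ideal.mul_mem_mul ha hv))

/-- The derivation `∑ ξ_i der x_i`. -/
private noncomputable def euD {d : ℕ} (x : Fin d → Matrix (Fin r) (Fin r) F)
    (ξ : Fin d → MvPolynomial (Fin r × Fin r) F) :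
    Derivation F (MvPolynomial (Fin r × Fin r) F) (MvPolynomial (Fin r × Fin r) F) :=
  ∑ i, ξ i • der (x i)

private lemma euD_apply {d : ℕ} (x : Fin d → Matrix (Fin r) (Fin r) F)
    (ξ : Fin d → MvPolynomial (Fin r × Fin r) F) (f : MvPolynomial (Fin r × Fin r) F) :
    euD x ξ f = ∑ i, ξ i * der (x i) f := by
  unfold euD
  change Derivation.coeFnAddMonoidHom (∑ i, ξ i • der (x i)) f = _
  rw [map_sum, Finset.sum_apply]
  rfl

theorem exists_euler {Γ : Subgroup (GL (Fin r) F)} {I : Ideal (MvPolynomial (Fin r × Fin r) F)}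
    (hI : ∀ f, f ∈ I ↔ f ∈ van F (mats Γ)) : ∃ (d : ℕ) (x : Fin d → Matrix (Fin r) (Fin r) F)
      (ξ : Fin d → MvPolynomial (Fin r × Fin r) F), (∀ i, x i ∈ lieS Γ) ∧
      (∀ i, ξ i ∈ mI (1 : Matrix (Fin r) (Fin r) F)) ∧
      ∀ f ∈ mI (1 : Matrix (Fin r) (Fin r) F),
        ∑ i, ξ i * der (x i) f - f ∈ I ⊔ mI (1 : Matrix (Fin r) (Fin r) F) ^ 2 := by
  classical
  set 𝔪 := mI (1 : Matrix (Fin r) (Fin r) F) with h𝔪
  let b := Module.finBasis F (lieS Γ)
  let x : Fin (Module.finrank F (lieS Γ)) → Matrix (Fin r) (Fin r) F := fun i ↦ (b i : _)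
  have hx : ∀ i, x i ∈ lieS Γ := fun i ↦ (b i).2
  have hlam : ∀ i, ∃ l : Module.Dual F (Matrix (Fin r) (Fin r) F), ∀ y (hy : y ∈ lieS Γ),
      l y = b.repr ⟨y, hy⟩ i := by
    intro i
    obtain ⟨g, hg⟩ := LinearMap.exists_extend (p := lieS Γ) (b.coord i)
    refine ⟨g, fun y hy ↦ ?_⟩
    have h1 := LinearMap.congr_fun hg ⟨y, hy⟩
    exact h1
  choose l hl using hlam
  choose ξ hξ hξl using fun i ↦ eu_surj (l i)
  -- functionals which vanish on the Lie algebra
  have hann : ∀ k : Module.Dual F (Matrix (Fin r) (Fin r) F), (∀ y ∈ lieS Γ, k y = 0) →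
      ∃ g ∈ I, euF g = k := by
    intro k hk
    let I' : Submodule F (MvPolynomial (Fin r × Fin r) F) := I.restrictScalars F
    have h1 : (I'.map euF).dualCoannihilator ≤ lieS Γ := by
      intro y hy
      rw [Submodule.mem_dualCoannihilator] at hy
      apply mem_lieS_of_one
      intro f hf
      exact hy (euF f) ⟨f, (hI f).2 hf, rfl⟩
    have h2 : k ∈ (I'.map euF).dualCoannihilator.dualAnnihilator := by
      rw [Submodule.mem_dualAnnihilator]
      intro y hy
      exact hk y (h1 hy)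
    rw [Subspace.dualCoannihilator_dualAnnihilator_eq] at h2
    obtain ⟨g, hg, hgk⟩ := h2
    exact ⟨g, hg, hgk⟩
  have hI1 : ∀ g ∈ I, evM (1 : Matrix (Fin r) (Fin r) F) g = 0 := by
    intro g hg
    exact mem_van_self.mp ((hI g).1 hg) _ ⟨1, Γ.one_mem, rfl⟩
  refine ⟨_, x, ξ, hx, hξ, fun f hf ↦ ?_⟩
  rw [← euD_apply]
  set E := euD x ξ with hE
  -- `E` and the ideals
  have hEI : ∀ g ∈ I, E g ∈ I := by
    intro g hg
    rw [hE, euD_apply]
    refine Ideal.sum_mem _ fun i _ ↦ Ideal.mul_mem_left _ _ ?_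
    rw [hI]
    exact hx i g ((hI g).1 hg)
  have hEm : ∀ g, E g ∈ 𝔪 := by
    intro g
    rw [hE, euD_apply]
    exact Ideal.sum_mem _ fun i _ ↦ Ideal.mul_mem_right _ _ (hξ i)
  have hEm2 : ∀ g ∈ 𝔪 ^ 2, E g ∈ 𝔪 ^ 2 := by
    intro g hg
    rw [pow_two] at hg ⊢
    refine Submodule.mul_induction_on hg ?_ ?_
    · intro a ha c hc
      rw [Derivation.leibniz, smul_eq_mul, smul_eq_mul]
      exact Ideal.add_mem _ (Ideal.mul_mem_mul ha (hEm c)) (Ideal.mul_mem_mul hc (hEm a))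
    · intro a c ha hc
      rw [map_add]
      exact Ideal.add_mem _ ha hc
  have hEξ : ∀ j, E (ξ j) - ξ j ∈ 𝔪 ^ 2 := by
    intro j
    have h1 : E (ξ j) - ξ j = ∑ i, ξ i * (der (x i) (ξ j) - MvPolynomial.C (if i = j then 1 else 0)) := by
      rw [hE, euD_apply]
      simp only [mul_sub, Finset.sum_sub_distrib]
      congr 1
      rw [Finset.sum_eq_single j]
      · simp
      · intro i _ hi
        simp [hi]
      · intro h; exact absurd (Finset.mem_univ j) h
    rw [h1, pow_two]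
    refine Ideal.sum_mem _ fun i _ ↦ Ideal.mul_mem_mul (hξ i) ?_
    rw [mem_mI, map_sub, evM_C, ← euF_apply, hξl, hl j (x i) (hx i)]
    have h2 : (⟨x i, hx i⟩ : lieS Γ) = b i := rfl
    rw [h2, b.repr_self, Finsupp.single_apply]
    exact sub_self _
  -- decomposition of `f`
  obtain ⟨g, hg, hgf⟩ := hann (euF (f - ∑ i, MvPolynomial.C (euF f (x i)) * ξ i)) (by
    intro y hy
    have h1 : (⟨y, hy⟩ : lieS Γ) = ∑ j, b.repr ⟨y, hy⟩ j • b j := (b.sum_repr _).symm
    have h2 : y = ∑ j, b.repr ⟨y, hy⟩ j • x j := by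
      have := congrArg (Submodule.subtype (lieS Γ)) h1
      rw [map_sum] at this
      simpa using this
    have h3 : ∀ j, euF (f - ∑ i, MvPolynomial.C (euF f (x i)) * ξ i) (x j) = 0 := by
      intro j
      have h4 : ∀ i, MvPolynomial.C (euF f (x i)) * ξ i = euF f (x i) • ξ i :=
        fun i ↦ (MvPolynomial.smul_eq_C_mul _ _).symm
      simp only [h4]
      rw [map_sub, map_sum, LinearMap.sub_apply, LinearMap.sum_apply, Finset.sum_eq_single j]
      · rw [map_smul, LinearMap.smul_apply, hξl, hl j (x j) (hx j)]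
        have h5 : (⟨x j, hx j⟩ : lieS Γ) = b j := rfl
        rw [h5, b.repr_self, Finsupp.single_eq_same, smul_eq_mul, mul_one, sub_self]
      · intro i _ hi
        rw [map_smul, LinearMap.smul_apply, hξl, hl i (x j) (hx j)]
        have h5 : (⟨x j, hx j⟩ : lieS Γ) = b j := rfl
        rw [h5, b.repr_self, Finsupp.single_eq_of_ne hi, smul_zero]
      · intro h; exact absurd (Finset.mem_univ j) h
    rw [h2, map_sum]
    refine Finset.sum_eq_zero fun j _ ↦ ?_
    rw [map_smul, h3, smul_zero])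
  set s := f - ∑ i, MvPolynomial.C (euF f (x i)) * ξ i - g with hs
  have hs2 : s ∈ 𝔪 ^ 2 := by
    apply mem_sq (by rw [Matrix.det_one]; exact isUnit_one)
    · rw [hs, map_sub, map_sub, mem_mI.1 hf, map_sum, hI1 g hg, sub_zero, zero_sub, neg_eq_zero]
      refine Finset.sum_eq_zero fun i _ ↦ ?_
      rw [map_mul, mem_mI.1 (hξ i), mul_zero]
    · intro y
      rw [← euF_apply, hs, map_sub euF, hgf, sub_self, LinearMap.zero_apply]
  have hfs : f = ∑ i, MvPolynomial.C (euF f (x i)) * ξ i + g + s := by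
    rw [hs]; ring
  have h6 : E f - f = ∑ i, MvPolynomial.C (euF f (x i)) * (E (ξ i) - ξ i) + (E g - g) + (E s - s) := by
    conv_lhs => rw [hfs]
    rw [map_add, map_add, map_sum]
    have h7 : ∀ i, E (MvPolynomial.C (euF f (x i)) * ξ i) =
        MvPolynomial.C (euF f (x i)) * E (ξ i) := by
      intro i
      rw [← MvPolynomial.smul_eq_C_mul, Derivation.map_smul, MvPolynomial.smul_eq_C_mul]
    simp only [h7, mul_sub, Finset.sum_sub_distrib]
    ring
  rw [h6]
  refine Ideal.add_mem _ (Ideal.add_mem _ ?_ ?_) ?_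
  · exact Ideal.sum_mem _ fun i _ ↦ Ideal.mem_sup_right (Ideal.mul_mem_left _ _ (hEξ i))
  · exact Ideal.mem_sup_left (Ideal.sub_mem _ (hEI g hg) hg)
  · exact Ideal.mem_sup_right (Ideal.sub_mem _ (hEm2 s hs2) hs2)

private theorem euler_pow {I : Ideal (MvPolynomial (Fin r × Fin r) F)} {d : ℕ}
    {x : Fin d → Matrix (Fin r) (Fin r) F} {ξ : Fin d → MvPolynomial (Fin r × Fin r) F}
    (hξ : ∀ i, ξ i ∈ mI (1 : Matrix (Fin r) (Fin r) F))
    (h : ∀ f ∈ mI (1 : Matrix (Fin r) (Fin r) F),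
        ∑ i, ξ i * der (x i) f - f ∈ I ⊔ mI (1 : Matrix (Fin r) (Fin r) F) ^ 2) (n : ℕ) :
    ∀ f ∈ mI (1 : Matrix (Fin r) (Fin r) F) ^ n,
      euD x ξ f - (n : MvPolynomial (Fin r × Fin r) F) * f ∈
        I ⊔ mI (1 : Matrix (Fin r) (Fin r) F) ^ (n + 1) := by
  induction n with
  | zero =>
    intro f _
    rw [Nat.cast_zero, zero_mul, sub_zero, euD_apply, zero_add, pow_one]
    exact Ideal.mem_sup_right (Ideal.sum_mem _ fun i _ ↦ Ideal.mul_mem_right _ _ (hξ i))
  | succ n ih =>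
    intro f hf
    rw [pow_succ] at hf
    refine Submodule.mul_induction_on hf ?_ ?_
    · intro a ha c hc
      have h1 := h c hc
      rw [← euD_apply] at h1
      have h2 : euD x ξ (a * c) - ((n + 1 : ℕ) : MvPolynomial (Fin r × Fin r) F) * (a * c) =
          a * (euD x ξ c - c) + c * (euD x ξ a - (n : MvPolynomial (Fin r × Fin r) F) * a) := by
        rw [Derivation.leibniz, smul_eq_mul, smul_eq_mul]
        push_cast
        ring
      rw [h2]
      refine Ideal.add_mem _ (eu_mul (p := n) (q := 2) ha h1) ?_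
      have h3 := eu_mul (p := 1) (by rw [pow_one]; exact hc) (ih a ha)
      rwa [Nat.add_comm 1 (n + 1)] at h3
    · intro a c ha hc
      rw [map_add, mul_add, add_sub_add_comm]
      exact Ideal.add_mem _ ha hc

theorem le_sup_pow [CharZero F] {Γ : Subgroup (GL (Fin r) F)}
    {I J : Ideal (MvPolynomial (Fin r × Fin r) F)} (hI : ∀ f, f ∈ I ↔ f ∈ van F (mats Γ))
    (h1 : ∀ f ∈ J, evM (1 : Matrix (Fin r) (Fin r) F) f = 0)
    (hJ : ∀ x ∈ lieS Γ, ∀ f ∈ J, der x f ∈ J) (n : ℕ) :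
    J ≤ I ⊔ mI (1 : Matrix (Fin r) (Fin r) F) ^ n := by
  obtain ⟨d, x, ξ, hx, hξ, h⟩ := exists_euler hI
  induction n with
  | zero =>
    rw [pow_zero, Ideal.one_eq_top, sup_top_eq]
    exact le_top
  | succ n ih =>
    rcases Nat.eq_zero_or_pos n with rfl | hn
    · rw [zero_add, pow_one]
      exact fun f hf ↦ Ideal.mem_sup_right (mem_mI.2 (h1 f hf))
    · intro f hf
      obtain ⟨a, ha, b, hb, hab⟩ := Submodule.mem_sup.1 (ih hf)
      have h2 : euD x ξ f ∈ I ⊔ mI (1 : Matrix (Fin r) (Fin r) F) ^ (n + 1) := by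
        rw [euD_apply]
        refine Ideal.sum_mem _ fun i _ ↦ ?_
        have h3 := eu_mul (p := 1) (by rw [pow_one]; exact hξ i) (ih (hJ (x i) (hx i) f hf))
        rwa [Nat.add_comm 1 n] at h3
      have h3 : euD x ξ a ∈ I := by
        rw [euD_apply]
        refine Ideal.sum_mem _ fun i _ ↦ Ideal.mul_mem_left _ _ ?_
        rw [hI]
        exact hx i a ((hI a).1 ha)
      have h4 := euler_pow hξ h n b hb
      have h5 : (n : MvPolynomial (Fin r × Fin r) F) * b ∈
          I ⊔ mI (1 : Matrix (Fin r) (Fin r) F) ^ (n + 1) := by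
        have h6 : (n : MvPolynomial (Fin r × Fin r) F) * b = euD x ξ f - euD x ξ a -
            (euD x ξ b - (n : MvPolynomial (Fin r × Fin r) F) * b) := by
          rw [← hab, map_add]; ring
        rw [h6]
        exact Ideal.sub_mem _ (Ideal.sub_mem _ h2 (Ideal.mem_sup_left h3)) h4
      have h7 : b = MvPolynomial.C ((n : F)⁻¹) * ((n : MvPolynomial (Fin r × Fin r) F) * b) := by
        have hn0 : (n : F) ≠ 0 := Nat.cast_ne_zero.2 hn.ne'
        have h8 : (n : MvPolynomial (Fin r × Fin r) F) = MvPolynomial.C (n : F) := by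
          rw [map_natCast]
        rw [h8, ← mul_assoc, ← MvPolynomial.C_mul, inv_mul_cancel₀ hn0, MvPolynomial.C_1, one_mul]
      rw [← hab]
      refine Ideal.add_mem _ (Ideal.mem_sup_left ha) ?_
      rw [h7]
      exact Ideal.mul_mem_left _ _ h5

end Pool.Agent.Helper79.HI
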