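import Pool.Agent.Helper79.HI.ZarGroup
import Pool.Agent.Helper46.GG.Main

/-!
# HI-06: subgroups of finite index have the same Lie algebra

`lieS`, `exists_translate_right`, `dualM_mul_map` (right translations): `Pool/Agent/Helper46/GG/Main.lean`; `map_mul_dualM` (`GG/Finite.lean`), `exists_translate` (`Helper88/MT/Dual.lean`), `toLin`,
`evGL_of_det`, `evM_toLin`, `evGL_rename` (`Helper88/MT/MTComp.lean`), `mem_van_self`, `mats`.

As `det = 1` on `Γ`, for `f : GLPoly r F` and `g ∈ Γ`: `evGL g f = evM g (toLin f)`, and for a polynomial `p` in the entries `evM g p = evGL g (rename some p)`.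
* `mem_lieS_of_one`: if `evM 1 (der x f) = 0` for all `f ∈ van F (mats Γ)`, then `x ∈ lieS Γ`: for `g ∈ Γ` the left translate `f_g` of `f` (`exists_translate g f`, `f_g(A) = f(g A)`) is
  in `van`, and `evM g (der x f) = evM 1 (der x f_g)` (compare `evM_dualM` at `dualM 1 x` and `g * dualM 1 x = dualM g x`, `map_mul_dualM`; as in `htan` of
  `GG/Finite.lean`, or `der_mem_van_of_tangent` if it exists).
* main theorem: let `C` be the finite set of the cosets of `Γ'` in `Γ`. For `a ∈ Γ` one of the following holds: (1) `a ∈ zar F Γ'` (a group, `zarG`): then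
  every `f ∈ vanGL F Γ'` vanishes on `a Γ'` (`a Γ' ⊆ zar F Γ'`); (2) `a ∉ zar F Γ'`, so `a⁻¹ ∉ zar F Γ'`: there is `h ∈ vanGL F Γ'` with `evGL a⁻¹ h ≠ 0`, and its left translate `h_a(y) = h(a⁻¹ y)` vanishes on `a Γ'` and is not zero at `1`. Let `e` be the
  product of the `h_a` for representatives `a` of the cosets of kind (2) (as polynomials in the entries: `toLin`). For `f ∈ van F (mats Γ')` the product `e f` vanishes on `Γ` (a coset of kind (1) or (2)), so for `x ∈ lieS Γ`
  `0 = evM 1 (der x (e f)) = evM 1 e * evM 1 (der x f) + evM 1 f * evM 1 (der x e)` (Leibniz) and `evM 1 f = 0`, `evM 1 e ≠ 0`. So `evM 1 (der x f) = 0`, and `mem_lieS_of_one`.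
-/

set_option linter.unusedSectionVars false

namespace Pool.Agent.Helper79.HI

open Matrix Pool.Agent.Helper88.MT Pool.Agent.Helper46.GG

variable {r : ℕ} {F : Type} [Field F]

theorem mem_lieS_of_one {Γ : Subgroup (GL (Fin r) F)} {x : Matrix (Fin r) (Fin r) F}
    (h : ∀ f ∈ van F (mats Γ), evM (1 : Matrix (Fin r) (Fin r) F) (der x f) = 0) : x ∈ lieS Γ := by
  intro f hf
  rw [mem_van_self]
  rintro _ ⟨g, hg, rfl⟩
  obtain ⟨f', hf'⟩ := exists_translate (g : Matrix (Fin r) (Fin r) F) f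
  have h2 : f' ∈ van F (mats Γ) := by
    rw [mem_van_self]
    rintro _ ⟨a, ha, rfl⟩
    rw [hf']
    have e1 : (g : Matrix (Fin r) (Fin r) F).map (algebraMap F F) =
        (g : Matrix (Fin r) (Fin r) F) := by ext i j; simp
    rw [e1]
    exact mem_van_self.mp hf _ ⟨g * a, Γ.mul_mem hg ha, rfl⟩
  have h3 := h f' h2
  have h4 := hf' (dualM (1 : Matrix (Fin r) (Fin r) F) x)
  rw [map_mul_dualM, Matrix.mul_one, evM_dualM, evM_dualM, h3] at h4
  have h5 := congrArg TrivSqZeroExt.snd h4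
  simp only [TrivSqZeroExt.snd_add, TrivSqZeroExt.snd_inl, TrivSqZeroExt.snd_inr,
    zero_add] at h5
  exact h5.symm

/-- Composition with the adjugate. -/
private theorem h86_adj (f : MvPolynomial (Fin r × Fin r) F) :
    ∃ f' : MvPolynomial (Fin r × Fin r) F, ∀ A : Matrix (Fin r) (Fin r) F,
      evM A f' = evM A.adjugate f := by
  set G : Matrix (Fin r) (Fin r) (MvPolynomial (Fin r × Fin r) F) :=
    Matrix.of fun i j => MvPolynomial.X (i, j) with hG
  refine ⟨MvPolynomial.aeval (fun p : Fin r × Fin r => G.adjugate p.1 p.2) f, ?_⟩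
  intro A
  have h1 : (evM A : MvPolynomial (Fin r × Fin r) F →ₐ[F] F).toRingHom.mapMatrix G = A := by
    ext i j
    simp [hG, evM]
  have h2 : ∀ p : Fin r × Fin r, evM A (G.adjugate p.1 p.2) = A.adjugate p.1 p.2 := by
    intro p
    have h3 := RingHom.map_adjugate
      (evM A : MvPolynomial (Fin r × Fin r) F →ₐ[F] F).toRingHom G
    rw [h1] at h3
    rw [← h3]
    rfl
  rw [MvPolynomial.comp_aeval_apply]
  unfold evM
  congr 2
  funext p
  exact h2 p

private theorem h86_adj_inv (a : GL (Fin r) F) (h : (a : Matrix (Fin r) (Fin r) F).det = 1) :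
    (a : Matrix (Fin r) (Fin r) F).adjugate = ((a⁻¹ : GL (Fin r) F) : Matrix (Fin r) (Fin r) F) := by
  rw [Matrix.coe_units_inv, Matrix.inv_def, h, Ring.inverse_one, one_smul]

/-- Subgroups of finite index have the same Lie algebra. -/
theorem lieS_le_of_finite {Γ Γ' : Subgroup (GL (Fin r) F)}
    (hdet : ∀ g ∈ Γ, (g : Matrix (Fin r) (Fin r) F).det = 1) (hle : Γ' ≤ Γ)
    (hfin : Γ'.relIndex Γ ≠ 0) : lieS Γ ≤ lieS Γ' := by
  classical
  intro x hx
  have hid : ∀ A : Matrix (Fin r) (Fin r) F, A.map (algebraMap F F) = A := fun A => by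
    ext i j; simp
  -- the polynomial which belongs to a coset
  have key : ∀ a ∈ Γ, ∃ e : MvPolynomial (Fin r × Fin r) F,
      evM (1 : Matrix (Fin r) (Fin r) F) e ≠ 0 ∧ ∀ f ∈ van F (mats Γ'), ∀ g ∈ Γ',
        evM ((a * g : GL (Fin r) F) : Matrix (Fin r) (Fin r) F) (e * f) = 0 := by
    intro a ha
    by_cases hcase : ∀ h ∈ van F (mats Γ'),
        evM ((a⁻¹ : GL (Fin r) F) : Matrix (Fin r) (Fin r) F) h = 0
    · refine ⟨1, by rw [map_one]; exact one_ne_zero, fun f hf g hg => ?_⟩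
      rw [one_mul]
      -- right translate by `g`
      obtain ⟨f₁, hf₁⟩ := exists_translate_right (g : Matrix (Fin r) (Fin r) F) f
      have h1 : f₁ ∈ van F (mats Γ') := by
        rw [mem_van_self]
        rintro _ ⟨b, hb, rfl⟩
        rw [hf₁, hid]
        exact mem_van_self.mp hf _ ⟨b * g, Γ'.mul_mem hb hg, rfl⟩
      obtain ⟨f₂, hf₂⟩ := h86_adj f₁
      have h2 : f₂ ∈ van F (mats Γ') := by
        rw [mem_van_self]
        rintro _ ⟨b, hb, rfl⟩
        rw [hf₂, h86_adj_inv b (hdet b (hle hb))]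
        exact mem_van_self.mp h1 _ ⟨b⁻¹, Γ'.inv_mem hb, rfl⟩
      have h3 := hcase f₂ h2
      rw [hf₂, h86_adj_inv a⁻¹ (hdet _ (Γ.inv_mem ha)), inv_inv, hf₁, hid] at h3
      exact h3
    · push Not at hcase
      obtain ⟨h, hh, hne⟩ := hcase
      obtain ⟨h', hh'⟩ := exists_translate ((a⁻¹ : GL (Fin r) F) : Matrix (Fin r) (Fin r) F) h
      refine ⟨h', ?_, fun f hf g hg => ?_⟩
      · rw [hh', hid, Matrix.mul_one]
        exact hne
      · rw [map_mul, hh', hid, ← Units.val_mul, inv_mul_cancel_left,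
          mem_van_self.mp hh _ ⟨g, hg, rfl⟩, zero_mul]
  -- the cosets
  have hfi : (Γ'.subgroupOf Γ).FiniteIndex := ⟨hfin⟩
  let Q := Γ ⧸ Γ'.subgroupOf Γ
  have hQ : Finite Q := Subgroup.finite_quotient_of_finiteIndex
  have hQf : Fintype Q := Fintype.ofFinite Q
  choose e he1 he2 using fun q : Q => key (q.out : GL (Fin r) F) q.out.2
  refine mem_lieS_of_one fun f hf => ?_
  set E : MvPolynomial (Fin r × Fin r) F := ∏ q : Q, e q with hE
  have hE1 : evM (1 : Matrix (Fin r) (Fin r) F) E ≠ 0 := by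
    rw [hE, map_prod, Finset.prod_ne_zero_iff]
    exact fun q _ => he1 q
  have hEf : E * f ∈ van F (mats Γ) := by
    rw [mem_van_self]
    rintro _ ⟨g, hg, rfl⟩
    let q : Q := QuotientGroup.mk (⟨g, hg⟩ : Γ)
    have hq : (q.out)⁻¹ * (⟨g, hg⟩ : Γ) ∈ Γ'.subgroupOf Γ := by
      rw [← QuotientGroup.eq]
      exact QuotientGroup.out_eq' q
    rw [Subgroup.mem_subgroupOf] at hq
    have h1 := he2 q f hf _ hq
    have h2 : ((q.out : Γ) : GL (Fin r) F) * (((q.out)⁻¹ * (⟨g, hg⟩ : Γ) : Γ) : GL (Fin r) F) = g := by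
      simp
    rw [h2, map_mul] at h1
    rw [map_mul]
    rcases mul_eq_zero.mp h1 with h3 | h3
    · rw [hE, map_prod, Finset.prod_eq_zero (Finset.mem_univ q) h3, zero_mul]
    · rw [h3, mul_zero]
  have h1 := mem_van_self.mp (hx (E * f) hEf) 1 ⟨1, Γ.one_mem, rfl⟩
  have h2 : evM (1 : Matrix (Fin r) (Fin r) F) f = 0 :=
    mem_van_self.mp hf 1 ⟨1, Γ'.one_mem, rfl⟩
  rw [Derivation.leibniz, map_add, smul_eq_mul, smul_eq_mul, map_mul, map_mul, h2, zero_mul,
    add_zero] at h1
  exact (mul_eq_zero.mp h1).resolve_left hE1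

end Pool.Agent.Helper79.HI
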