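import Pool.Agent.Helper79.HG.Lattice

/-!
# HI-16: the Mumford-Tate group at a point

`exists_lattice`, `MTat_eq` (`Pool/Agent/Helper79/HG/Lattice.lean`): for a polarised Hodge structure `(lev, P)` there is `H : HodgeLattice r` with `H.ψ = ψ`, `H.D` the Hodge operator, and `MTat lev P = H.MTGroup`; inside the proof of `MTat_eq`:
`IsHodgeElt lev P u a ↔ H.IsHodgeElement u a` (`key`, `hiff`).

* `MTat_closed`: `→` by definition of `vanGL`. `←`: let `S` be one of the groups in the infimum, with equations `Q`: `MTat ≤ S` (`sInf_le`), so `Q ⊆ vanGL ℚ MTat`, so `a ∈ S`. (`Subgroup.mem_sInf`.)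
* `isHodgeElt_mem`, `MTat_le`: `Subgroup.mem_sInf`, `sInf_le`.
* `exists_hodgeElt`: `a = ofDet (hodM H.D u) _` (`hodge_elt_mem` in `Helper88/MT/MTGroup.lean`; `H.IsHodgeElement u a` by definition), then the equivalence.
* `MTat_isom`: `{a | aᵀ ψ a = ψ, det a = 1}` (see `SOGroup` in `Helper88/MT/MTComp.lean`, `mem_SOGroup`, and the first half of the proof of `mem_MTGroup_of_lie` in `HG/MTLie.lean`: `MTGroup ≤ SOGroup H ℂ`).
-/

set_option linter.unusedSectionVars false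

namespace Pool.Agent.Helper79.HI

open Matrix Pool.Agent.Helper79.HH Pool.Agent.Helper79.HG Pool.Agent.Helper88.MT

variable {r : ℕ} {lev : Fin r → ℤ} {P : Matrix (Fin r) (Fin r) ℂ}

private theorem MTat_le_aux {S : Subgroup (GL (Fin r) ℂ)}
    (hS : ∃ Q : Set (GLPoly r ℚ), ∀ a : GL (Fin r) ℂ, a ∈ S ↔ ∀ f ∈ Q, evGL a f = 0)
    (h : ∀ u a, IsHodgeElt lev P u a → a ∈ S) : MTat lev P ≤ S := by
  unfold MTat
  exact sInf_le ⟨hS, h⟩

theorem MTat_closed (a : GL (Fin r) ℂ) :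
    a ∈ MTat lev P ↔ ∀ f ∈ vanGL ℚ (MTat lev P : Set (GL (Fin r) ℂ)), evGL a f = 0 := by
  constructor
  · intro ha f hf
    exact hf a ha
  · intro h
    rw [MTat, Subgroup.mem_sInf]
    rintro S ⟨⟨Q, hQ⟩, hS⟩
    rw [hQ]
    intro f hf
    apply h
    intro b hb
    exact (hQ b).1 (MTat_le_aux ⟨Q, hQ⟩ hS hb) f hf

theorem isHodgeElt_mem {u : ℂ} {a : GL (Fin r) ℂ} (h : IsHodgeElt lev P u a) : a ∈ MTat lev P := by
  rw [MTat, Subgroup.mem_sInf]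
  rintro S ⟨-, hS⟩
  exact hS u a h

theorem MTat_le {S : Subgroup (GL (Fin r) ℂ)}
    (hS : ∃ Q : Set (GLPoly r ℚ), ∀ a : GL (Fin r) ℂ, a ∈ S ↔ ∀ f ∈ Q, evGL a f = 0)
    (h : ∀ u a, IsHodgeElt lev P u a → a ∈ S) : MTat lev P ≤ S :=
  MTat_le_aux hS h

private theorem hodM_mulVec {H : HodgeLattice r}
    (hD : ∀ p, ∀ v ∈ hodgePart lev 2 P p, H.D *ᵥ v = ((p - 1 : ℤ) : ℂ) • v) {u : ℂ} (hu : ‖u‖ = 1)
    (p : ℤ) (v : Fin r → ℂ) (hv : v ∈ hodgePart lev 2 P p) :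
    ((1 - H.D ^ 2) + u • ((2 : ℂ)⁻¹ • (H.D ^ 2 + H.D)) +
        u⁻¹ • ((2 : ℂ)⁻¹ • (H.D ^ 2 - H.D))) *ᵥ v = u ^ (p - 1) • v := by
  have h1 : H.D *ᵥ v = ((p - 1 : ℤ) : ℂ) • v := hD p v hv
  have h2 : H.D ^ 2 *ᵥ v = (((p - 1 : ℤ) : ℂ) * ((p - 1 : ℤ) : ℂ)) • v := by
    rw [pow_two, ← Matrix.mulVec_mulVec, h1, Matrix.mulVec_smul, h1, smul_smul]
  by_cases hv0 : v = 0
  · rw [hv0, Matrix.mulVec_zero, smul_zero]
  have h3 : ((p - 1 : ℤ) : ℂ) ^ 3 = ((p - 1 : ℤ) : ℂ) := by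
    have h4 : H.D ^ 3 *ᵥ v = H.D *ᵥ v := by rw [H.cube]
    rw [pow_succ, ← Matrix.mulVec_mulVec, h1, Matrix.mulVec_smul, h2, smul_smul] at h4
    obtain ⟨x, hx⟩ := Function.ne_iff.mp hv0
    have h5 := congrFun h4 x
    simp only [Pi.smul_apply, smul_eq_mul] at h5
    have h6 := mul_right_cancel₀ hx h5
    linear_combination h6
  have h4 : (p - 1) ^ 3 = p - 1 := by exact_mod_cast h3
  have h5 : p = 0 ∨ p = 1 ∨ p = 2 := by
    have h6 : p * ((p - 1) * (p - 2)) = 0 := by linear_combination h4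
    rcases mul_eq_zero.mp h6 with h | h
    · exact Or.inl h
    rcases mul_eq_zero.mp h with h | h
    · exact Or.inr (Or.inl (by omega))
    · exact Or.inr (Or.inr (by omega))
  rw [Matrix.add_mulVec, Matrix.add_mulVec, Matrix.sub_mulVec, Matrix.one_mulVec,
    Matrix.smul_mulVec, Matrix.smul_mulVec, Matrix.smul_mulVec,
    Matrix.smul_mulVec, Matrix.add_mulVec, Matrix.sub_mulVec, h1, h2]
  have hu0 : u ≠ 0 := by
    intro h0
    rw [h0, norm_zero] at hu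
    exact zero_ne_one hu
  funext x
  simp only [Pi.add_apply, Pi.sub_apply, Pi.smul_apply, smul_eq_mul]
  rcases h5 with h5 | h5 | h5
  · subst h5
    rw [show (0 : ℤ) - 1 = -1 by norm_num, _root_.zpow_neg_one]
    push_cast
    ring
  · subst h5
    rw [show (1 : ℤ) - 1 = 0 by norm_num, zpow_zero]
    push_cast
    ring
  · subst h5
    rw [show (2 : ℤ) - 1 = 1 by norm_num, zpow_one]
    push_cast
    ring

theorem exists_hodgeElt (hlev : ∀ x, 0 ≤ lev x ∧ lev x ≤ 2) (hP : IsUnit P.det)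
    {ψ : Matrix (Fin r) (Fin r) ℤ} (hpol : IsPolarized lev 2 (ψ.map (Int.cast : ℤ → ℚ)) P) {u : ℂ}
    (hu : ‖u‖ = 1) : ∃ a, IsHodgeElt lev P u a := by
  obtain ⟨H, -, hD⟩ := exists_lattice hlev hP hpol
  refine ⟨ofDet (hodM H.D u) (hodge_elt_mem H hu).2.1, hu, fun p v hv => ?_⟩
  rw [ofDet_coe]
  exact hodM_mulVec hD hu p v hv

private theorem MTGroup_le (H : HodgeLattice r) : H.MTGroup ≤ SOGroup H ℂ := by
  intro a ha
  rw [HodgeLattice.MTGroup, Subgroup.mem_sInf] at ha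
  apply ha
  refine ⟨⟨(MvPolynomial.rename some) '' (soEqs H), ?_⟩, ?_⟩
  · intro a
    rw [mem_SOGroup, ← soEqs_iff]
    constructor
    · rintro h _ ⟨p, hp, rfl⟩
      rw [evGL_rename]
      exact h p hp
    · intro h p hp
      have := h _ ⟨p, hp, rfl⟩
      rwa [evGL_rename] at this
  · rintro u a ⟨hu, ha⟩
    rw [mem_SOGroup, ha]
    exact hodge_elt_mem H hu

theorem MTat_isom (hlev : ∀ x, 0 ≤ lev x ∧ lev x ≤ 2) (hP : IsUnit P.det)
    {ψ : Matrix (Fin r) (Fin r) ℤ} (hpol : IsPolarized lev 2 (ψ.map (Int.cast : ℤ → ℚ)) P)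
    {a : GL (Fin r) ℂ} (ha : a ∈ MTat lev P) :
    (a : Matrix (Fin r) (Fin r) ℂ)ᵀ * ψ.map (Int.cast : ℤ → ℂ) * a = ψ.map (Int.cast : ℤ → ℂ) ∧
      (a : Matrix (Fin r) (Fin r) ℂ).det = 1 := by
  obtain ⟨H, hψ, hD⟩ := exists_lattice hlev hP hpol
  rw [MTat_eq hpol hD] at ha
  have h1 := mem_SOGroup H |>.1 (MTGroup_le H ha)
  rw [← hψ]
  exact ⟨h1.1, h1.2.1⟩

end Pool.Agent.Helper79.HI
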