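import Pool.Agent.Helper79.HI.Descend
import Pool.Agent.Helper79.HI.HodgeElt

/-!
# HI-20: comparison of the closures at a point

* `van_of_pair`: for `γ ∈ qp Γ` let `f₁` be the left translate of `f` by `γ` (`exists_left`, over `ℚ`): it is in `vanGL ℚ T₀` (`map γ * x ∈ T` for `x ∈ T₀ ≤ T`), so `evGL (map γ * g₀) f = evGL g₀ f₁ = 0`. Let `f₂` (over `ℚ_ℓ`) be the right
  translate of `map f` by `g₀` (`exists_right`, `evGL_mapPoly`): `evGL x f₂ = evGL (x * g₀) f`. It vanishes at the points `map γ`, `γ ∈ qp Γ`, so at `x = g * g₀⁻¹ ∈ zar` (`evGL_zero_of_zar`): `evGL g f = 0`.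
* `pc_mem_of_group`: let `S` be the group of `exists_descend` (`k = ℚ`, `F = ℚ_ℓ`, `K = ℂ`, `G`): `x ∈ S ↔ ∀ f ∈ vanGL ℚ_ℓ G, ∀ φ, evGL x (pc φ f) = 0`; it is the set of common zeros of the polynomials `pc φ f` over `ℚ`. `zar ℂ (qp Γ) ⊆ S`: for `f ∈ vanGL ℚ_ℓ G` `pc φ f` vanishes on
  `qp Γ` (`eval_pc`: `evGL γ (pc φ f) = φ (evGL (map γ) f)` and `evGL (map γ) f = 0` by `hΓ`), so it is in `vanGL ℚ (qp Γ)`. `T₀ ⊆ S` by `hT₀`. So for a Hodge element `a`: `a = (a * a₀⁻¹) * a₀ ∈ S`, and `MTat lev P ≤ S` (`MTat_le`).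
-/

set_option linter.unusedSectionVars false

namespace Pool.Agent.Helper79.HI

open Matrix Pool.Agent.Helper88.MT Pool.Agent.Helper79.HG

variable {r ℓ : ℕ} [Fact ℓ.Prime]

private theorem fn_map_id {A : Type} [CommRing A] (g : GL (Fin r) A) :
    Matrix.GeneralLinearGroup.map (algebraMap A A) g = g := by
  ext i j
  rfl

private theorem fn_pc {γ : GL (Fin r) ℚ} (f : GLPoly r ℚ_[ℓ]) (φ : ℚ_[ℓ] →ₗ[ℚ] ℚ) :
    evGL γ (pc φ f) = φ (evGL (Matrix.GeneralLinearGroup.map (algebraMap ℚ ℚ_[ℓ]) γ) f) := by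
  have h1 : (fun o : Option (Fin r × Fin r) => o.elim
      (((Matrix.GeneralLinearGroup.det
        (Matrix.GeneralLinearGroup.map (algebraMap ℚ ℚ_[ℓ]) γ))⁻¹ : ℚ_[ℓ]ˣ) : ℚ_[ℓ])
      (fun p => (Matrix.GeneralLinearGroup.map (algebraMap ℚ ℚ_[ℓ]) γ) p.1 p.2)) =
      fun o => algebraMap ℚ ℚ_[ℓ] (o.elim
        (((Matrix.GeneralLinearGroup.det γ)⁻¹ : ℚˣ) : ℚ) (fun p => γ p.1 p.2)) := by
    funext o
    cases o with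
    | none =>
      simp only [Option.elim_none]
      rw [Units.val_inv_eq_inv_val, Units.val_inv_eq_inv_val, map_inv₀]
      congr 1
      rw [Matrix.GeneralLinearGroup.val_det_apply, Matrix.GeneralLinearGroup.val_det_apply]
      exact (RingHom.map_det (algebraMap ℚ ℚ_[ℓ]) (γ : Matrix (Fin r) (Fin r) ℚ)).symm
    | some p => rfl
  have h2 : evGL (Matrix.GeneralLinearGroup.map (algebraMap ℚ ℚ_[ℓ]) γ) f =
      MvPolynomial.eval (fun o : Option (Fin r × Fin r) => algebraMap ℚ ℚ_[ℓ] (o.elim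
        (((Matrix.GeneralLinearGroup.det γ)⁻¹ : ℚˣ) : ℚ) (fun p => γ p.1 p.2))) f := by
    rw [← h1]
    unfold evGL
    rw [← MvPolynomial.coe_aeval_eq_eval]
    rfl
  rw [h2, eval_pc]
  unfold evGL
  rw [← MvPolynomial.coe_aeval_eq_eval]
  rfl

theorem van_of_pair {Γ : Subgroup (GL (Fin r) ℤ)} {T₀ T : Subgroup (GL (Fin r) ℂ)} (hle : T₀ ≤ T)
    (hΓ : ∀ γ ∈ qp Γ, Matrix.GeneralLinearGroup.map (algebraMap ℚ ℂ) γ ∈ T) {g g₀ : GL (Fin r) ℚ_[ℓ]}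
    (hg₀ : ∀ f ∈ vanGL ℚ (T₀ : Set (GL (Fin r) ℂ)), evGL g₀ f = 0)
    (hg : g * g₀⁻¹ ∈ zar ℚ_[ℓ] (qp Γ : Set (GL (Fin r) ℚ))) :
    ∀ f ∈ vanGL ℚ (T : Set (GL (Fin r) ℂ)), evGL g f = 0 := by
  intro f hf
  obtain ⟨f₂, hf₂⟩ := exists_right g₀ (MvPolynomial.map (algebraMap ℚ ℚ_[ℓ]) f)
  have e2 : ∀ x : GL (Fin r) ℚ_[ℓ], evGL x f₂ = evGL (x * g₀) f := by
    intro x
    rw [hf₂ x, fn_map_id, evGL_mapPoly]
  have h1 : ∀ γ ∈ (qp Γ : Set (GL (Fin r) ℚ)),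
      evGL (Matrix.GeneralLinearGroup.map (algebraMap ℚ ℚ_[ℓ]) γ) f₂ = 0 := by
    intro γ hγ
    obtain ⟨f₁, hf₁⟩ := exists_left γ f
    have e1 : f₁ ∈ vanGL ℚ (T₀ : Set (GL (Fin r) ℂ)) := by
      intro x hx
      rw [hf₁ x]
      exact hf _ (mul_mem (hΓ γ hγ) (hle hx))
    rw [e2, ← hf₁ g₀]
    exact hg₀ f₁ e1
  have h3 := evGL_zero_of_zar h1 hg
  rw [e2, inv_mul_cancel_right] at h3
  exact h3

theorem pc_mem_of_group {Γ : Subgroup (GL (Fin r) ℤ)} {G : Subgroup (GL (Fin r) ℚ_[ℓ])}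
    (hΓ : ∀ γ ∈ qp Γ, Matrix.GeneralLinearGroup.map (algebraMap ℚ ℚ_[ℓ]) γ ∈
      zar ℚ_[ℓ] (G : Set (GL (Fin r) ℚ_[ℓ]))) {T₀ : Subgroup (GL (Fin r) ℂ)}
    (hT₀ : ∀ f ∈ vanGL ℚ_[ℓ] (G : Set (GL (Fin r) ℚ_[ℓ])), ∀ φ : ℚ_[ℓ] →ₗ[ℚ] ℚ,
      pc φ f ∈ vanGL ℚ (T₀ : Set (GL (Fin r) ℂ)))
    {lev : Fin r → ℤ} {P : Matrix (Fin r) (Fin r) ℂ}
    (hP : ∀ u a, IsHodgeElt lev P u a → ∃ a₀ ∈ T₀, a * a₀⁻¹ ∈ zar ℂ (qp Γ : Set (GL (Fin r) ℚ))) :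
    ∀ f ∈ vanGL ℚ_[ℓ] (G : Set (GL (Fin r) ℚ_[ℓ])), ∀ φ : ℚ_[ℓ] →ₗ[ℚ] ℚ,
      pc φ f ∈ vanGL ℚ (MTat lev P : Set (GL (Fin r) ℂ)) := by
  obtain ⟨S, hS⟩ := exists_descend (k := ℚ) (F := ℚ_[ℓ]) (K := ℂ) G
  have hle : MTat lev P ≤ S := by
    refine MTat_le ⟨{q | ∃ f ∈ vanGL ℚ_[ℓ] (G : Set (GL (Fin r) ℚ_[ℓ])),
      ∃ φ : ℚ_[ℓ] →ₗ[ℚ] ℚ, q = pc φ f}, fun a => ?_⟩ (fun u a ha => ?_)
    · rw [hS a]
      constructor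
      · rintro h _ ⟨f, hf, φ, rfl⟩
        exact h f hf φ
      · intro h f hf φ
        exact h _ ⟨f, hf, φ, rfl⟩
    · obtain ⟨a₀, ha₀, hz⟩ := hP u a ha
      have h1 : a₀ ∈ S := (hS a₀).2 (fun f hf φ => hT₀ f hf φ a₀ ha₀)
      have h2 : a * a₀⁻¹ ∈ S := by
        refine (hS _).2 (fun f hf φ => hz _ ?_)
        intro γ hγ
        rw [fn_pc, hΓ γ hγ f hf, map_zero]
      have h3 := mul_mem h2 h1
      rwa [inv_mul_cancel_right] at h3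
  intro f hf φ a ha
  exact (hS a).1 (hle ha) f hf φ

end Pool.Agent.Helper79.HI
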