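import Pool.Agent.Helper79.HI.Euler

/-!
# HI-08: the elements of a group at which an ideal stable under the Lie algebra vanishes

* `exists_killer`: there is `h` with `evM 1 h = 1` and `h * f ∈ I` for all `f ∈ J`. `J` is generated by finitely many `f_i` (noetherian). By `le_sup_pow` the class of `f_i` in `P ⧸ I` is in all
  powers of the image `𝔪'` of `𝔪 = mI 1`, so by Krull's intersection theorem (`Ideal.mem_iInf_smul_pow_eq_bot_iff` for the noetherian module `P ⧸ I` over `P`, ideal `𝔪`: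
  `∃ s ∈ 𝔪, s • class f_i = class f_i`; `𝔪^n • ⊤` in `P ⧸ I` is the image of `𝔪^n`) there is `s_i ∈ 𝔪` with `(1 - s_i) f_i ∈ I`. `h = ∏ (1 - s_i)`: `evM 1 h = 1` as `evM 1 s_i = 0`. `{f | h f ∈ I}` is an ideal which contains the
  generators.
* `relIndex_ne_zero`: for `g ∈ Γ` with `evM g h ≠ 0` and `f ∈ J`: `evM g h * evM g f = 0` (`h f ∈ I`), so `evM g f = 0`, and `g ∈ Γ'`. For `a ∈ Γ` let `h_a` be the left translate, `h_a(y) = h(a⁻¹ y)` (`exists_translate`).
  The ideal spanned by all `h_a`, `a ∈ Γ`, is spanned by finitely many `h_(a_1), …, h_(a_n)` (`Submodule.fg_def`, noetherian: a finite subset of a spanning set spans: `Submodule.exists_finset_span_eq_...` / `IsNoetherian` and `Ideal.span` /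
  `Submodule.fg_span_iff_fg_span_finset_subset`). For `g ∈ Γ`: `evM g h_g = evM 1 h = 1 ≠ 0` and `h_g` is a combination of the `h_(a_i)`, so `evM g h_(a_i) ≠ 0` for some `i`,
  that is `evM (a_i⁻¹ g) h ≠ 0`, and `a_i⁻¹ g ∈ Γ'`. So `Γ` is the union of the `a_i Γ'`: the quotient `Γ ⧸ Γ'.subgroupOf Γ` is finite (the map `Fin n → Γ ⧸ …`, `i ↦ a_i`, is onto: `Finite.of_surjective`), and its index is not zero
  (`Subgroup.relIndex`, `Subgroup.index_ne_zero_of_finite`).
-/

set_option linter.unusedSectionVars false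

namespace Pool.Agent.Helper79.HI

open Matrix Pool.Agent.Helper88.MT Pool.Agent.Helper46.GG

variable {r : ℕ} {F : Type} [Field F] [CharZero F]

theorem exists_killer {Γ : Subgroup (GL (Fin r) F)} {I J : Ideal (MvPolynomial (Fin r × Fin r) F)}
    (hI : ∀ f, f ∈ I ↔ f ∈ van F (mats Γ))
    (h1 : ∀ f ∈ J, evM (1 : Matrix (Fin r) (Fin r) F) f = 0)
    (hJ : ∀ x ∈ lieS Γ, ∀ f ∈ J, der x f ∈ J) :
    ∃ h, evM (1 : Matrix (Fin r) (Fin r) F) h = 1 ∧ ∀ f ∈ J, h * f ∈ I := by
  classical
  -- Krull for one element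
  have key : ∀ f ∈ J, ∃ s, evM (1 : Matrix (Fin r) (Fin r) F) s = 0 ∧ (1 - s) * f ∈ I := by
    intro f hf
    have hx : (Ideal.Quotient.mk I f) ∈
        (⨅ n : ℕ, mI (1 : Matrix (Fin r) (Fin r) F) ^ n • ⊤ :
          Submodule (MvPolynomial (Fin r × Fin r) F) (MvPolynomial (Fin r × Fin r) F ⧸ I)) := by
      rw [Submodule.mem_iInf]
      intro n
      obtain ⟨a, ha, b, hb, rfl⟩ := Submodule.mem_sup.mp (le_sup_pow hI h1 hJ n hf)
      have e1 : Ideal.Quotient.mk I (a + b) = b • (1 : MvPolynomial (Fin r × Fin r) F ⧸ I) := by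
        rw [map_add, Ideal.Quotient.eq_zero_iff_mem.mpr ha, zero_add]
        change Ideal.Quotient.mk I b = Ideal.Quotient.mk I (b • 1)
        rw [smul_eq_mul, mul_one]
      rw [e1]
      exact Submodule.smul_mem_smul hb Submodule.mem_top
    rw [Ideal.mem_iInf_smul_pow_eq_bot_iff] at hx
    obtain ⟨s, hs⟩ := hx
    refine ⟨s, mem_mI.mp s.2, ?_⟩
    have e2 : Ideal.Quotient.mk I ((1 - (s : MvPolynomial (Fin r × Fin r) F)) * f) = 0 := by
      have e3 : (s : MvPolynomial (Fin r × Fin r) F) • Ideal.Quotient.mk I f =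
          Ideal.Quotient.mk I ((s : MvPolynomial (Fin r × Fin r) F) * f) := rfl
      rw [e3] at hs
      rw [sub_mul, one_mul, map_sub, hs, sub_self]
    exact Ideal.Quotient.eq_zero_iff_mem.mp e2
  choose! s hs0 hs1 using key
  obtain ⟨T, hT⟩ := (isNoetherianRing_iff_ideal_fg _).mp inferInstance J
  have hTJ : ∀ f ∈ T, f ∈ J := fun f hf ↦ hT ▸ Ideal.subset_span hf
  refine ⟨∏ t ∈ T, (1 - s t), ?_, ?_⟩
  · rw [map_prod]
    refine Finset.prod_eq_one fun t ht ↦ ?_
    rw [map_sub, map_one, hs0 t (hTJ t ht), sub_zero]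
  · intro f hf
    rw [← hT] at hf
    induction hf using Submodule.span_induction with
    | mem f hf =>
      have hf' : f ∈ T := hf
      rw [← Finset.mul_prod_erase T _ hf', mul_right_comm]
      exact Ideal.mul_mem_right _ _ (hs1 f (hTJ f hf'))
    | zero => rw [mul_zero]; exact Ideal.zero_mem _
    | add f g _ _ hf hg => rw [mul_add]; exact Ideal.add_mem _ hf hg
    | smul c f _ hf =>
      rw [smul_eq_mul, mul_left_comm]
      exact Ideal.mul_mem_left _ _ hf

/-- Let the ideal `J` vanish at `1` and be stable under the derivations of the Lie algebra of `Γ`. Then the elements of `Γ`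
at which `J` vanishes are a subgroup of finite index. -/
theorem relIndex_ne_zero {Γ Γ' : Subgroup (GL (Fin r) F)} {J : Ideal (MvPolynomial (Fin r × Fin r) F)}
    (h1 : ∀ f ∈ J, evM (1 : Matrix (Fin r) (Fin r) F) f = 0)
    (hJ : ∀ x ∈ lieS Γ, ∀ f ∈ J, der x f ∈ J)
    (hΓ' : ∀ g ∈ Γ, (∀ f ∈ J, evM (g : Matrix (Fin r) (Fin r) F) f = 0) → g ∈ Γ') :
    Γ'.relIndex Γ ≠ 0 := by
  classical
  -- the ideal of the group
  let I : Ideal (MvPolynomial (Fin r × Fin r) F) :=
    { carrier := {f | f ∈ van F (mats Γ)}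
      add_mem' := fun {a b} ha hb ↦ (van F (mats Γ)).add_mem ha hb
      zero_mem' := (van F (mats Γ)).zero_mem
      smul_mem' := by
        intro c f hf
        change c • f ∈ van F (mats Γ)
        replace hf : f ∈ van F (mats Γ) := hf
        rw [mem_van_self] at hf ⊢
        intro M hM
        rw [smul_eq_mul, map_mul, hf M hM, mul_zero] }
  have hI : ∀ f, f ∈ I ↔ f ∈ van F (mats Γ) := fun f ↦ Iff.rfl
  obtain ⟨h, hh1, hh⟩ := exists_killer hI h1 hJ
  -- elements at which `h` does not vanish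
  have hgood : ∀ g ∈ Γ, evM (g : Matrix (Fin r) (Fin r) F) h ≠ 0 → g ∈ Γ' := by
    intro g hg hne
    refine hΓ' g hg fun f hf ↦ ?_
    have h2 := mem_van_self.mp ((hI _).mp (hh f hf)) _ ⟨g, hg, rfl⟩
    rw [map_mul] at h2
    exact (mul_eq_zero.mp h2).resolve_left hne
  -- the translates
  have htr : ∀ a : GL (Fin r) F, ∃ h' : MvPolynomial (Fin r × Fin r) F, ∀ g : GL (Fin r) F,
      evM (g : Matrix (Fin r) (Fin r) F) h' =
        evM ((a⁻¹ * g : GL (Fin r) F) : Matrix (Fin r) (Fin r) F) h := by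
    intro a
    obtain ⟨h', hh'⟩ := exists_translate ((a⁻¹ : GL (Fin r) F) : Matrix (Fin r) (Fin r) F) h
    refine ⟨h', fun g ↦ ?_⟩
    rw [hh' (g : Matrix (Fin r) (Fin r) F), Units.val_mul]
    congr 2
  choose ht hht using htr
  have hfg : (Ideal.span (ht '' (Γ : Set (GL (Fin r) F)))).FG :=
    (isNoetherianRing_iff_ideal_fg _).mp inferInstance _
  obtain ⟨T, hTsub, hTspan⟩ := (Submodule.fg_span_iff_fg_span_finset_subset _).mp hfg
  -- finitely many representatives
  have hrep : ∀ t ∈ T, ∃ a ∈ Γ, ht a = t := fun t ht' ↦ hTsub ht'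
  choose! rep hrepΓ hrept using hrep
  have hcov : ∀ g ∈ Γ, ∃ t ∈ T, (rep t)⁻¹ * g ∈ Γ' := by
    intro g hg
    by_contra hcon
    push Not at hcon
    have hz : ∀ f ∈ Submodule.span (MvPolynomial (Fin r × Fin r) F)
          (T : Set (MvPolynomial (Fin r × Fin r) F)),
        evM (g : Matrix (Fin r) (Fin r) F) f = 0 := by
      intro f hf
      induction hf using Submodule.span_induction with
      | mem f hfT =>
        have hfT' : f ∈ T := hfT
        by_contra hne
        rw [← hrept f hfT', hht] at hne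
        exact hcon f hfT' (hgood _ (Γ.mul_mem (Γ.inv_mem (hrepΓ f hfT')) hg) hne)
      | zero => exact map_zero _
      | add a b ha hb iha ihb => rw [map_add, iha, ihb, add_zero]
      | smul c a ha iha => rw [smul_eq_mul, map_mul, iha, mul_zero]
    have hmem : ht g ∈ Submodule.span (MvPolynomial (Fin r × Fin r) F)
        (ht '' (Γ : Set (GL (Fin r) F))) := Submodule.subset_span ⟨g, hg, rfl⟩
    rw [hTspan] at hmem
    have h3 := hz (ht g) hmem
    rw [hht, inv_mul_cancel, Units.val_one, hh1] at h3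
    exact one_ne_zero h3
  have hfin : Finite (Γ ⧸ Γ'.subgroupOf Γ) := by
    refine Finite.of_surjective (α := T) (fun t ↦
      (QuotientGroup.mk (⟨rep t.1, hrepΓ t.1 t.2⟩ : Γ) : Γ ⧸ Γ'.subgroupOf Γ)) ?_
    intro q
    induction q using QuotientGroup.induction_on with
    | H g =>
      obtain ⟨t, htT, ht'⟩ := hcov g.1 g.2
      refine ⟨⟨t, htT⟩, ?_⟩
      rw [QuotientGroup.eq]
      exact ht'
  exact Subgroup.index_ne_zero_of_finite

end Pool.Agent.Helper79.HI
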