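import Pool.Agent.Helper79.HI.Krull
import Pool.Agent.Helper79.HI.ConnFin
import Pool.Agent.Helper79.HG.MTLie
import Pool.Agent.Helper88.MT.SoIrr

/-!
# HI-17: the Mumford-Tate group contains the connected groups whose Lie algebra it contains

`lie_of_hodM`: the first part (up to the line with `hall`, which is the claim) of the proof of `Pool.Agent.Helper79.HG.SOT_subset_of_lie`
(`Pool/Agent/Helper79/HG/MTLie.lean`), with `𝔪` in place of `soT ψ N`: copy it.

`le_MTGroup`: let `S` be one of the groups in the infimum which defines `H.MTGroup`, with the set `P` of equations (`a ∈ S ↔ ∀ f ∈ P, evGL a f = 0`). Let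
`S' = {M | det M = 1 ∧ ∀ f ∈ P, aeval (pt1 M) f = 0}`, with equations `Q = {eqDet} ∪ (toLin '' P)` (`evM_eqDet`, `evM_toLin`; for `det M = 1` `M ∈ S' ↔ ofDet M _ ∈ S` by `evGL_of_det`; see the verification of the hypotheses in the proof of
`mem_MTGroup_of_lie`, the isometries are not needed here), and `J` the ideal of the polynomials over `ℚ` which vanish on `S'`. By `lie_of_hodM` (`Z` the unit circle, `infinite_circle`; `hodge_elt_mem`: `hodM H.D u` is in `SOT`, so of determinant one) `der x J ⊆ J` for `x ∈ lieS Γ`; `evM 1 f = 0` for `f ∈ J` (`h𝓘1` there). Let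
`Γ'` be the comap of `S` under `Matrix.GeneralLinearGroup.map (algebraMap ℚ ℂ)`. For `g ∈ Γ` at which `J` vanishes: `toLin '' P ⊆ J`, so `g ∈ Γ'` (`det g = 1`). `relIndex_ne_zero`: `Γ'.relIndex Γ ≠ 0`. By
`van_of_finite` every `f ∈ P` vanishes on `Γ`: for `g ∈ Γ' ⊓ Γ`: `algebraMap (evGL g f) = evGL (map g) f = 0` (`evGL_map`). So for `g ∈ Γ` `evGL (map g) f = 0` for all `f ∈ P`, that is `map g ∈ S`.
-/

set_option linter.unusedSectionVars false

namespace Pool.Agent.Helper79.HI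

open Matrix Module Pool.Agent.Helper88.MT Pool.Agent.Helper46.GG Pool.Agent.Helper79.HG

theorem lie_of_hodM {ι : Type*} [Fintype ι] [DecidableEq ι] {k K : Type*} [Field k] [CharZero k]
    [Field K] [Algebra k K] [IsAlgClosed K] {D : Matrix ι ι K} {𝔪 : Set (Matrix ι ι k)}
    (hlie : ∀ 𝔤 : Submodule k (Matrix ι ι k), (∀ x ∈ 𝔤, ∀ y ∈ 𝔤, x * y - y * x ∈ 𝔤) →
      D ∈ mspan K 𝔤 → ∀ x ∈ 𝔪, x ∈ 𝔤)
    {S : Set (Matrix ι ι K)} {Q : Set (MvPolynomial (ι × ι) k)}
    (hS : ∀ M, M ∈ S ↔ ∀ q ∈ Q, evM M q = 0)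
    (hmul : ∀ M ∈ S, ∀ M' ∈ S, M * M' ∈ S)
    {Z : Set K} (hZ : Z.Infinite) (hZ0 : (0 : K) ∉ Z) (hhod : ∀ u ∈ Z, hodM D u ∈ S)
    {x : Matrix ι ι k} (hx : x ∈ 𝔪) {f : MvPolynomial (ι × ι) k}
    (hf : ∀ M ∈ S, evM (R := K) M f = 0) : ∀ M ∈ S, evM (R := K) M (der x f) = 0 := by
  have hKchar : CharZero K := charZero_of_injective_algebraMap (algebraMap k K).injective
  -- the ideal
  let 𝓘 : Submodule k (MvPolynomial (ι × ι) k) :=
    { carrier := {f | ∀ M ∈ S, evM (R := K) M f = 0}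
      add_mem' := by
        intro f g hf hg M hM
        rw [map_add, hf M hM, hg M hM, add_zero]
      zero_mem' := by intro M _; rw [map_zero]
      smul_mem' := by intro c f hf M hM; rw [map_smul, hf M hM, smul_zero] }
  have h𝓘 : ∀ f, f ∈ 𝓘 ↔ ∀ M ∈ S, evM (R := K) M f = 0 := fun f ↦ Iff.rfl
  -- the Lie algebra
  let Lk : Submodule k (Matrix ι ι k) :=
    { carrier := {x | ∀ f ∈ 𝓘, der x f ∈ 𝓘}
      add_mem' := by
        intro x y hx hy f hf
        rw [der_add, Derivation.add_apply]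
        exact 𝓘.add_mem (hx f hf) (hy f hf)
      zero_mem' := by
        intro f _
        rw [der_zero, Derivation.zero_apply]
        exact 𝓘.zero_mem
      smul_mem' := by
        intro c x hx f hf
        rw [der_smul, Derivation.smul_apply]
        exact 𝓘.smul_mem c (hx f hf) }
  have hLk : ∀ x, x ∈ Lk ↔ ∀ f ∈ 𝓘, der x f ∈ 𝓘 := fun x ↦ Iff.rfl
  have hLlie : ∀ x ∈ Lk, ∀ y ∈ Lk, x * y - y * x ∈ Lk := by
    intro x hx y hy f hf
    rw [der_comm]
    exact 𝓘.sub_mem (hx _ (hy f hf)) (hy _ (hx f hf))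
  -- `D` lies in the span of the Lie algebra
  let LK : Submodule K (Matrix ι ι K) :=
    { carrier := {x | ∀ f ∈ 𝓘, ∀ M ∈ S,
        evM (F := K) M (der x (MvPolynomial.map (algebraMap k K) f)) = 0}
      add_mem' := by
        intro x y hx hy f hf M hM
        rw [der_add, Derivation.add_apply, map_add, hx f hf M hM, hy f hf M hM, add_zero]
      zero_mem' := by
        intro f _ M _
        rw [der_zero, Derivation.zero_apply, map_zero]
      smul_mem' := by
        intro c x hx f hf M hM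
        rw [der_smul, Derivation.smul_apply, map_smul, hx f hf M hM, smul_zero] }
  have hLK : ∀ x, x ∈ LK ↔ ∀ f ∈ 𝓘, ∀ M ∈ S,
      evM (F := K) M (der x (MvPolynomial.map (algebraMap k K) f)) = 0 := fun x ↦ Iff.rfl
  have hSσ : ∀ σ : K ≃ₐ[k] K, ∀ M ∈ S, M.map σ ∈ S := by
    intro σ M hM
    rw [hS] at hM ⊢
    intro q hq
    rw [evM_algEquiv, hM q hq, map_zero]
  have hLKσ : ∀ σ : K ≃ₐ[k] K, ∀ x ∈ LK, x.map σ ∈ LK := by
    intro σ x hx f hf M hM
    have h1 := hx f hf (M.map σ.symm) (hSσ σ.symm M hM)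
    have h2 := evM_mapHom (σ : K →+* K) (M.map σ.symm)
      (der x (MvPolynomial.map (algebraMap k K) f))
    rw [h1, map_zero, ← der_mapHom] at h2
    have h3 : (M.map σ.symm).map (σ : K →+* K) = M := by
      ext i j; simp
    have h4 : MvPolynomial.map (σ : K →+* K) (MvPolynomial.map (algebraMap k K) f) =
        MvPolynomial.map (algebraMap k K) f := by
      rw [MvPolynomial.map_map]
      have h5 : (σ : K →+* K).comp (algebraMap k K) = algebraMap k K := by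
        ext c
        simp
      rw [h5]
    rw [h3, h4] at h2
    exact h2
  have hLKk : LK ≤ mspan K Lk := by
    refine le_mspan_of_stable hLKσ ?_
    intro x hx f hf M hM
    have h1 := hx f hf M hM
    rw [der_map, evM_mapAlg] at h1
    exact h1
  have hDLK : D ∈ LK := by
    intro f hf M hM
    apply evM_der_hodM hZ hZ0
    intro u hu
    rw [evM_mapAlg]
    exact (h𝓘 f).mp hf _ (hmul M hM _ (hhod u hu))
  have hDL : D ∈ mspan K Lk := hLKk hDLK
  -- the Lie algebra contains `𝔪`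
  exact (hLk x).mp (hlie Lk hLlie hDL x hx) f hf

/-- The Mumford-Tate group contains every group with connected closure whose Lie algebra is contained in all rational
Lie algebras over which the Hodge operator is defined. -/
theorem le_MTGroup {r : ℕ} (H : HodgeLattice r) {Γ : Subgroup (GL (Fin r) ℚ)}
    (hconn : IsConn (Γ : Set (GL (Fin r) ℚ)))
    (hdet1 : ∀ γ ∈ Γ, (γ : Matrix (Fin r) (Fin r) ℚ).det = 1)
    (hlie : ∀ 𝔤 : Submodule ℚ (Matrix (Fin r) (Fin r) ℚ), (∀ x ∈ 𝔤, ∀ y ∈ 𝔤, x * y - y * x ∈ 𝔤) →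
      H.D ∈ mspan ℂ 𝔤 → ∀ x ∈ lieS Γ, x ∈ 𝔤) :
    ∀ γ ∈ Γ, Matrix.GeneralLinearGroup.map (algebraMap ℚ ℂ) γ ∈ H.MTGroup := by
  intro γ hγ
  rw [HodgeLattice.MTGroup, Subgroup.mem_sInf]
  rintro S ⟨⟨P, hP⟩, hS⟩
  let S' : Set (Matrix (Fin r) (Fin r) ℂ) :=
    {M | M.det = 1 ∧ ∀ f ∈ P, MvPolynomial.aeval (pt1 M) f = 0}
  have hSS : ∀ b : GL (Fin r) ℂ, (b : Matrix (Fin r) (Fin r) ℂ) ∈ S' → b ∈ S := by
    rintro b ⟨hb1, hb2⟩
    rw [hP]
    intro f hf
    rw [evGL_of_det hb1]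
    exact hb2 f hf
  have hSS' : ∀ b : GL (Fin r) ℂ, b ∈ S → (b : Matrix (Fin r) (Fin r) ℂ).det = 1 →
      (b : Matrix (Fin r) (Fin r) ℂ) ∈ S' := by
    intro b hb hb'
    refine ⟨hb', fun f hf ↦ ?_⟩
    rw [← evGL_of_det hb']
    exact (hP b).mp hb f hf
  have hS1 : (1 : Matrix (Fin r) (Fin r) ℂ) ∈ S' := by
    have h1 : ((1 : GL (Fin r) ℂ) : Matrix (Fin r) (Fin r) ℂ) ∈ S' :=
      hSS' 1 S.one_mem (by simp)
    exact h1
  have hSQ : ∀ M, M ∈ S' ↔ ∀ q ∈ ({eqDet (Fin r) ℚ} ∪ (toLin '' P) :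
      Set (MvPolynomial (Fin r × Fin r) ℚ)), evM M q = 0 := by
    intro M
    constructor
    · rintro ⟨hM1, hM2⟩ q (rfl | ⟨f, hf, rfl⟩)
      · rw [evM_eqDet, hM1, sub_self]
      · rw [evM_toLin]
        exact hM2 f hf
    · intro h
      refine ⟨?_, fun f hf ↦ ?_⟩
      · have h1 := h _ (Or.inl rfl)
        rw [evM_eqDet] at h1
        exact sub_eq_zero.mp h1
      · rw [← evM_toLin]
        exact h _ (Or.inr ⟨f, hf, rfl⟩)
  have hmul : ∀ M ∈ S', ∀ M' ∈ S', M * M' ∈ S' := by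
    intro M hM M' hM'
    have h1 := hSS (ofDet M hM.1) hM
    have h2 := hSS (ofDet M' hM'.1) hM'
    refine hSS' (ofDet M hM.1 * ofDet M' hM'.1) (S.mul_mem h1 h2) ?_
    change (M * M').det = 1
    rw [Matrix.det_mul, hM.1, hM'.1, one_mul]
  have hhod : ∀ u ∈ {u : ℂ | ‖u‖ = 1}, hodM H.D u ∈ S' := by
    intro u hu
    have h1 := hodge_elt_mem H hu
    exact hSS' (ofDet (hodM H.D u) h1.2.1) (hS u _ ⟨hu, rfl⟩) h1.2.1
  -- the ideal
  let J : Ideal (MvPolynomial (Fin r × Fin r) ℚ) :=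
    { carrier := {f | ∀ M ∈ S', evM (R := ℂ) M f = 0}
      add_mem' := by
        intro f g hf hg M hM
        rw [map_add, hf M hM, hg M hM, add_zero]
      zero_mem' := by intro M _; rw [map_zero]
      smul_mem' := by
        intro c f hf M hM
        rw [smul_eq_mul, map_mul, hf M hM, mul_zero] }
  have hJ : ∀ x ∈ lieS Γ, ∀ f ∈ J, der x f ∈ J := by
    intro x hx f hf
    exact lie_of_hodM (k := ℚ) (K := ℂ) (D := H.D) (𝔪 := (lieS Γ : Set (Matrix (Fin r) (Fin r) ℚ)))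
      hlie hSQ hmul (Z := {u : ℂ | ‖u‖ = 1}) infinite_circle (by
        intro h
        have h0 : ‖(0 : ℂ)‖ = 1 := h
        rw [norm_zero] at h0
        exact zero_ne_one h0) hhod hx hf
  have hJ1 : ∀ f ∈ J, evM (1 : Matrix (Fin r) (Fin r) ℚ) f = 0 := by
    intro f hf
    have h1 : evM (R := ℂ) (1 : Matrix (Fin r) (Fin r) ℂ) f = 0 := hf 1 hS1
    have h2 : evM (F := ℚ) (1 : Matrix (Fin r) (Fin r) ℂ) f =
        algebraMap ℚ ℂ (evM (1 : Matrix (Fin r) (Fin r) ℚ) f) := by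
      rw [← evM_map, Matrix.map_one _ (map_zero _) (map_one _), evM_mapAlg]
    rw [h2] at h1
    exact (map_eq_zero _).mp h1
  -- values at rational points
  have hval : ∀ (g : GL (Fin r) ℚ) (f : GLPoly r ℚ),
      evGL (Matrix.GeneralLinearGroup.map (algebraMap ℚ ℂ) g) f = algebraMap ℚ ℂ (evGL g f) :=
    fun g f ↦ evGL_map (R := ℚ) (Algebra.ofId ℚ ℂ) g f
  have hmemS : ∀ g : GL (Fin r) ℚ, Matrix.GeneralLinearGroup.map (algebraMap ℚ ℂ) g ∈ S ↔
      ∀ f ∈ P, evGL g f = 0 := by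
    intro g
    rw [hP]
    refine forall₂_congr fun f _ ↦ ?_
    rw [hval]
    exact map_eq_zero _
  let Γ' : Subgroup (GL (Fin r) ℚ) := S.comap (Matrix.GeneralLinearGroup.map (algebraMap ℚ ℂ))
  have hfin : Γ'.relIndex Γ ≠ 0 := by
    refine relIndex_ne_zero hJ1 hJ fun g hg hgJ ↦ ?_
    rw [Subgroup.mem_comap, hmemS]
    intro f hf
    have h1 : toLin f ∈ J := fun M hM ↦ (hSQ M).mp hM _ (Or.inr ⟨f, hf, rfl⟩)
    have h2 := hgJ _ h1
    rw [evM_toLin, ← evGL_of_det (hdet1 g hg)] at h2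
    exact h2
  rw [hmemS]
  intro f hf
  exact van_of_finite hconn hfin (fun g hg _ ↦ (hmemS g).mp hg f hf) γ hγ

end Pool.Agent.Helper79.HI
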