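import Pool.Agent.Helper79.HI.PLog

/-!
# HI-11: subspaces stable under conjugation by `g` and under the bracket with its logarithm

`l = (ℓ : ℤ_[ℓ])`, `Λ = {co e}` the integral matrices (`co` of `Pool/Agent/Helper46/GG/Compact.lean`). `perp`, `exists_perp` (trace form) are in the same file.

* `mem_of_approx`: if for every `n` there are `w ∈ W` and an integral `e` with `x = w + ℓ^n • co e`, then `x ∈ W`: otherwise (`exists_perp`) there is `A` with `trace (A * w) = 0` for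
  all `w ∈ W` and `trace (A * x) ≠ 0`; `‖trace (A * co e)‖ ≤ C` for all integral `e` (`C = ∑ ‖A i j‖`), so `‖trace (A * x)‖ ≤ ℓ^(-n) C` for all `n`.
* `lie_mem_of_log`: let `y ∈ W`; multiply by a power of `ℓ`: `y = co y'` integral. For each `n`, `y_n = co (g^(ℓ^n)) * y * co (g⁻¹^(ℓ^n))` is in `W` (iterate `hW`) and integral, and
  `g^(ℓ^n) = 1 + l^n • X_n`, `X_n = L + l^n • E_n`: from `y_n (1 + ℓ^n X_n) = (1 + ℓ^n X_n) y` we get `y_n - y = ℓ^n (X_n y - y_n X_n)`, so `y_n = y + ℓ^n (integral)` and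
  `y_n - y = ℓ^n (X_n y - y X_n) - ℓ^(2n) (integral) = ℓ^n (L y - y L) + ℓ^(2n) (integral)`. So `L y - y L ∈ W + ℓ^n Λ` for all `n`.
* `sub_mem_of_log`: let first `y` be integral (scale). `d = g y g⁻¹ - y` is integral. For `N = ℓ^n`: `∑_(i<N) g^i d g⁻¹^i = g^N y g⁻¹^N - y` (telescoping) `= ℓ^n (L y - y L) + ℓ^(2n) (integral)` (as above, without `y_n ∈ W`), in `W + ℓ^(2n) Λ`.
  (*) For every integral `e`: `∑_(i<ℓ^n) g^i e g⁻¹^i = l^n • e + l^(n+1) • e'` for some integral `e'`: induction on `n`: `S_(n+1) = ∑_(j<ℓ) h^j S_n h⁻¹^j` with `h = g^(ℓ^n) = 1 + l^(n+2) • (…)` (`n = 0`: `hg`; in general by `hL`: `l^n • L + l^(2n) • E`, and `L ≡ 0` modulo `l^2`,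
  which follows from `hL` for large `n`? simpler: prove `g^(ℓ^n) = 1 + l^(n+2) • A_n` by `one_add_pow`), so each term is `S_n + l^(n+2) • (…)`.
  Claim: `d ∈ W + ℓ^j Λ` for all `j`; then `mem_of_approx`. `j = 0` is clear. If `d = w + ℓ^j co e`: `∑_(i<N) g^i d g⁻¹^i = w' + ℓ^j ∑ g^i e g⁻¹^i`, `w' ∈ W`, so `ℓ^(j+n) (e + ℓ e') ∈ W + ℓ^(2n) Λ`; for `n = j + 1`: `e + ℓ e' ∈ W + ℓ Λ`
  (divide), `e ∈ W + ℓ Λ`, and `d ∈ W + ℓ^(j+1) Λ`.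
-/

set_option linter.unusedSectionVars false

namespace Pool.Agent.Helper79.HI

open Matrix Pool.Agent.Helper88.MT Pool.Agent.Helper46.GG

variable {r ℓ : ℕ} [Fact ℓ.Prime]

private lemma co_eq (x : Matrix (Fin r) (Fin r) ℤ_[ℓ]) :
    co x = (algebraMap ℤ_[ℓ] ℚ_[ℓ]).mapMatrix x := rfl

private lemma co_add' (x y : Matrix (Fin r) (Fin r) ℤ_[ℓ]) : co (x + y) = co x + co y := by
  rw [co_eq, co_eq, co_eq, map_add]

private lemma co_sub' (x y : Matrix (Fin r) (Fin r) ℤ_[ℓ]) : co (x - y) = co x - co y := by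
  rw [co_eq, co_eq, co_eq, map_sub]

private lemma co_smul' (c : ℤ_[ℓ]) (x : Matrix (Fin r) (Fin r) ℤ_[ℓ]) :
    co (c • x) = (c : ℚ_[ℓ]) • co x := by
  ext i j
  simp [co, Matrix.map_apply, Matrix.smul_apply]

private lemma co_smul_pow (n : ℕ) (x : Matrix (Fin r) (Fin r) ℤ_[ℓ]) :
    co ((ℓ : ℤ_[ℓ]) ^ n • x) = (ℓ : ℚ_[ℓ]) ^ n • co x := by
  rw [co_smul']
  congr 1

private lemma ell_ne : (ℓ : ℚ_[ℓ]) ≠ 0 := Nat.cast_ne_zero.mpr (Fact.out : ℓ.Prime).ne_zero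

private lemma exists_scale (y : Matrix (Fin r) (Fin r) ℚ_[ℓ]) :
    ∃ c : ℚ_[ℓ], c ≠ 0 ∧ ∃ y' : Matrix (Fin r) (Fin r) ℤ_[ℓ], co y' = c • y := by
  by_cases h : y = 0
  · refine ⟨1, one_ne_zero, 0, ?_⟩
    rw [h, co_eq, map_zero, smul_zero]
  · obtain ⟨y', -, c, hc, h'⟩ := exists_prim (W := ⊤) (Submodule.mem_top : y ∈ _) h
    exact ⟨c, hc, y', h'⟩

theorem mem_of_approx {W : Submodule ℚ_[ℓ] (Matrix (Fin r) (Fin r) ℚ_[ℓ])}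
    {x : Matrix (Fin r) (Fin r) ℚ_[ℓ]}
    (h : ∀ n : ℕ, ∃ w ∈ W, ∃ e : Matrix (Fin r) (Fin r) ℤ_[ℓ], x = w + (ℓ : ℚ_[ℓ]) ^ n • co e) :
    x ∈ W := by
  by_contra hx
  obtain ⟨A, hA, hAx⟩ := exists_perp hx
  set C : ℝ := ∑ i, ∑ j, ‖A i j‖ with hC
  have hC0 : 0 ≤ C := Finset.sum_nonneg fun i _ ↦ Finset.sum_nonneg fun j _ ↦ norm_nonneg _
  have hle : ∀ e : Matrix (Fin r) (Fin r) ℤ_[ℓ], ‖trace (A * co e)‖ ≤ C := by
    intro e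
    rw [trace]
    refine (norm_sum_le _ _).trans (Finset.sum_le_sum fun i _ ↦ ?_)
    rw [diag_apply, Matrix.mul_apply]
    refine (norm_sum_le _ _).trans (Finset.sum_le_sum fun j _ ↦ ?_)
    rw [norm_mul]
    have h1 : ‖co e j i‖ ≤ 1 := PadicInt.norm_le_one (e j i)
    exact mul_le_of_le_one_right (norm_nonneg _) h1
  have hbd : ∀ n : ℕ, ‖trace (A * x)‖ ≤ ((ℓ : ℝ)⁻¹) ^ n * C := by
    intro n
    obtain ⟨w, hw, e, he⟩ := h n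
    have h1 : trace (A * x) = (ℓ : ℚ_[ℓ]) ^ n * trace (A * co e) := by
      rw [he, mul_add, trace_add, mem_perp.mp hA w hw, zero_add, mul_smul_comm, trace_smul,
        smul_eq_mul]
    rw [h1, norm_mul, norm_pow, Padic.norm_p]
    exact mul_le_mul_of_nonneg_left (hle e) (by positivity)
  have hlim : Filter.Tendsto (fun n : ℕ ↦ ((ℓ : ℝ)⁻¹) ^ n * C) Filter.atTop (nhds 0) := by
    have h1 : Filter.Tendsto (fun n : ℕ ↦ ((ℓ : ℝ)⁻¹) ^ n) Filter.atTop (nhds 0) := by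
      apply tendsto_pow_atTop_nhds_zero_of_lt_one (by positivity)
      exact inv_lt_one_of_one_lt₀ (by exact_mod_cast (Fact.out : ℓ.Prime).one_lt)
    simpa using h1.mul_const C
  have h0 : ‖trace (A * x)‖ ≤ 0 := ge_of_tendsto' hlim hbd
  exact hAx (norm_le_zero_iff.mp h0)

/-- Conjugation by `G = 1 + l^n L + l^(2n) E`. -/
private lemma conj_expand {G H L E : Matrix (Fin r) (Fin r) ℤ_[ℓ]} {n : ℕ}
    (hG : G = 1 + (ℓ : ℤ_[ℓ]) ^ n • L + (ℓ : ℤ_[ℓ]) ^ (2 * n) • E) (hHG : H * G = 1)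
    (y : Matrix (Fin r) (Fin r) ℤ_[ℓ]) :
    ∃ E₂ : Matrix (Fin r) (Fin r) ℤ_[ℓ],
      G * y * H = y + (ℓ : ℤ_[ℓ]) ^ n • (L * y - y * L) + (ℓ : ℤ_[ℓ]) ^ (2 * n) • E₂ := by
  set c : ℤ_[ℓ] := (ℓ : ℤ_[ℓ]) ^ n with hc
  have hc2 : (ℓ : ℤ_[ℓ]) ^ (2 * n) = c ^ 2 := by rw [hc]; ring
  rw [hc2] at hG ⊢
  set yn := G * y * H with hyn
  have h0 : yn * G = G * y := by rw [hyn, mul_assoc, hHG, mul_one]
  have h1 : yn + c • (yn * L) + c ^ 2 • (yn * E) = y + c • (L * y) + c ^ 2 • (E * y) := by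
    have h2 := h0
    rw [hG] at h2
    simpa only [mul_add, add_mul, mul_one, one_mul, smul_mul_assoc, mul_smul_comm] using h2
  have h1L : yn * L + c • (yn * L * L) + c ^ 2 • (yn * E * L) =
      y * L + c • (L * y * L) + c ^ 2 • (E * y * L) := by
    have h2 := congrArg (fun z ↦ z * L) h1
    simpa only [add_mul, smul_mul_assoc] using h2
  refine ⟨E * y - yn * E - (L * y - yn * L + c • (E * y - yn * E)) * L, ?_⟩
  simp only [sub_mul, add_mul, smul_mul_assoc]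
  linear_combination (norm := module) h1 - c • h1L

private lemma conj_pow (g g' : Matrix (Fin r) (Fin r) ℤ_[ℓ]) (k : ℕ)
    {W : Submodule ℚ_[ℓ] (Matrix (Fin r) (Fin r) ℚ_[ℓ])}
    (hW : ∀ w ∈ W, co g * w * co g' ∈ W) (y : Matrix (Fin r) (Fin r) ℤ_[ℓ]) (hy : co y ∈ W) :
    co (g ^ k * y * g' ^ k) ∈ W := by
  induction k with
  | zero => simpa using hy
  | succ k ih =>
    have h1 : g ^ (k + 1) * y * g' ^ (k + 1) = g * (g ^ k * y * g' ^ k) * g' := by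
      rw [pow_succ' g k, pow_succ g' k]
      simp only [mul_assoc]
    rw [h1, co_mul, co_mul]
    exact hW _ ih

theorem lie_mem_of_log {W : Submodule ℚ_[ℓ] (Matrix (Fin r) (Fin r) ℚ_[ℓ])} {g : GL (Fin r) ℤ_[ℓ]}
    {L : Matrix (Fin r) (Fin r) ℤ_[ℓ]} (hL : IsLog (g : Matrix (Fin r) (Fin r) ℤ_[ℓ]) L)
    (hW : ∀ w ∈ W, co (g : Matrix (Fin r) (Fin r) ℤ_[ℓ]) * w *
      co ((g⁻¹ : GL (Fin r) ℤ_[ℓ]) : Matrix (Fin r) (Fin r) ℤ_[ℓ]) ∈ W) :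
    ∀ y ∈ W, co L * y - y * co L ∈ W := by
  intro y hy
  obtain ⟨c, hc, y', hy'⟩ := exists_scale y
  have hyW : co y' ∈ W := by rw [hy']; exact W.smul_mem c hy
  have key : co L * co y' - co y' * co L ∈ W := by
    apply mem_of_approx
    intro n
    obtain ⟨E, hE⟩ := hL n
    set G : Matrix (Fin r) (Fin r) ℤ_[ℓ] := (g : Matrix (Fin r) (Fin r) ℤ_[ℓ]) with hG
    set G' : Matrix (Fin r) (Fin r) ℤ_[ℓ] :=
      ((g⁻¹ : GL (Fin r) ℤ_[ℓ]) : Matrix (Fin r) (Fin r) ℤ_[ℓ]) with hG'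
    have hGG : G' * G = 1 := g.inv_mul
    have hGG' : G * G' = 1 := g.mul_inv
    have hcomm : Commute G' G := by rw [Commute, SemiconjBy, hGG, hGG']
    have hpow : G' ^ (ℓ ^ n) * G ^ (ℓ ^ n) = 1 := by
      rw [← hcomm.mul_pow, hGG, one_pow]
    obtain ⟨E₂, hE₂⟩ := conj_expand hE hpow y'
    have hmem := conj_pow G G' (ℓ ^ n) hW y' hyW
    rw [hE₂] at hmem
    rw [co_add', co_add', co_smul_pow, co_smul_pow, co_sub', co_mul, co_mul] at hmem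
    have hl : ((ℓ : ℚ_[ℓ]) ^ n) ≠ 0 := pow_ne_zero _ ell_ne
    refine ⟨((ℓ : ℚ_[ℓ]) ^ n)⁻¹ • ((co y' + (ℓ : ℚ_[ℓ]) ^ n • (co L * co y' - co y' * co L) +
      (ℓ : ℚ_[ℓ]) ^ (2 * n) • co E₂) - co y'), W.smul_mem _ (W.sub_mem hmem hyW), -E₂, ?_⟩
    have h2 : (ℓ : ℚ_[ℓ]) ^ (2 * n) = (ℓ : ℚ_[ℓ]) ^ n * (ℓ : ℚ_[ℓ]) ^ n := by ring
    have h3 : co (-E₂) = - co E₂ := by rw [co_eq, co_eq, map_neg]
    rw [h3, h2]
    have h4 : co y' + (ℓ : ℚ_[ℓ]) ^ n • (co L * co y' - co y' * co L) +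
        ((ℓ : ℚ_[ℓ]) ^ n * (ℓ : ℚ_[ℓ]) ^ n) • co E₂ - co y' =
        (ℓ : ℚ_[ℓ]) ^ n • ((co L * co y' - co y' * co L) + (ℓ : ℚ_[ℓ]) ^ n • co E₂) := by
      module
    rw [h4, inv_smul_smul₀ hl]
    module
  have h5 : y = c⁻¹ • co y' := by rw [hy', inv_smul_smul₀ hc]
  have h6 : co L * y - y * co L = c⁻¹ • (co L * co y' - co y' * co L) := by
    rw [h5, mul_smul_comm, smul_mul_assoc, smul_sub]
  rw [h6]
  exact W.smul_mem _ key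

/-- The operators on integral matrices which preserve a subspace. -/
private noncomputable def pres (W : Submodule ℚ_[ℓ] (Matrix (Fin r) (Fin r) ℚ_[ℓ])) :
    Subalgebra ℤ_[ℓ] (Module.End ℤ_[ℓ] (Matrix (Fin r) (Fin r) ℤ_[ℓ])) where
  carrier := {Q | ∀ x, co x ∈ W → co (Q x) ∈ W}
  mul_mem' := by
    intro P Q hP hQ x hx
    exact hP _ (hQ _ hx)
  add_mem' := by
    intro P Q hP hQ x hx
    rw [LinearMap.add_apply, co_add']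
    exact W.add_mem (hP _ hx) (hQ _ hx)
  algebraMap_mem' := by
    intro c x hx
    rw [Module.algebraMap_end_apply, co_smul']
    exact W.smul_mem _ hx

private lemma mem_pres {W : Submodule ℚ_[ℓ] (Matrix (Fin r) (Fin r) ℚ_[ℓ])}
    {Q : Module.End ℤ_[ℓ] (Matrix (Fin r) (Fin r) ℤ_[ℓ])} :
    Q ∈ pres W ↔ ∀ x, co x ∈ W → co (Q x) ∈ W := Iff.rfl

private lemma pow_eq {𝒜 : Subalgebra ℤ_[ℓ] (Module.End ℤ_[ℓ] (Matrix (Fin r) (Fin r) ℤ_[ℓ]))}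
    {T B : Module.End ℤ_[ℓ] (Matrix (Fin r) (Fin r) ℤ_[ℓ])} (hB : B ∈ 𝒜)
    (hT : T = 1 + (ℓ : ℤ_[ℓ]) ^ 2 • B) (k : ℕ) :
    ∃ B' ∈ 𝒜, T ^ k = 1 + (ℓ : ℤ_[ℓ]) ^ 2 • B' := by
  induction k with
  | zero => exact ⟨0, 𝒜.zero_mem, by rw [pow_zero, smul_zero, add_zero]⟩
  | succ k ih =>
    obtain ⟨B', hB', h⟩ := ih
    refine ⟨B' + B + (ℓ : ℤ_[ℓ]) ^ 2 • (B' * B),
      𝒜.add_mem (𝒜.add_mem hB' hB) (𝒜.smul_mem (𝒜.mul_mem hB' hB) _), ?_⟩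
    rw [pow_succ, h, hT]
    simp only [mul_add, add_mul, mul_one, one_mul, smul_mul_assoc, mul_smul_comm]
    module

private lemma pow_sub_one {𝒜 : Subalgebra ℤ_[ℓ] (Module.End ℤ_[ℓ] (Matrix (Fin r) (Fin r) ℤ_[ℓ]))}
    {T B : Module.End ℤ_[ℓ] (Matrix (Fin r) (Fin r) ℤ_[ℓ])} (hB : B ∈ 𝒜)
    (hT : T = 1 + (ℓ : ℤ_[ℓ]) ^ 2 • B) (n : ℕ) :
    ∃ Q ∈ 𝒜, T ^ (ℓ ^ n) - 1 = (ℓ : ℤ_[ℓ]) ^ n • ((1 + (ℓ : ℤ_[ℓ]) • Q) * (T - 1)) := by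
  induction n with
  | zero => exact ⟨0, 𝒜.zero_mem, by simp⟩
  | succ n ih =>
    obtain ⟨Q, hQ, h⟩ := ih
    choose f hf hf' using fun k : ℕ ↦ pow_eq hB hT k
    have h1 : ∑ j ∈ Finset.range ℓ, (T ^ (ℓ ^ n)) ^ j =
        (ℓ : ℤ_[ℓ]) • (1 + (ℓ : ℤ_[ℓ]) • ∑ j ∈ Finset.range ℓ, f (ℓ ^ n * j)) := by
      have h2 : ∀ j ∈ Finset.range ℓ, (T ^ (ℓ ^ n)) ^ j =
          1 + (ℓ : ℤ_[ℓ]) ^ 2 • f (ℓ ^ n * j) := by
        intro j _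
        rw [← pow_mul, hf']
      rw [Finset.sum_congr rfl h2, Finset.sum_add_distrib, ← Finset.smul_sum, Finset.sum_const,
        Finset.card_range, smul_add, smul_smul, ← pow_two]
      congr 1
    have h3 : T ^ (ℓ ^ (n + 1)) - 1 =
        (∑ j ∈ Finset.range ℓ, (T ^ (ℓ ^ n)) ^ j) * (T ^ (ℓ ^ n) - 1) := by
      rw [geom_sum_mul, ← pow_mul, ← pow_succ]
    set S := ∑ j ∈ Finset.range ℓ, f (ℓ ^ n * j) with hS
    have hS' : S ∈ 𝒜 := 𝒜.sum_mem fun j _ ↦ hf _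
    refine ⟨S + Q + (ℓ : ℤ_[ℓ]) • (S * Q),
      𝒜.add_mem (𝒜.add_mem hS' hQ) (𝒜.smul_mem (𝒜.mul_mem hS' hQ) _), ?_⟩
    rw [h3, h1, h]
    simp only [mul_add, add_mul, one_mul, smul_mul_assoc, mul_smul_comm, smul_add,
      smul_smul, mul_assoc]
    module

theorem sub_mem_of_log {W : Submodule ℚ_[ℓ] (Matrix (Fin r) (Fin r) ℚ_[ℓ])} {g : GL (Fin r) ℤ_[ℓ]}
    {L : Matrix (Fin r) (Fin r) ℤ_[ℓ]}
    (hg : ∃ A : Matrix (Fin r) (Fin r) ℤ_[ℓ],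
      (g : Matrix (Fin r) (Fin r) ℤ_[ℓ]) = 1 + (ℓ : ℤ_[ℓ]) ^ 2 • A)
    (hL : IsLog (g : Matrix (Fin r) (Fin r) ℤ_[ℓ]) L)
    (hW : ∀ w ∈ W, co (g : Matrix (Fin r) (Fin r) ℤ_[ℓ]) * w *
      co ((g⁻¹ : GL (Fin r) ℤ_[ℓ]) : Matrix (Fin r) (Fin r) ℤ_[ℓ]) ∈ W)
    {y : Matrix (Fin r) (Fin r) ℚ_[ℓ]} (hy : co L * y - y * co L ∈ W) :
    co (g : Matrix (Fin r) (Fin r) ℤ_[ℓ]) * y *
      co ((g⁻¹ : GL (Fin r) ℤ_[ℓ]) : Matrix (Fin r) (Fin r) ℤ_[ℓ]) - y ∈ W := by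
  obtain ⟨A, hA⟩ := hg
  obtain ⟨c, hc, y', hy'⟩ := exists_scale y
  have hl2 : ((ℓ : ℚ_[ℓ]) ^ 2) ≠ 0 := pow_ne_zero _ ell_ne
  set G : Matrix (Fin r) (Fin r) ℤ_[ℓ] := (g : Matrix (Fin r) (Fin r) ℤ_[ℓ]) with hG
  set G' : Matrix (Fin r) (Fin r) ℤ_[ℓ] :=
    ((g⁻¹ : GL (Fin r) ℤ_[ℓ]) : Matrix (Fin r) (Fin r) ℤ_[ℓ]) with hG'
  have hGG : G' * G = 1 := g.inv_mul
  have hGG' : G * G' = 1 := g.mul_inv
  have hcomm : Commute G' G := by rw [Commute, SemiconjBy, hGG, hGG']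
  have hLy : co (L * y' - y' * L) ∈ W := by
    rw [co_sub', co_mul, co_mul, hy', mul_smul_comm, smul_mul_assoc, ← smul_sub]
    exact W.smul_mem _ hy
  -- the conjugation operator
  let T : Module.End ℤ_[ℓ] (Matrix (Fin r) (Fin r) ℤ_[ℓ]) := LinearMap.mulLeftRight ℤ_[ℓ] (G, G')
  have hT : ∀ x, T x = G * x * G' := fun x ↦ LinearMap.mulLeftRight_apply _ _ _
  have hTk : ∀ (k : ℕ) x, (T ^ k) x = G ^ k * x * G' ^ k := by
    intro k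
    induction k with
    | zero => intro x; simp
    | succ k ih =>
      intro x
      rw [pow_succ' T, Module.End.mul_apply, ih, hT, pow_succ' G k, pow_succ G' k]
      simp only [mul_assoc]
  let A' : Matrix (Fin r) (Fin r) ℤ_[ℓ] := -(A * G')
  have hA' : G' = 1 + (ℓ : ℤ_[ℓ]) ^ 2 • A' := by
    have h1 : G' = G' + (ℓ : ℤ_[ℓ]) ^ 2 • (A * G') - (ℓ : ℤ_[ℓ]) ^ 2 • (A * G') := by abel
    have h2 : G' + (ℓ : ℤ_[ℓ]) ^ 2 • (A * G') = 1 := by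
      rw [← hGG', hA, add_mul, one_mul, smul_mul_assoc]
    rw [h2] at h1
    rw [h1]
    change _ = 1 + (ℓ : ℤ_[ℓ]) ^ 2 • (-(A * G'))
    rw [smul_neg]
    abel
  let B : Module.End ℤ_[ℓ] (Matrix (Fin r) (Fin r) ℤ_[ℓ]) :=
    LinearMap.mulLeft ℤ_[ℓ] A + LinearMap.mulRight ℤ_[ℓ] A' +
      (ℓ : ℤ_[ℓ]) ^ 2 • LinearMap.mulLeftRight ℤ_[ℓ] (A, A')
  have hTB : T = 1 + (ℓ : ℤ_[ℓ]) ^ 2 • B := by
    apply LinearMap.ext
    intro x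
    have h1 : B x = A * x + x * A' + (ℓ : ℤ_[ℓ]) ^ 2 • (A * x * A') := by
      simp [B, LinearMap.mulLeftRight_apply]
    rw [hT, LinearMap.add_apply, LinearMap.smul_apply, h1, Module.End.one_apply]
    conv_lhs => rw [hA, hA']
    simp only [mul_add, add_mul, mul_one, one_mul, smul_mul_assoc, mul_smul_comm]
    module
  have hTmem : T ∈ pres W := by
    rw [mem_pres]
    intro x hx
    rw [hT, co_mul, co_mul]
    exact hW _ hx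
  have hBmem : B ∈ pres W := by
    rw [mem_pres]
    intro x hx
    have h1 : co (T x) - co x = (ℓ : ℚ_[ℓ]) ^ 2 • co (B x) := by
      rw [hTB, LinearMap.add_apply, LinearMap.smul_apply, Module.End.one_apply, co_add',
        co_smul_pow]
      abel
    have h2 : co (B x) = ((ℓ : ℚ_[ℓ]) ^ 2)⁻¹ • (co (T x) - co x) := by
      rw [h1, inv_smul_smul₀ hl2]
    rw [h2]
    exact W.smul_mem _ (W.sub_mem (hTmem x hx) hx)
  -- the difference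
  set d : Matrix (Fin r) (Fin r) ℤ_[ℓ] := T y' - y' with hd
  have key : co d ∈ W := by
    apply mem_of_approx
    intro n
    obtain ⟨E, hE⟩ := hL n
    have hpow : G' ^ (ℓ ^ n) * G ^ (ℓ ^ n) = 1 := by
      rw [← hcomm.mul_pow, hGG, one_pow]
    obtain ⟨E₂, hE₂⟩ := conj_expand hE hpow y'
    obtain ⟨Q, hQ, hQT⟩ := pow_sub_one hBmem hTB n
    have h1 : (ℓ : ℤ_[ℓ]) ^ n • ((1 + (ℓ : ℤ_[ℓ]) • Q) d) =
        (ℓ : ℤ_[ℓ]) ^ n • ((L * y' - y' * L) + (ℓ : ℤ_[ℓ]) ^ n • E₂) := by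
      have h2 : (T ^ (ℓ ^ n) - 1) y' = (ℓ : ℤ_[ℓ]) ^ n • ((1 + (ℓ : ℤ_[ℓ]) • Q) d) := by
        rw [hQT, LinearMap.smul_apply, Module.End.mul_apply, LinearMap.sub_apply,
          Module.End.one_apply]
      rw [← h2, LinearMap.sub_apply, hTk, Module.End.one_apply, hE₂, smul_add, smul_smul,
        ← pow_add, ← two_mul]
      abel
    have hl : ((ℓ : ℤ_[ℓ]) ^ n) ≠ 0 :=
      pow_ne_zero _ (Nat.cast_ne_zero.mpr (Fact.out : ℓ.Prime).ne_zero)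
    have h2 : (1 + (ℓ : ℤ_[ℓ]) • Q) d = (L * y' - y' * L) + (ℓ : ℤ_[ℓ]) ^ n • E₂ :=
      smul_right_injective _ hl h1
    -- invert `1 + l Q` modulo `l^n`
    set R : Module.End ℤ_[ℓ] (Matrix (Fin r) (Fin r) ℤ_[ℓ]) := -((ℓ : ℤ_[ℓ]) • Q) with hR
    have hRmem : R ∈ pres W := (pres W).neg_mem ((pres W).smul_mem hQ _)
    have h3 : (∑ j ∈ Finset.range n, R ^ j) * (1 - R) = 1 - R ^ n := geom_sum_mul_neg R n
    have hR' : R = (ℓ : ℤ_[ℓ]) • (-Q) := by rw [hR, smul_neg]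
    have h4 : R ^ n = (ℓ : ℤ_[ℓ]) ^ n • ((-Q) ^ n) := by
      rw [hR', smul_pow]
    have h5 : (1 - R) d = (L * y' - y' * L) + (ℓ : ℤ_[ℓ]) ^ n • E₂ := by
      rw [hR, sub_neg_eq_add, h2]
    set P := ∑ j ∈ Finset.range n, R ^ j with hP
    have hPmem : P ∈ pres W := (pres W).sum_mem fun j _ ↦ (pres W).pow_mem hRmem j
    have h6 : d = P (L * y' - y' * L) + (ℓ : ℤ_[ℓ]) ^ n • (P E₂ + ((-Q) ^ n) d) := by
      have h7 : (P * (1 - R)) d = (1 - R ^ n) d := by rw [h3]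
      rw [Module.End.mul_apply, h5, map_add, map_smul, LinearMap.sub_apply, Module.End.one_apply,
        h4, LinearMap.smul_apply] at h7
      rw [smul_add, ← add_assoc, h7]
      abel
    refine ⟨co (P (L * y' - y' * L)), hPmem _ hLy, P E₂ + ((-Q) ^ n) d, ?_⟩
    rw [← co_smul_pow, ← co_add', ← h6]
  have h5 : y = c⁻¹ • co y' := by rw [hy', inv_smul_smul₀ hc]
  have h6 : co G * y * co G' - y = c⁻¹ • co d := by
    rw [hd, co_sub', hT, co_mul, co_mul, h5, mul_smul_comm, smul_mul_assoc, smul_sub]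
  rw [h6]
  exact W.smul_mem _ key

end Pool.Agent.Helper79.HI
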