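import Pool.Agent.Helper46.GG.Main

/-!
# HI-09: `ℓ`-adic logarithms

`l = (ℓ : ℤ_[ℓ])`. `one_add_pow` (`Pool/Agent/Helper46/GG/Torsion.lean`): `(1 + t)^n = 1 + n t + t^2 z` in any ring.

* `exists_log`: by induction `g^(ℓ^n) = 1 + l^n • L_n` with `L_n = l^2 • L_n'` and `L_(n+1) = L_n + l^(n+1) • D_n` for some `D_n`: `g^(ℓ^(n+1)) = (1 + l^n • L_n)^ℓ = 1 + ℓ l^n • L_n + (l^n • L_n)^2 z = 1 + l^(n+1) • L_n + l^(2n+4) • (L_n'^2 z)`,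
  and `2 n + 4 = (n + 1) + (n + 3)`: so `L_(n+1) = L_n + l^(n+3) • (L_n'^2 z)`, divisible by `l^2`. The entries of `L_n` are Cauchy sequences in `ℤ_[ℓ]`; for the limit `L`: `L_n = L + l^(n+1) • E_n'` for some `E_n'`
  (complete: e.g. `L = L_0 + ∑ l^(n+1) • D_n`, `PadicInt` is complete, the ideal `(l^(n+1))` is closed: `PadicInt.norm_le_pow_iff_mem_span_pow`,
  `‖x‖ ≤ ℓ^(-n)` closed condition; or `IsAdicComplete (span {l}) ℤ_[ℓ]` if available: `IsPrecomplete.prec`).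
  So `g^(ℓ^n) = 1 + l^n • L + l^n • l^(n+1) • E_n'`.
* `IsLog.unique`: `l^n • (L - L') = l^(2n) • (E' - E)`, so `L - L' = l^n • (…)` for all `n` (cancel `l^n`: `smul_right_injective` / entries in a domain), so each entry is divisible by all `l^n` and is `0` (its norm is `≤ ℓ^(-n)` for all `n`).
* `IsLog.pow`: `(1 + l^n • (L + l^n • E))^m` by `one_add_pow`.
* `IsLog.conj`: `(a g b)^k = a g^k b` as `b a = 1`, `a b = 1`.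
* `IsLog.congr`: first by induction `g^(ℓ^n) = h^(ℓ^n) + l^(K + n) • B_n`: if `G = H + l^a • B` with `a ≥ 2`, `H = 1 + l^2 • A`, then `G^ℓ = H^ℓ + l^(a+1) • B'`:
  `G = H (1 + l^a • H⁻¹ B)` is not commutative; instead `G^ℓ - H^ℓ = ∑_(i<ℓ) G^i (G - H) H^(ℓ-1-i)` (`Commute` is not needed: telescoping sum, prove by induction on the exponent) `= l^a • ∑_i G^i B H^(ℓ-1-i)`, and `G^i B H^(ℓ-1-i) = B + l^2 • (…)`
  (`G`, `H` are `1 + l^2 • …`), so the sum is `ℓ B + l^2 • (…)`, divisible by `l`. Then `l^n • (L - L') = l^(K+n) • B_n + l^(2n) • (E' - E)`; take `n = K`.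
-/

set_option linter.unusedSectionVars false

namespace Pool.Agent.Helper79.HI

open Matrix

variable {r ℓ : ℕ} [Fact ℓ.Prime]

/-- `L` is the logarithm of `g`. -/
def IsLog (g L : Matrix (Fin r) (Fin r) ℤ_[ℓ]) : Prop :=
  ∀ n : ℕ, ∃ E : Matrix (Fin r) (Fin r) ℤ_[ℓ],
    g ^ (ℓ ^ n) = 1 + (ℓ : ℤ_[ℓ]) ^ n • L + (ℓ : ℤ_[ℓ]) ^ (2 * n) • E

private theorem smul_cancel {a : ℕ} {A B : Matrix (Fin r) (Fin r) ℤ_[ℓ]}
    (h : (ℓ : ℤ_[ℓ]) ^ a • A = (ℓ : ℤ_[ℓ]) ^ a • B) : A = B := by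
  have hl0 : (ℓ : ℤ_[ℓ]) ^ a ≠ 0 := pow_ne_zero _ PadicInt.prime_p.ne_zero
  ext i j
  have := congrFun (congrFun h i) j
  simp only [Matrix.smul_apply, smul_eq_mul] at this
  exact mul_left_cancel₀ hl0 this

private theorem natCast_mul_mat (n : ℕ) (A : Matrix (Fin r) (Fin r) ℤ_[ℓ]) :
    (n : Matrix (Fin r) (Fin r) ℤ_[ℓ]) * A = (n : ℤ_[ℓ]) • A := by
  rw [← nsmul_eq_mul, Nat.cast_smul_eq_nsmul]

private theorem pow_step {n : ℕ} (g A : Matrix (Fin r) (Fin r) ℤ_[ℓ])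
    (h : g ^ (ℓ ^ n) = 1 + (ℓ : ℤ_[ℓ]) ^ (n + 2) • A) :
    ∃ D : Matrix (Fin r) (Fin r) ℤ_[ℓ],
      g ^ (ℓ ^ (n + 1)) = 1 + (ℓ : ℤ_[ℓ]) ^ (n + 1 + 2) • (A + (ℓ : ℤ_[ℓ]) ^ (n + 1) • D) := by
  obtain ⟨z, hz⟩ := Pool.Agent.Helper46.GG.one_add_pow ((ℓ : ℤ_[ℓ]) ^ (n + 2) • A) ℓ
  refine ⟨A ^ 2 * z, ?_⟩
  rw [pow_succ, pow_mul, h, hz, natCast_mul_mat, smul_pow, smul_mul_assoc]
  module

theorem exists_log {g : Matrix (Fin r) (Fin r) ℤ_[ℓ]}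
    (hg : ∃ A : Matrix (Fin r) (Fin r) ℤ_[ℓ], g = 1 + (ℓ : ℤ_[ℓ]) ^ 2 • A) : ∃ L, IsLog g L := by
  have h1 : ∀ n : ℕ, ∃ A : Matrix (Fin r) (Fin r) ℤ_[ℓ],
      g ^ (ℓ ^ n) = 1 + (ℓ : ℤ_[ℓ]) ^ (n + 2) • A := by
    intro n
    induction n with
    | zero =>
      obtain ⟨A, hA⟩ := hg
      exact ⟨A, by rw [pow_zero, pow_one, hA]⟩
    | succ n ih =>
      obtain ⟨A, hA⟩ := ih
      obtain ⟨D, hD⟩ := pow_step g A hA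
      exact ⟨_, hD⟩
  choose A hA using h1
  have h2 : ∀ n : ℕ, ∃ D : Matrix (Fin r) (Fin r) ℤ_[ℓ],
      A (n + 1) = A n + (ℓ : ℤ_[ℓ]) ^ (n + 1) • D := by
    intro n
    obtain ⟨D, hD⟩ := pow_step g (A n) (hA n)
    rw [hA (n + 1)] at hD
    exact ⟨D, smul_cancel (add_left_cancel hD)⟩
  choose D hD using h2
  have hnorm : ‖(ℓ : ℤ_[ℓ])‖ < 1 := by
    rw [PadicInt.norm_p]
    have : (1 : ℝ) < ℓ := by exact_mod_cast (Fact.out : ℓ.Prime).one_lt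
    exact inv_lt_one_of_one_lt₀ this
  have hs : ∀ (f : ℕ → ℤ_[ℓ]), Summable fun k => (ℓ : ℤ_[ℓ]) ^ k * f k := by
    intro f
    refine Summable.of_norm_bounded (summable_geometric_of_lt_one (norm_nonneg _) hnorm) ?_
    intro k
    rw [norm_mul, norm_pow]
    exact mul_le_of_le_one_right (pow_nonneg (norm_nonneg _) _) (PadicInt.norm_le_one _)
  -- the tails
  let T : ℕ → Matrix (Fin r) (Fin r) ℤ_[ℓ] := fun n =>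
    Matrix.of fun i j => ∑' k, (ℓ : ℤ_[ℓ]) ^ k * D (n + k) i j
  have hT : ∀ n, T n = D n + (ℓ : ℤ_[ℓ]) • T (n + 1) := by
    intro n
    ext i j
    simp only [T, Matrix.add_apply, Matrix.smul_apply, Matrix.of_apply, smul_eq_mul]
    have e1 := (hs fun k => D (n + k) i j).tsum_eq_zero_add
    have e2 := (hs fun k => D (n + 1 + k) i j).tsum_mul_left (ℓ : ℤ_[ℓ])
    rw [← e2]
    refine e1.trans ?_
    have e3 : ∀ k, (ℓ : ℤ_[ℓ]) ^ (k + 1) * D (n + (k + 1)) i j =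
        (ℓ : ℤ_[ℓ]) * ((ℓ : ℤ_[ℓ]) ^ k * D (n + 1 + k) i j) := by
      intro k
      rw [pow_succ', mul_assoc, show n + (k + 1) = n + 1 + k by ring]
    rw [tsum_congr e3, pow_zero, one_mul]
    rfl
  have hL : ∀ n, A n = A 0 + (ℓ : ℤ_[ℓ]) • T 0 - (ℓ : ℤ_[ℓ]) ^ (n + 1) • T n := by
    intro n
    induction n with
    | zero => simp
    | succ n ih =>
      rw [hD n, ih, hT n]
      module
  refine ⟨(ℓ : ℤ_[ℓ]) ^ 2 • (A 0 + (ℓ : ℤ_[ℓ]) • T 0), fun n => ⟨-((ℓ : ℤ_[ℓ]) ^ 3 • T n), ?_⟩⟩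
  rw [hA n, hL n]
  module

private theorem eq_zero_of_dvd {x : ℤ_[ℓ]} (h : ∀ n : ℕ, (ℓ : ℤ_[ℓ]) ^ n ∣ x) : x = 0 := by
  by_contra hx
  obtain ⟨n, hn⟩ := FiniteMultiplicity.of_prime_left (PadicInt.prime_p (p := ℓ)) hx
  exact hn (h _)

theorem IsLog.unique {g L L' : Matrix (Fin r) (Fin r) ℤ_[ℓ]} (h : IsLog g L) (h' : IsLog g L') :
    L = L' := by
  ext i j
  rw [← sub_eq_zero]
  apply eq_zero_of_dvd
  intro n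
  obtain ⟨E, hE⟩ := h n
  obtain ⟨E', hE'⟩ := h' n
  rw [hE'] at hE
  have h1 : (ℓ : ℤ_[ℓ]) ^ n • L = (ℓ : ℤ_[ℓ]) ^ n • (L' + (ℓ : ℤ_[ℓ]) ^ n • (E' - E)) := by
    rw [add_assoc, add_assoc] at hE
    have h2 := add_left_cancel hE
    rw [← sub_eq_zero] at h2 ⊢
    rw [← neg_eq_zero, ← h2]
    module
  have h3 := congrFun (congrFun (smul_cancel h1) i) j
  rw [Matrix.add_apply, Matrix.smul_apply, smul_eq_mul] at h3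
  rw [h3, add_sub_cancel_left]
  exact dvd_mul_right _ _

theorem IsLog.pow {g L : Matrix (Fin r) (Fin r) ℤ_[ℓ]} (h : IsLog g L) (m : ℕ) :
    IsLog (g ^ m) (m • L) := by
  intro n
  obtain ⟨E, hE⟩ := h n
  obtain ⟨z, hz⟩ := Pool.Agent.Helper46.GG.one_add_pow
    ((ℓ : ℤ_[ℓ]) ^ n • (L + (ℓ : ℤ_[ℓ]) ^ n • E)) m
  refine ⟨(m : ℤ_[ℓ]) • E + (L + (ℓ : ℤ_[ℓ]) ^ n • E) ^ 2 * z, ?_⟩
  have h1 : g ^ (ℓ ^ n) = 1 + (ℓ : ℤ_[ℓ]) ^ n • (L + (ℓ : ℤ_[ℓ]) ^ n • E) := by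
    rw [hE]
    module
  rw [← pow_mul, mul_comm m, pow_mul, h1, hz, natCast_mul_mat, smul_pow, smul_mul_assoc,
    ← Nat.cast_smul_eq_nsmul ℤ_[ℓ]]
  module

private theorem conj_pow' {g a b : Matrix (Fin r) (Fin r) ℤ_[ℓ]} (hab : a * b = 1) (hba : b * a = 1)
    (k : ℕ) : (a * g * b) ^ k = a * g ^ k * b := by
  induction k with
  | zero => rw [pow_zero, pow_zero, mul_one, hab]
  | succ k ih =>
    rw [pow_succ, ih, pow_succ]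
    calc a * g ^ k * b * (a * g * b) = a * g ^ k * (b * a) * g * b := by simp only [mul_assoc]
      _ = _ := by rw [hba, mul_one]; simp only [mul_assoc]

theorem IsLog.conj {g L a b : Matrix (Fin r) (Fin r) ℤ_[ℓ]} (h : IsLog g L) (hab : a * b = 1)
    (hba : b * a = 1) : IsLog (a * g * b) (a * L * b) := by
  intro n
  obtain ⟨E, hE⟩ := h n
  refine ⟨a * E * b, ?_⟩
  rw [conj_pow' hab hba, hE]
  simp only [mul_add, add_mul, mul_one, hab, mul_smul_comm, smul_mul_assoc]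

private theorem congr_pow {a : ℕ} {G H A B : Matrix (Fin r) (Fin r) ℤ_[ℓ]}
    (hH : H = 1 + (ℓ : ℤ_[ℓ]) ^ 2 • A) (hG : G = H + (ℓ : ℤ_[ℓ]) ^ (a + 2) • B) (k : ℕ) :
    (∃ A' : Matrix (Fin r) (Fin r) ℤ_[ℓ], H ^ k = 1 + (ℓ : ℤ_[ℓ]) ^ 2 • A') ∧
    ∃ C : Matrix (Fin r) (Fin r) ℤ_[ℓ],
      G ^ k = H ^ k + (ℓ : ℤ_[ℓ]) ^ (a + 2) • ((k : ℤ_[ℓ]) • B + (ℓ : ℤ_[ℓ]) ^ 2 • C) := by
  induction k with
  | zero => exact ⟨⟨0, by simp⟩, ⟨0, by simp⟩⟩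
  | succ k ih =>
    obtain ⟨⟨A', hA'⟩, ⟨C, hC⟩⟩ := ih
    constructor
    · refine ⟨A' + A + (ℓ : ℤ_[ℓ]) ^ 2 • (A' * A), ?_⟩
      rw [pow_succ, hA', hH]
      simp only [mul_add, add_mul, mul_one, one_mul, mul_smul_comm, smul_mul_assoc]
      module
    · refine ⟨A' * B + C + ((k : ℤ_[ℓ]) • B + (ℓ : ℤ_[ℓ]) ^ 2 • C) * A +
        (ℓ : ℤ_[ℓ]) ^ a • (((k : ℤ_[ℓ]) • B + (ℓ : ℤ_[ℓ]) ^ 2 • C) * B), ?_⟩
      have h1 : H ^ k * B = B + (ℓ : ℤ_[ℓ]) ^ 2 • (A' * B) := by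
        rw [hA', add_mul, one_mul, smul_mul_assoc]
      have h2 : ∀ X : Matrix (Fin r) (Fin r) ℤ_[ℓ], X * H = X + (ℓ : ℤ_[ℓ]) ^ 2 • (X * A) := by
        intro X
        rw [hH, mul_add, mul_one, mul_smul_comm]
      rw [pow_succ G, hC, pow_succ H]
      conv_lhs => rw [hG]
      rw [add_mul, mul_add (H ^ k), mul_smul_comm _ (H ^ k), h1, smul_mul_assoc,
        mul_add ((k : ℤ_[ℓ]) • B + (ℓ : ℤ_[ℓ]) ^ 2 • C),
        h2 ((k : ℤ_[ℓ]) • B + (ℓ : ℤ_[ℓ]) ^ 2 • C), mul_smul_comm]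
      push_cast
      module

theorem IsLog.congr {g h L L' : Matrix (Fin r) (Fin r) ℤ_[ℓ]} {K : ℕ} (hK : 2 ≤ K)
    (hh : ∃ A : Matrix (Fin r) (Fin r) ℤ_[ℓ], h = 1 + (ℓ : ℤ_[ℓ]) ^ 2 • A)
    (hgh : ∃ B : Matrix (Fin r) (Fin r) ℤ_[ℓ], g = h + (ℓ : ℤ_[ℓ]) ^ K • B)
    (hL : IsLog g L) (hL' : IsLog h L') :
    ∃ B : Matrix (Fin r) (Fin r) ℤ_[ℓ], L = L' + (ℓ : ℤ_[ℓ]) ^ K • B := by
  obtain ⟨K, rfl⟩ := Nat.exists_eq_add_of_le' hK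
  have h1 : ∀ n : ℕ, (∃ A : Matrix (Fin r) (Fin r) ℤ_[ℓ],
      h ^ (ℓ ^ n) = 1 + (ℓ : ℤ_[ℓ]) ^ 2 • A) ∧ ∃ B : Matrix (Fin r) (Fin r) ℤ_[ℓ],
      g ^ (ℓ ^ n) = h ^ (ℓ ^ n) + (ℓ : ℤ_[ℓ]) ^ (n + K + 2) • B := by
    intro n
    induction n with
    | zero =>
      obtain ⟨A, hA⟩ := hh
      obtain ⟨B, hB⟩ := hgh
      refine ⟨⟨A, by rw [pow_zero, pow_one, hA]⟩, ⟨B, ?_⟩⟩
      rw [pow_zero, pow_one, pow_one, hB, zero_add]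
    | succ n ih =>
      obtain ⟨⟨A, hA⟩, ⟨B, hB⟩⟩ := ih
      obtain ⟨h3, ⟨C, hC⟩⟩ := congr_pow hA hB ℓ
      rw [pow_succ, pow_mul, pow_mul]
      refine ⟨h3, ⟨B + (ℓ : ℤ_[ℓ]) • C, ?_⟩⟩
      rw [hC]
      module
  obtain ⟨B, hB⟩ := (h1 (K + 2)).2
  obtain ⟨E, hE⟩ := hL (K + 2)
  obtain ⟨E', hE'⟩ := hL' (K + 2)
  refine ⟨E' + B - E, ?_⟩
  apply smul_cancel (a := K + 2)
  rw [hE, hE'] at hB
  rw [add_assoc, add_assoc, add_assoc] at hB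
  have h2 := add_left_cancel hB
  rw [← sub_eq_zero] at h2 ⊢
  rw [← h2]
  module

end Pool.Agent.Helper79.HI
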