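import Pool.Agent.Helper79.HI.PLog
import Pool.Agent.Helper79.HI.FinLie

/-!
# HI-10: logarithms are in the Lie algebra

`l = (ℓ : ℤ_[ℓ])`, `co x = x.map (algebraMap ℤ_[ℓ] ℚ_[ℓ])` (`Pool/Agent/Helper46/GG/Compact.lean`), `gal G` the image of `G` in `GL r ℚ_ℓ`.

* `taylor_bound`: for a polynomial `f` over `ℚ_ℓ` there is `C ≥ 0` such that for all `n` and all integral matrices `X`:
  `‖evM (1 + (ℓ : ℚ_[ℓ])^n • co X) f - evM 1 f - (ℓ : ℚ_[ℓ])^n * evM 1 (der (co X) f)‖ ≤ C * ((ℓ : ℝ)^n)⁻¹^2`. Induction on `f` (constants; sums; `f * X_p`): with `D f` the derivative `evM 1 (der (co X) f)`, bounded by a constant which depends on `f` only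
  (`der_eq_sum` or the same induction: prove `‖evM (1 + l^n X) f‖ ≤ C'` and `‖D f‖ ≤ C'` together with it).
* `evM_der_log`: `g^(ℓ^n) = 1 + l^n • X_n`, `X_n = L + l^n • E_n`. So `evM (co (g^(ℓ^n))) f = 0` gives `evM 1 f + ℓ^n D_(X_n) f = O(ℓ^(-2n))`; `n → ∞`: `evM 1 f = 0` (all norms `≤ C'' ℓ^(-n)`), and then `‖D_(X_n) f‖ ≤ C ℓ^(-n)`, `D_(X_n) f = D_L f + ℓ^n D_(E_n) f`
  (`der_add`, `der_smul`), so `‖D_L f‖ ≤ C''' ℓ^(-n)` for all `n`: `D_L f = 0`.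
* `log_mem_lieS`: `mem_lieS_of_one` and `evM_der_log` for `f ∈ van ℚ_ℓ (mats (gal G))`: `g^(ℓ^n) ∈ G`.
* `log_mem_lieS_of_pow`: `n • L` is the logarithm of `g^n ∈ G` (`IsLog.pow`), so `co (n • L) = n • co L ∈ lieS`; divide by `n` (characteristic zero, a subspace).
-/

set_option linter.unusedSectionVars false

namespace Pool.Agent.Helper79.HI

open Matrix Pool.Agent.Helper88.MT Pool.Agent.Helper46.GG

variable {r ℓ : ℕ} [Fact ℓ.Prime]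

private theorem taylor_bound (f : MvPolynomial (Fin r × Fin r) ℚ_[ℓ]) :
    ∃ C : ℝ, 0 ≤ C ∧ ∀ (t : ℚ_[ℓ]) (X : Matrix (Fin r) (Fin r) ℚ_[ℓ]), ‖t‖ ≤ 1 →
      (∀ i j, ‖X i j‖ ≤ 1) →
      ‖evM (1 + t • X) f - evM (1 : Matrix (Fin r) (Fin r) ℚ_[ℓ]) f -
        t * evM (1 : Matrix (Fin r) (Fin r) ℚ_[ℓ]) (der X f)‖ ≤ C * ‖t‖ ^ 2 ∧
      ‖evM (1 : Matrix (Fin r) (Fin r) ℚ_[ℓ]) (der X f)‖ ≤ C ∧
      ‖evM (1 : Matrix (Fin r) (Fin r) ℚ_[ℓ]) f‖ ≤ C := by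
  induction f using MvPolynomial.induction_on with
  | C a =>
    refine ⟨‖a‖, norm_nonneg _, fun t X _ _ => ?_⟩
    have h2 : der X (MvPolynomial.C a) = 0 := Derivation.map_algebraMap _ _
    rw [h2, map_zero, mul_zero, evM_C, evM_C, sub_self, sub_zero, norm_zero]
    exact ⟨by positivity, norm_nonneg _, le_refl _⟩
  | add p q hp hq =>
    obtain ⟨C₁, hC₁, h₁⟩ := hp
    obtain ⟨C₂, hC₂, h₂⟩ := hq
    refine ⟨C₁ + C₂, by positivity, fun t X ht hX => ?_⟩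
    obtain ⟨a1, a2, a3⟩ := h₁ t X ht hX
    obtain ⟨b1, b2, b3⟩ := h₂ t X ht hX
    refine ⟨?_, ?_, ?_⟩
    · have e : evM (1 + t • X) (p + q) - evM (1 : Matrix (Fin r) (Fin r) ℚ_[ℓ]) (p + q) -
          t * evM (1 : Matrix (Fin r) (Fin r) ℚ_[ℓ]) (der X (p + q)) =
          (evM (1 + t • X) p - evM (1 : Matrix (Fin r) (Fin r) ℚ_[ℓ]) p -
            t * evM (1 : Matrix (Fin r) (Fin r) ℚ_[ℓ]) (der X p)) +
          (evM (1 + t • X) q - evM (1 : Matrix (Fin r) (Fin r) ℚ_[ℓ]) q -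
            t * evM (1 : Matrix (Fin r) (Fin r) ℚ_[ℓ]) (der X q)) := by
        simp only [map_add]
        ring
      rw [e, add_mul]
      exact (norm_add_le _ _).trans (add_le_add a1 b1)
    · rw [map_add, map_add]
      exact (norm_add_le _ _).trans (add_le_add a2 b2)
    · rw [map_add]
      exact (norm_add_le _ _).trans (add_le_add a3 b3)
  | mul_X p i hp =>
    obtain ⟨C₁, hC₁, h₁⟩ := hp
    refine ⟨3 * C₁, by positivity, fun t X ht hX => ?_⟩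
    obtain ⟨a1, a2, a3⟩ := h₁ t X ht hX
    have hx : ‖X i.1 i.2‖ ≤ 1 := hX _ _
    have hδ : ‖(1 : Matrix (Fin r) (Fin r) ℚ_[ℓ]) i.1 i.2‖ ≤ 1 := by
      rw [Matrix.one_apply]
      split_ifs
      · rw [norm_one]
      · rw [norm_zero]
        exact zero_le_one
    have hder : evM (1 : Matrix (Fin r) (Fin r) ℚ_[ℓ]) (der X (MvPolynomial.X i)) =
        X i.1 i.2 := by
      rw [evM_der_X, Matrix.one_mul]
      rfl
    have hder2 : evM (1 : Matrix (Fin r) (Fin r) ℚ_[ℓ]) (der X (p * MvPolynomial.X i)) =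
        evM (1 : Matrix (Fin r) (Fin r) ℚ_[ℓ]) p * X i.1 i.2 +
          (1 : Matrix (Fin r) (Fin r) ℚ_[ℓ]) i.1 i.2 *
            evM (1 : Matrix (Fin r) (Fin r) ℚ_[ℓ]) (der X p) := by
      rw [Derivation.leibniz, map_add, smul_eq_mul, smul_eq_mul, map_mul, map_mul, hder, evM_X]
    have hM : evM (1 + t • X) (p * MvPolynomial.X i) =
        evM (1 + t • X) p * ((1 : Matrix (Fin r) (Fin r) ℚ_[ℓ]) i.1 i.2 + t * X i.1 i.2) := by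
      rw [map_mul, evM_X, Matrix.add_apply, Matrix.smul_apply, smul_eq_mul]
    have hM1 : evM (1 : Matrix (Fin r) (Fin r) ℚ_[ℓ]) (p * MvPolynomial.X i) =
        evM (1 : Matrix (Fin r) (Fin r) ℚ_[ℓ]) p *
          (1 : Matrix (Fin r) (Fin r) ℚ_[ℓ]) i.1 i.2 := by
      rw [map_mul, evM_X]
    rw [hM, hM1, hder2]
    generalize evM (1 + t • X) p = A at a1 ⊢
    generalize evM (1 : Matrix (Fin r) (Fin r) ℚ_[ℓ]) (der X p) = b at a1 a2 ⊢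
    generalize evM (1 : Matrix (Fin r) (Fin r) ℚ_[ℓ]) p = a at a1 a3 ⊢
    generalize (1 : Matrix (Fin r) (Fin r) ℚ_[ℓ]) i.1 i.2 = δ at hδ ⊢
    generalize X i.1 i.2 = x at hx ⊢
    have ht0 := norm_nonneg t
    refine ⟨?_, ?_, ?_⟩
    · have e : A * (δ + t * x) - a * δ - t * (a * x + δ * b) =
          (A - a - t * b) * δ + t ^ 2 * (b * x) + (A - a - t * b) * (t * x) := by ring
      rw [e]
      have h3 : ‖(A - a - t * b) * δ‖ ≤ C₁ * ‖t‖ ^ 2 := by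
        rw [norm_mul]
        calc ‖A - a - t * b‖ * ‖δ‖ ≤ (C₁ * ‖t‖ ^ 2) * 1 :=
              mul_le_mul a1 hδ (norm_nonneg _) (by positivity)
          _ = C₁ * ‖t‖ ^ 2 := mul_one _
      have h4 : ‖t ^ 2 * (b * x)‖ ≤ C₁ * ‖t‖ ^ 2 := by
        rw [norm_mul, norm_mul, norm_pow]
        calc ‖t‖ ^ 2 * (‖b‖ * ‖x‖) ≤ ‖t‖ ^ 2 * (C₁ * 1) :=
              mul_le_mul_of_nonneg_left (mul_le_mul a2 hx (norm_nonneg _) hC₁) (by positivity)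
          _ = C₁ * ‖t‖ ^ 2 := by ring
      have h5 : ‖(A - a - t * b) * (t * x)‖ ≤ C₁ * ‖t‖ ^ 2 := by
        rw [norm_mul, norm_mul]
        calc ‖A - a - t * b‖ * (‖t‖ * ‖x‖) ≤ (C₁ * ‖t‖ ^ 2) * (1 * 1) :=
              mul_le_mul a1 (mul_le_mul ht hx (norm_nonneg _) zero_le_one) (by positivity)
                (by positivity)
          _ = C₁ * ‖t‖ ^ 2 := by ring
      calc _ ≤ ‖(A - a - t * b) * δ‖ + ‖t ^ 2 * (b * x)‖ + ‖(A - a - t * b) * (t * x)‖ :=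
            norm_add₃_le
        _ ≤ C₁ * ‖t‖ ^ 2 + C₁ * ‖t‖ ^ 2 + C₁ * ‖t‖ ^ 2 :=
            add_le_add (add_le_add h3 h4) h5
        _ = 3 * C₁ * ‖t‖ ^ 2 := by ring
    · have h3 : ‖a * x‖ ≤ C₁ := by
        rw [norm_mul]
        calc ‖a‖ * ‖x‖ ≤ C₁ * 1 := mul_le_mul a3 hx (norm_nonneg _) hC₁
          _ = C₁ := mul_one _
      have h4 : ‖δ * b‖ ≤ C₁ := by
        rw [norm_mul]
        calc ‖δ‖ * ‖b‖ ≤ 1 * C₁ := mul_le_mul hδ a2 (norm_nonneg _) zero_le_one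
          _ = C₁ := one_mul _
      have h5 := norm_add_le (a * x) (δ * b)
      linarith
    · rw [norm_mul]
      calc ‖a‖ * ‖δ‖ ≤ C₁ * 1 := mul_le_mul a3 hδ (norm_nonneg _) hC₁
        _ ≤ 3 * C₁ := by linarith

private theorem zero_of_bound {a : ℚ_[ℓ]} {K : ℝ} (h : ∀ n : ℕ, ‖a‖ ≤ K * ‖(ℓ : ℚ_[ℓ]) ^ n‖) :
    a = 0 := by
  have h1 : Filter.Tendsto (fun n : ℕ => K * ‖(ℓ : ℚ_[ℓ]) ^ n‖) Filter.atTop (nhds (K * 0)) := by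
    refine Filter.Tendsto.const_mul _ ?_
    have h2 := tendsto_pow_atTop_nhds_zero_of_norm_lt_one (Padic.norm_p_lt_one (p := ℓ))
    have h3 := h2.norm
    rwa [norm_zero] at h3
  rw [mul_zero] at h1
  have h4 := ge_of_tendsto' h1 h
  exact norm_le_zero_iff.1 h4

private theorem co_pow_eq {g L E : Matrix (Fin r) (Fin r) ℤ_[ℓ]} {n : ℕ}
    (h : g ^ (ℓ ^ n) = 1 + (ℓ : ℤ_[ℓ]) ^ n • L + (ℓ : ℤ_[ℓ]) ^ (2 * n) • E) :
    co (g ^ (ℓ ^ n)) = 1 + (ℓ : ℚ_[ℓ]) ^ n • (co L + (ℓ : ℚ_[ℓ]) ^ n • co E) := by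
  rw [h]
  ext i j
  simp only [co, Matrix.map_apply, Matrix.add_apply, Matrix.smul_apply, smul_eq_mul, map_add,
    map_mul, map_pow, map_natCast, Matrix.one_apply]
  have h1 : (algebraMap ℤ_[ℓ] ℚ_[ℓ]) (if i = j then 1 else 0) = if i = j then 1 else 0 := by
    split_ifs
    · exact map_one _
    · exact map_zero _
  rw [h1]
  ring

private theorem norm_co_le (x : Matrix (Fin r) (Fin r) ℤ_[ℓ]) (i j : Fin r) :
    ‖co x i j‖ ≤ 1 := (x i j).2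

theorem evM_der_log {g L : Matrix (Fin r) (Fin r) ℤ_[ℓ]} (h : IsLog g L)
    {f : MvPolynomial (Fin r × Fin r) ℚ_[ℓ]} (hf : ∀ n : ℕ, evM (co (g ^ (ℓ ^ n))) f = 0) :
    evM (1 : Matrix (Fin r) (Fin r) ℚ_[ℓ]) (der (co L) f) = 0 := by
  obtain ⟨C, hC, hT⟩ := taylor_bound f
  choose E hE using h
  have hl : ∀ n : ℕ, ‖(ℓ : ℚ_[ℓ]) ^ n‖ ≤ 1 := by
    intro n
    rw [norm_pow]
    exact pow_le_one₀ (norm_nonneg _) (Padic.norm_p_lt_one (p := ℓ)).le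
  have hX : ∀ n : ℕ, ∀ i j, ‖(co L + (ℓ : ℚ_[ℓ]) ^ n • co (E n)) i j‖ ≤ 1 := by
    intro n i j
    rw [Matrix.add_apply, Matrix.smul_apply, smul_eq_mul]
    refine (Padic.nonarchimedean _ _).trans (max_le (norm_co_le L i j) ?_)
    rw [norm_mul]
    exact mul_le_one₀ (hl n) (norm_nonneg _) (norm_co_le (E n) i j)
  have key : ∀ n : ℕ, ‖0 - evM (1 : Matrix (Fin r) (Fin r) ℚ_[ℓ]) f - (ℓ : ℚ_[ℓ]) ^ n *
      evM (1 : Matrix (Fin r) (Fin r) ℚ_[ℓ]) (der (co L + (ℓ : ℚ_[ℓ]) ^ n • co (E n)) f)‖ ≤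
        C * ‖(ℓ : ℚ_[ℓ]) ^ n‖ ^ 2 := by
    intro n
    have h1 := (hT ((ℓ : ℚ_[ℓ]) ^ n) (co L + (ℓ : ℚ_[ℓ]) ^ n • co (E n)) (hl n) (hX n)).1
    rw [← co_pow_eq (hE n), hf n] at h1
    exact h1
  have hbd : ∀ n : ℕ, ‖evM (1 : Matrix (Fin r) (Fin r) ℚ_[ℓ])
      (der (co L + (ℓ : ℚ_[ℓ]) ^ n • co (E n)) f)‖ ≤ C := fun n =>
    (hT ((ℓ : ℚ_[ℓ]) ^ n) (co L + (ℓ : ℚ_[ℓ]) ^ n • co (E n)) (hl n) (hX n)).2.1
  have hf1 : evM (1 : Matrix (Fin r) (Fin r) ℚ_[ℓ]) f = 0 := by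
    refine zero_of_bound (ℓ := ℓ) (K := 2 * C) fun n => ?_
    have h1 := key n
    have h2 := hbd n
    have h0 := hl n
    generalize (ℓ : ℚ_[ℓ]) ^ n = t at *
    generalize evM (1 : Matrix (Fin r) (Fin r) ℚ_[ℓ]) (der (co L + t • co (E n)) f) = b at *
    generalize evM (1 : Matrix (Fin r) (Fin r) ℚ_[ℓ]) f = a at *
    have e : a = -(0 - a - t * b) - t * b := by ring
    have h3 : ‖a‖ ≤ ‖0 - a - t * b‖ + ‖t * b‖ := by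
      calc ‖a‖ = ‖-(0 - a - t * b) - t * b‖ := by rw [← e]
        _ ≤ ‖-(0 - a - t * b)‖ + ‖t * b‖ := norm_sub_le _ _
        _ = _ := by rw [norm_neg]
    have h4 : ‖t * b‖ ≤ C * ‖t‖ := by
      rw [norm_mul, mul_comm]
      exact mul_le_mul_of_nonneg_right h2 (norm_nonneg _)
    have h5 : C * ‖t‖ ^ 2 ≤ C * ‖t‖ := by
      refine mul_le_mul_of_nonneg_left ?_ hC
      have := norm_nonneg t
      nlinarith
    linarith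
  refine zero_of_bound (ℓ := ℓ) (K := 2 * C) fun n => ?_
  have h1 := key n
  rw [hf1, sub_zero, zero_sub, norm_neg, norm_mul] at h1
  have hpos : 0 < ‖(ℓ : ℚ_[ℓ]) ^ n‖ := by
    rw [norm_pos_iff]
    exact pow_ne_zero _ (by exact_mod_cast (Fact.out : ℓ.Prime).ne_zero)
  have h2 : ‖evM (1 : Matrix (Fin r) (Fin r) ℚ_[ℓ])
      (der (co L + (ℓ : ℚ_[ℓ]) ^ n • co (E n)) f)‖ ≤ C * ‖(ℓ : ℚ_[ℓ]) ^ n‖ := by
    refine le_of_mul_le_mul_left ?_ hpos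
    calc _ ≤ C * ‖(ℓ : ℚ_[ℓ]) ^ n‖ ^ 2 := h1
      _ = ‖(ℓ : ℚ_[ℓ]) ^ n‖ * (C * ‖(ℓ : ℚ_[ℓ]) ^ n‖) := by ring
  have h3 : ‖evM (1 : Matrix (Fin r) (Fin r) ℚ_[ℓ]) (der (co (E n)) f)‖ ≤ C :=
    (hT 0 (co (E n)) (by rw [norm_zero]; exact zero_le_one) (norm_co_le (E n))).2.1
  have h4 : evM (1 : Matrix (Fin r) (Fin r) ℚ_[ℓ])
      (der (co L + (ℓ : ℚ_[ℓ]) ^ n • co (E n)) f) =
      evM (1 : Matrix (Fin r) (Fin r) ℚ_[ℓ]) (der (co L) f) + (ℓ : ℚ_[ℓ]) ^ n *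
        evM (1 : Matrix (Fin r) (Fin r) ℚ_[ℓ]) (der (co (E n)) f) := by
    rw [der_add, der_smul, Derivation.add_apply, Derivation.smul_apply, map_add, map_smul,
      smul_eq_mul]
  rw [h4] at h2
  generalize evM (1 : Matrix (Fin r) (Fin r) ℚ_[ℓ]) (der (co L) f) = a at *
  generalize evM (1 : Matrix (Fin r) (Fin r) ℚ_[ℓ]) (der (co (E n)) f) = b at *
  have e : a = (a + (ℓ : ℚ_[ℓ]) ^ n * b) - (ℓ : ℚ_[ℓ]) ^ n * b := by ring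
  have h5 : ‖a‖ ≤ ‖a + (ℓ : ℚ_[ℓ]) ^ n * b‖ + ‖(ℓ : ℚ_[ℓ]) ^ n * b‖ := by
    calc ‖a‖ = ‖(a + (ℓ : ℚ_[ℓ]) ^ n * b) - (ℓ : ℚ_[ℓ]) ^ n * b‖ := by rw [← e]
      _ ≤ _ := norm_sub_le _ _
  have h6 : ‖(ℓ : ℚ_[ℓ]) ^ n * b‖ ≤ C * ‖(ℓ : ℚ_[ℓ]) ^ n‖ := by
    rw [norm_mul, mul_comm]
    exact mul_le_mul_of_nonneg_right h3 (norm_nonneg _)
  linarith

theorem log_mem_lieS {G : Subgroup (GL (Fin r) ℤ_[ℓ])} {g : GL (Fin r) ℤ_[ℓ]} (hg : g ∈ G)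
    {L : Matrix (Fin r) (Fin r) ℤ_[ℓ]} (h : IsLog (g : Matrix (Fin r) (Fin r) ℤ_[ℓ]) L) :
    co L ∈ lieS (gal G) := by
  refine mem_lieS_of_one fun f hf => ?_
  refine evM_der_log h fun n => ?_
  refine mem_van_self.mp hf _ ⟨Matrix.GeneralLinearGroup.map (algebraMap ℤ_[ℓ] ℚ_[ℓ])
    (g ^ (ℓ ^ n)), ⟨g ^ (ℓ ^ n), G.pow_mem hg _, rfl⟩, ?_⟩
  rw [← Units.val_pow_eq_pow_val]
  rfl

theorem log_mem_lieS_of_pow {G : Subgroup (GL (Fin r) ℤ_[ℓ])} {g : GL (Fin r) ℤ_[ℓ]} {n : ℕ}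
    (hn : 0 < n) (hg : g ^ n ∈ G) {L : Matrix (Fin r) (Fin r) ℤ_[ℓ]}
    (h : IsLog (g : Matrix (Fin r) (Fin r) ℤ_[ℓ]) L) : co L ∈ lieS (gal G) := by
  have h1 : IsLog ((g ^ n : GL (Fin r) ℤ_[ℓ]) : Matrix (Fin r) (Fin r) ℤ_[ℓ]) (n • L) := by
    rw [Units.val_pow_eq_pow_val]
    exact h.pow n
  have h2 := log_mem_lieS hg h1
  have h3 : co (n • L) = (n : ℚ_[ℓ]) • co L := by
    ext i j
    rw [Matrix.smul_apply, smul_eq_mul]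
    show algebraMap ℤ_[ℓ] ℚ_[ℓ] ((n • L) i j) = (n : ℚ_[ℓ]) * algebraMap ℤ_[ℓ] ℚ_[ℓ] (L i j)
    rw [Matrix.smul_apply, nsmul_eq_mul, map_mul, map_natCast]
  rw [h3] at h2
  have hn0 : (n : ℚ_[ℓ]) ≠ 0 := by exact_mod_cast hn.ne'
  have h4 := (lieS (gal G)).smul_mem (n : ℚ_[ℓ])⁻¹ h2
  rwa [smul_smul, inv_mul_cancel₀ hn0, one_smul] at h4

end Pool.Agent.Helper79.HI
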