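import Pool.Agent.Helper79.HI.ClosureL
import Pool.Agent.Helper79.HI.Final
import Pool.Agent.Helper79.HI.MTContain
import Pool.Agent.Helper79.HG.Main

/-!
# HI-22: lemmas for the comparison at a point

(helper79)
-/

set_option linter.unusedSectionVars false

namespace Pool.Agent.Helper79.HI

open Matrix Module Pool.Agent.Helper79.BB Pool.Agent.Helper79.HH Pool.Agent.Helper79.HG
  Pool.Agent.Helper64.Per Pool.Agent.Helper88.MT Pool.Agent.Helper46.GG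

/-- The Lie algebra of the closure. -/
theorem lieS_zarG {r : ℕ} {k F : Type} [Field k] [Field F] [Algebra k F] (Γ : Subgroup (GL (Fin r) k)) :
    lieS (zarG F Γ) = mspan F (lieS Γ) := by
  rw [← lieS_map]
  have h1 : ∀ f : MvPolynomial (Fin r × Fin r) F, f ∈ van F (mats (zarG F Γ)) ↔
      f ∈ van F (mats (Γ.map (Matrix.GeneralLinearGroup.map (algebraMap k F)))) := by
    intro f
    rw [mem_van_self, mem_van_self]
    constructor
    · rintro h _ ⟨_, ⟨g, hg, rfl⟩, rfl⟩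
      exact h _ ⟨_, map_mem_zar hg, rfl⟩
    · rintro h _ ⟨g, hg, rfl⟩
      rw [← evGL_rename]
      refine evGL_zero_of_zar (f := (MvPolynomial.rename some f : GLPoly r F)) ?_ hg
      intro γ hγ
      rw [evGL_rename]
      exact h _ ⟨_, ⟨γ, hγ, rfl⟩, rfl⟩
  ext x
  rw [mem_lieS, mem_lieS]
  constructor
  · intro h f hf
    exact (h1 _).1 (h f ((h1 _).2 hf))
  · intro h f hf
    exact (h1 _).2 (h f ((h1 _).1 hf))

/-- Conjugation of the Lie algebra. -/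
theorem conj_mem_mspan {r ℓ : ℕ} [Fact ℓ.Prime] {Γ : Subgroup (GL (Fin r) ℚ)} {g : GL (Fin r) ℤ_[ℓ]}
    (h : ∀ a ∈ zar ℚ_[ℓ] (Γ : Set (GL (Fin r) ℚ)),
      toQl g * a * (toQl g)⁻¹ ∈ zar ℚ_[ℓ] (Γ : Set (GL (Fin r) ℚ)))
    (h' : ∀ a ∈ zar ℚ_[ℓ] (Γ : Set (GL (Fin r) ℚ)),
      toQl g⁻¹ * a * (toQl g⁻¹)⁻¹ ∈ zar ℚ_[ℓ] (Γ : Set (GL (Fin r) ℚ)))
    {x : Matrix (Fin r) (Fin r) ℚ_[ℓ]} (hx : x ∈ mspan ℚ_[ℓ] (lieS Γ)) :
    co (g : Matrix (Fin r) (Fin r) ℤ_[ℓ]) * x *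
      co ((g⁻¹ : GL (Fin r) ℤ_[ℓ]) : Matrix (Fin r) (Fin r) ℤ_[ℓ]) ∈ mspan ℚ_[ℓ] (lieS Γ) := by
  rw [← lieS_zarG] at hx ⊢
  have h1 := lieS_conj_normal hx (g := toQl g) (fun a ha => h a ha) (fun a ha => by
    have h2 := h' a ha
    have h3 : (toQl g⁻¹ : GL (Fin r) ℚ_[ℓ]) = (toQl g)⁻¹ := map_inv _ _
    rw [h3, inv_inv] at h2
    exact h2)
  have h3 : ((toQl g)⁻¹ : GL (Fin r) ℚ_[ℓ]) = toQl g⁻¹ := (map_inv _ _).symm
  rw [h3] at h1
  exact h1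

/-- Polynomials which vanish on the Mumford-Tate group vanish on `Γ`. -/
theorem van_of_map {r : ℕ} {k F : Type} [Field k] [Field F] [Algebra k F] {Γ : Subgroup (GL (Fin r) k)}
    {T : Set (GL (Fin r) F)} (h : ∀ γ ∈ Γ, Matrix.GeneralLinearGroup.map (algebraMap k F) γ ∈ T)
    {f : GLPoly r k} (hf : f ∈ vanGL k T) : f ∈ vanGL k (Γ : Set (GL (Fin r) k)) := by
  intro γ hγ
  have h1 := hf _ (h γ hγ)
  have h2 := evGL_map (R := k) (Algebra.ofId k F) γ f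
  have h3 : Matrix.GeneralLinearGroup.map ((Algebra.ofId k F : k →ₐ[k] F) : k →+* F) γ =
      Matrix.GeneralLinearGroup.map (algebraMap k F) γ := rfl
  rw [h3, h1] at h2
  exact (algebraMap k F).injective (h2.symm.trans (map_zero _).symm)

section Hodge

variable {r : ℕ} {lev : Fin r → ℤ} {ψ : Matrix (Fin r) (Fin r) ℤ} {P : Matrix (Fin r) (Fin r) ℂ}

theorem hodgeOp_eq {ψ : Matrix (Fin r) (Fin r) ℚ} (hpol : IsPolarized lev 2 ψ P)
    {D D' : Matrix (Fin r) (Fin r) ℂ}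
    (hD : ∀ p, ∀ v ∈ hodgePart lev 2 P p, D *ᵥ v = ((p - 1 : ℤ) : ℂ) • v)
    (hD' : IsHodgeOp lev 2 P D') : D' = (2 : ℂ) • D := by
  have h1 : ∀ v : Fin r → ℂ, D' *ᵥ v = ((2 : ℂ) • D) *ᵥ v := by
    intro v
    have hv : v ∈ ⨆ p, hodgePart lev 2 P p := by
      rw [hpol.span]
      exact Submodule.mem_top
    refine Submodule.iSup_induction _ (motive := fun v => D' *ᵥ v = ((2 : ℂ) • D) *ᵥ v) hv ?_ ?_ ?_
    · intro p v hv
      rw [hD' p v hv, smul_mulVec, hD p v hv, smul_smul]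
      congr 1
      push_cast
      ring
    · rw [mulVec_zero, mulVec_zero]
    · intro x y hx hy
      rw [mulVec_add, mulVec_add, hx, hy]
  apply Matrix.toLin'.injective
  apply LinearMap.ext
  intro v
  rw [Matrix.toLin'_apply, Matrix.toLin'_apply]
  exact h1 v

/-- The Mumford-Tate group contains `Γ`. -/
theorem map_mem_MTat (hlev : ∀ x, 0 ≤ lev x ∧ lev x ≤ 2) (hP : IsUnit P.det)
    (hpol : IsPolarized lev 2 (ψ.map (Int.cast : ℤ → ℚ)) P) {Γ : Subgroup (GL (Fin r) ℤ)}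
    (hconn : IsConn (qp Γ : Set (GL (Fin r) ℚ)))
    (hdet1 : ∀ γ ∈ qp Γ, (γ : Matrix (Fin r) (Fin r) ℚ).det = 1)
    (hperf : ∀ W : Submodule ℚ (Matrix (Fin r) (Fin r) ℚ),
      (∀ x ∈ lieS (qp Γ), ∀ y ∈ lieS (qp Γ), x * y - y * x ∈ W) → lieS (qp Γ) ≤ W)
    {h : Set (Matrix (Fin r) (Fin r) ℂ)} (hMT : MTContains lev 2 P h)
    (hh : ∀ x ∈ lieS (qp Γ), x.map (Rat.cast : ℚ → ℂ) ∈ h) :
    ∀ γ ∈ qp Γ, Matrix.GeneralLinearGroup.map (algebraMap ℚ ℂ) γ ∈ MTat lev P := by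
  obtain ⟨H, hψ, hD⟩ := exists_lattice hlev hP hpol
  subst hψ
  rw [MTat_eq hpol hD]
  refine le_MTGroup H hconn hdet1 ?_
  intro 𝔤 hLie hD𝔤
  refine hperf 𝔤 ?_
  intro x hx y hy
  have h1 := hMT 𝔤 hLie (fun D' hD' => by
    rw [hodgeOp_eq hpol hD hD']
    exact Submodule.smul_mem _ _ hD𝔤) _ (hh x hx) _ (hh y hy)
  refine mem_of_map_mem_mspan (K := ℂ) ?_
  have h2 : (x * y - y * x).map (algebraMap ℚ ℂ) = x.map (Rat.cast : ℚ → ℂ) * y.map (Rat.cast : ℚ → ℂ) -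
      y.map (Rat.cast : ℚ → ℂ) * x.map (Rat.cast : ℚ → ℂ) := by
    have h3 : (Rat.cast : ℚ → ℂ) = algebraMap ℚ ℂ := by
      funext q
      simp
    rw [h3, ← Matrix.map_mul, ← Matrix.map_mul]
    ext i j
    simp only [Matrix.map_apply, Matrix.sub_apply, map_sub]
  rw [h2]
  exact h1

end Hodge

end Pool.Agent.Helper79.HI
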